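import Pool.Agent.Lib.MP_058a58_ag.MT.Stm3
import Pool.Agent.Lib.MP_058a58_ag.MT.P.Lat2
import Pool.Agent.Lib.MP_058a58_ag.MT.P.AU
import Pool.Agent.Lib.MP_058a58_ag.MT.P.MF

set_option autoImplicit false

/-!
# Twists by modular forms: from the pieces to the statements
-/

open UpperHalfPlane MeasureTheory Filter Topology
open scoped MatrixGroups Modular

namespace Pool.Agent.Lib.MP_058a58_ag.MT

theorem r_LSP : R_LSP := by
  intro M l hM
  refine ⟨8 * RR ^ 2 * (4 * l + 14) * M ^ 2, by have := RR_nonneg; positivity, fun s h1 h2 =>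
    ⟨kap M l s, fun hl => by simp [kap, hl], fun δ z hδ => ?_⟩⟩
  exact (piece_LAT M l (by omega) s h1 h2 z δ hδ).2

theorem r_SM : R_SM := by
  intro l s h1 h2 z
  obtain ⟨δ, hδ⟩ := ModularGroup.exists_smul_mem_fd z
  have h := (piece_LAT 1 l one_pos s h1 h2 z δ hδ).1
  refine h.norm.congr fun v => ?_
  simp [isCoprime_one_right]

theorem glue_AU : S_AU := by
  intro G X _ _ _ _ μ hm w hw hn hs E hE
  have i1 : MeasurableConstSMul G X := ⟨fun g => (hm g).measurable⟩
  have i2 : SMulInvariantMeasure G X μ := ⟨fun g s hs' => (hm g).measure_preimage hs'.nullMeasurableSet⟩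
  have h := piece_AU hw hn hs hE
  exact ⟨h.1, h.2.1.symm⟩

theorem glue_MF : S_MF := by
  intro N k f a hN h
  have : NeZero N := ⟨by omega⟩
  have h1 : IsForm N k f a := piece_MF f a h.coeff
  exact ⟨h1, h1.zero, h.one, h.mul, h.good, h.bad⟩

end Pool.Agent.Lib.MP_058a58_ag.MT
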