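import Pool.Agent.Lib.MP_058a58_ag.MT.Stm4

set_option autoImplicit false

/-!
# Twists by modular forms: the orders of the `L`-functions
-/

open Polynomial Filter Topology UpperHalfPlane
open scoped MatrixGroups

namespace TatePole

/-- The order of `L(W ⊗ f, s)` at the edge is `n`, in the sense of the problem: `t ^ (-n)` times its
value at `edge + t` has a finite nonzero limit as `t → 0+`. -/
def HasModOrder (w : ℤ) (k : ℕ) (Q : ℕ → ℂ[X]) (n : ℤ) : Prop :=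
  ∃ c : ℂ, c ≠ 0 ∧ Tendsto (fun t : ℝ => (t : ℂ) ^ (-n) * LFun Q 0 ((edge w k + t : ℝ) : ℂ))
    (𝓝[>] 0) (𝓝 c)

/-- The order of `L(W ⊗ W^∨, s)` at `1` is `n`. -/
def HasAdOrder (N : ℕ → ℂ[X]) (n : ℤ) : Prop :=
  ∃ c : ℂ, c ≠ 0 ∧ Tendsto (fun t : ℝ => (t : ℂ) ^ (-n) * LFun N 0 ((1 + t : ℝ) : ℂ))
    (𝓝[>] 0) (𝓝 c)

theorem tendsto_log_inv : Tendsto (fun t : ℝ => Real.log (1 / t)) (𝓝[>] 0) atTop := by
  have h : Tendsto (fun t : ℝ => 1 / t) (𝓝[>] 0) atTop := by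
    simpa using tendsto_inv_nhdsGT_zero (𝕜 := ℝ)
  exact Real.tendsto_log_atTop.comp h

theorem order_tendsto {g : ℝ → ℂ} {n : ℤ} {c : ℂ} (hc : c ≠ 0)
    (ht : Tendsto (fun t : ℝ => (t : ℂ) ^ (-n) * g t) (𝓝[>] 0) (𝓝 c)) :
    Tendsto (fun t : ℝ => Real.log ‖g t‖ / Real.log (1 / t)) (𝓝[>] 0) (𝓝 (-(n : ℝ))) := by
  have h1 : Tendsto (fun t : ℝ => Real.log ‖(t : ℂ) ^ (-n) * g t‖) (𝓝[>] 0)
      (𝓝 (Real.log ‖c‖)) := (ht.norm).log (norm_ne_zero_iff.mpr hc)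
  have hL := tendsto_log_inv
  have h3 := (h1.div_atTop hL).add_const (-(n : ℝ))
  rw [zero_add] at h3
  refine h3.congr' ?_
  filter_upwards [ht.eventually_ne hc, self_mem_nhdsWithin, hL.eventually_gt_atTop 0]
    with t hne hpos hLpos
  have hx : 0 < t := hpos
  have hL0 : g t ≠ 0 := right_ne_zero_of_mul hne
  rw [norm_mul, norm_zpow, Complex.norm_real, Real.norm_of_nonneg hx.le,
    Real.log_mul (zpow_ne_zero _ hx.ne') (norm_ne_zero_iff.mpr hL0), Real.log_zpow]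
  have hlog : Real.log t = -Real.log (1 / t) := by
    rw [one_div, Real.log_inv, neg_neg]
  rw [hlog]
  set L := Real.log (1 / t) with hLdef
  field_simp
  push_cast
  ring

/-- The general step from the inequalities for the logarithms to the orders. -/
theorem orders_step {J : Type*} [Fintype J] (g : J → ℝ → ℝ) (n : J → ℤ)
    (h : ∀ i, Tendsto (fun t : ℝ => g i t / Real.log (1 / t)) (𝓝[>] 0) (𝓝 (-(n i : ℝ))))
    (B : ℝ → ℝ) (b : ℤ)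
    (hb : Tendsto (fun t : ℝ => B t / Real.log (1 / t)) (𝓝[>] 0) (𝓝 (b : ℝ)))
    (hB : ∀ ε : ℝ, 0 < ε → ∃ δ : ℝ, 0 < δ ∧ ∀ t : ℝ, 0 < t → t < δ →
      ∑ i, (max 0 (g i t)) ^ 2 ≤ (B t + ε * Real.log (1 / t)) * Real.log (1 / t)) :
    ∑ i, (max 0 (-n i)) ^ 2 ≤ b := by
  have hL := tendsto_log_inv
  have h1 : Tendsto (fun t : ℝ => ∑ i, (max 0 (g i t / Real.log (1 / t))) ^ 2) (𝓝[>] 0)
      (𝓝 (∑ i, (max 0 (-(n i : ℝ))) ^ 2)) :=
    tendsto_finsetSum _ fun i _ => (tendsto_const_nhds.max (h i)).pow 2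
  have h2 : ∀ ε : ℝ, 0 < ε → ∑ i, (max 0 (-(n i : ℝ))) ^ 2 ≤ b + ε := by
    intro ε hε
    obtain ⟨δ, hδ, hlt⟩ := hB ε hε
    refine le_of_tendsto_of_tendsto h1 (hb.add_const ε) ?_
    have h3 : Set.Ioo (0 : ℝ) δ ∈ 𝓝[>] (0 : ℝ) := Ioo_mem_nhdsGT hδ
    filter_upwards [h3, hL.eventually_gt_atTop 0] with t ht hLpos
    have h4 := hlt t ht.1 ht.2
    set L := Real.log (1 / t) with hLdef
    have h5 : ∑ i, (max 0 (g i t / L)) ^ 2 = (∑ i, (max 0 (g i t)) ^ 2) / L ^ 2 := by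
      rw [Finset.sum_div]
      refine Finset.sum_congr rfl fun i _ => ?_
      rw [← div_pow]
      congr 1
      rcases le_total 0 (g i t) with h6 | h6
      · rw [max_eq_right h6, max_eq_right (by positivity)]
      · rw [max_eq_left h6, max_eq_left (div_nonpos_of_nonpos_of_nonneg h6 hLpos.le), zero_div]
    rw [h5, div_le_iff₀ (by positivity)]
    refine h4.trans (le_of_eq ?_)
    field_simp
  have h3 : ∑ i, (max 0 (-(n i : ℝ))) ^ 2 ≤ b := le_of_forall_pos_le_add h2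
  have h4 : ((∑ i, (max 0 (-n i)) ^ 2 : ℤ) : ℝ) ≤ (b : ℝ) := by
    push_cast
    exact h3
  exact_mod_cast h4

end TatePole

namespace Pool.Agent.Lib.MP_058a58_ag.MT

open TatePole

/-- **Orders.** If the orders `n i` of the `L`-functions of `W ⊗ f i` at the edge exist, the sum of
the squares of the negative ones, and that of the positive ones, is at most `(dim W)²`. -/
theorem orders_of_fin (hfin : S_FIN) {ℓ : ℕ} [Fact ℓ.Prime] [Algebra ℚ_[ℓ] ℂ] {W : Type}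
    [AddCommGroup W] [Module ℚ_[ℓ] W] [FiniteDimensional ℚ_[ℓ] W]
    (ρ : Representation ℚ_[ℓ] GQ W) (w : ℤ) (S : Finset ℕ) (P : ℕ → ℂ[X])
    (hP : ∀ p : ℕ, p.Prime → p ∉ S → IsWeightFactor ρ (algebraMap ℚ_[ℓ] ℂ) w p (P p))
    {J : Type} [Fintype J] (N k : J → ℕ) (hN : ∀ i, 1 ≤ N i) (hk : ∀ i, 2 ≤ k i)
    (f : ∀ i, CuspForm (CongruenceSubgroup.Gamma0 (N i) : Subgroup (GL (Fin 2) ℝ)) (k i))
    (a : J → ℕ → ℝ) (hf : ∀ i, IsHeckeForm (N i) (k i) (f i) (a i))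
    (hne : ∀ i j, i ≠ j → k i ≠ k j ∨ ∃ p : ℕ, p.Prime ∧ ¬ p ∣ N i * N j ∧ a i p ≠ a j p)
    (Q : J → ℕ → ℂ[X]) (hQ : ∀ i, ModFactors w S P (N i) (k i) (a i) (Q i))
    (n : J → ℤ) (hn : ∀ i, HasModOrder w (k i) (Q i) (n i)) :
    ∑ i, (max 0 (-n i)) ^ 2 ≤ (Module.finrank ℚ_[ℓ] W : ℤ) ^ 2 ∧
    ∑ i, (max 0 (n i)) ^ 2 ≤ (Module.finrank ℚ_[ℓ] W : ℤ) ^ 2 := by
  have h1 : ∀ i, Tendsto (fun t : ℝ => logMod w (k i) (Q i) t / Real.log (1 / t)) (𝓝[>] 0)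
      (𝓝 (-(n i : ℝ))) := fun i => by
    obtain ⟨c, hc, ht⟩ := hn i
    exact order_tendsto hc ht
  set D : ℝ := (Module.finrank ℚ_[ℓ] W : ℝ) with hD
  have hD0 : 0 ≤ D := by positivity
  have hfin' := hfin ℓ W ρ w S P hP J N k hN hk f a hf hne Q hQ
  have hL := tendsto_log_inv
  have hb : Tendsto (fun t : ℝ => (D ^ 2 * Real.log (1 / t)) / Real.log (1 / t)) (𝓝[>] 0)
      (𝓝 (((Module.finrank ℚ_[ℓ] W : ℤ) ^ 2 : ℤ) : ℝ)) := by
    have h2 : (((Module.finrank ℚ_[ℓ] W : ℤ) ^ 2 : ℤ) : ℝ) = D ^ 2 := by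
      push_cast
      rfl
    rw [h2]
    refine tendsto_const_nhds.congr' ?_
    filter_upwards [hL.eventually_gt_atTop 0] with t ht
    field_simp
  have key : ∀ ε : ℝ, 0 < ε → ∃ ε' : ℝ, 0 < ε' ∧ (D + ε') ^ 2 ≤ D ^ 2 + ε := by
    intro ε hε
    refine ⟨min 1 (ε / (2 * D + 1)), by positivity, ?_⟩
    set e := min 1 (ε / (2 * D + 1)) with he
    have e1 : e ≤ 1 := min_le_left _ _
    have e2 : e ≤ ε / (2 * D + 1) := min_le_right _ _
    have e3 : 0 < e := by positivity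
    rw [le_div_iff₀ (by positivity)] at e2
    nlinarith
  have e : (fun i => max 0 (n i)) = fun i => max 0 (-(-n i)) := by
    ext i
    rw [neg_neg]
  constructor
  · refine orders_step (fun i t => logMod w (k i) (Q i) t) n h1 (fun t => D ^ 2 * Real.log (1 / t)) _
      hb fun ε hε => ?_
    obtain ⟨ε', hε', h3⟩ := key ε hε
    obtain ⟨δ, hδ, h4⟩ := hfin' ε' hε'
    refine ⟨δ, hδ, fun t ht0 ht => (h4 t ht0 ht).1.trans ?_⟩
    rw [mul_pow, ← hD]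
    have h5 := mul_le_mul_of_nonneg_right h3 (sq_nonneg (Real.log (1 / t)))
    linarith
  · have h2 : ∀ i, Tendsto (fun t : ℝ => -logMod w (k i) (Q i) t / Real.log (1 / t)) (𝓝[>] 0)
        (𝓝 (-((-n i : ℤ) : ℝ))) := fun i => by
      have h6 := (h1 i).neg
      push_cast
      refine h6.congr fun t => ?_
      rw [neg_div]
    have h7 := orders_step (fun i t => -logMod w (k i) (Q i) t) (fun i => -n i) h2
      (fun t => D ^ 2 * Real.log (1 / t)) ((Module.finrank ℚ_[ℓ] W : ℤ) ^ 2) hb fun ε hε => by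
        obtain ⟨ε', hε', h3⟩ := key ε hε
        obtain ⟨δ, hδ, h4⟩ := hfin' ε' hε'
        refine ⟨δ, hδ, fun t ht0 ht => (h4 t ht0 ht).2.trans ?_⟩
        rw [mul_pow, ← hD]
        have h5 := mul_le_mul_of_nonneg_right h3 (sq_nonneg (Real.log (1 / t)))
        linarith
    simpa only [neg_neg] using h7

/-- At most `2 (dim W)²` of the orders are different from zero. -/
theorem card_orders_of_fin (hfin : S_FIN) {ℓ : ℕ} [Fact ℓ.Prime] [Algebra ℚ_[ℓ] ℂ] {W : Type}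
    [AddCommGroup W] [Module ℚ_[ℓ] W] [FiniteDimensional ℚ_[ℓ] W]
    (ρ : Representation ℚ_[ℓ] GQ W) (w : ℤ) (S : Finset ℕ) (P : ℕ → ℂ[X])
    (hP : ∀ p : ℕ, p.Prime → p ∉ S → IsWeightFactor ρ (algebraMap ℚ_[ℓ] ℂ) w p (P p))
    {J : Type} [Fintype J] (N k : J → ℕ) (hN : ∀ i, 1 ≤ N i) (hk : ∀ i, 2 ≤ k i)
    (f : ∀ i, CuspForm (CongruenceSubgroup.Gamma0 (N i) : Subgroup (GL (Fin 2) ℝ)) (k i))
    (a : J → ℕ → ℝ) (hf : ∀ i, IsHeckeForm (N i) (k i) (f i) (a i))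
    (hne : ∀ i j, i ≠ j → k i ≠ k j ∨ ∃ p : ℕ, p.Prime ∧ ¬ p ∣ N i * N j ∧ a i p ≠ a j p)
    (Q : J → ℕ → ℂ[X]) (hQ : ∀ i, ModFactors w S P (N i) (k i) (a i) (Q i))
    (n : J → ℤ) (hn : ∀ i, HasModOrder w (k i) (Q i) (n i)) :
    (Finset.univ.filter fun i => n i ≠ 0).card ≤ 2 * Module.finrank ℚ_[ℓ] W ^ 2 := by
  obtain ⟨h1, h2⟩ := orders_of_fin hfin ρ w S P hP N k hN hk f a hf hne Q hQ n hn
  have h3 : ((Finset.univ.filter fun i => n i ≠ 0).card : ℤ) ≤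
      ∑ i, ((max 0 (-n i)) ^ 2 + (max 0 (n i)) ^ 2) := by
    rw [Finset.card_filter]
    push_cast
    refine Finset.sum_le_sum fun i _ => ?_
    split_ifs with h
    · rcases lt_or_gt_of_ne h with h4 | h4
      · rw [max_eq_right (by omega), max_eq_left h4.le]
        nlinarith
      · rw [max_eq_left (by omega), max_eq_right h4.le]
        nlinarith
    · positivity
  rw [Finset.sum_add_distrib] at h3
  have h4 : ((Finset.univ.filter fun i => n i ≠ 0).card : ℤ) ≤ 2 * (Module.finrank ℚ_[ℓ] W : ℤ) ^ 2 :=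
    by linarith
  exact_mod_cast h4

/-- **Orders, Rankin-Selberg form.** If moreover the order `b` of the `L`-function of `W ⊗ W^∨` at `1`
exists, both sums are at most `-b`. -/
theorem orders_of_fin2 (hfin : S_FIN2) {ℓ : ℕ} [Fact ℓ.Prime] [Algebra ℚ_[ℓ] ℂ] {W : Type}
    [AddCommGroup W] [Module ℚ_[ℓ] W] [FiniteDimensional ℚ_[ℓ] W]
    (ρ : Representation ℚ_[ℓ] GQ W) (w : ℤ) (S : Finset ℕ) (P : ℕ → ℂ[X])
    (hP : ∀ p : ℕ, p.Prime → p ∉ S → IsWeightFactor ρ (algebraMap ℚ_[ℓ] ℂ) w p (P p))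
    (S' : Finset ℕ) (N : ℕ → ℂ[X]) (hN : AdFactors ρ (algebraMap ℚ_[ℓ] ℂ) S' N)
    {J : Type} [Fintype J] (M k : J → ℕ) (hM : ∀ i, 1 ≤ M i) (hk : ∀ i, 2 ≤ k i)
    (f : ∀ i, CuspForm (CongruenceSubgroup.Gamma0 (M i) : Subgroup (GL (Fin 2) ℝ)) (k i))
    (a : J → ℕ → ℝ) (hf : ∀ i, IsHeckeForm (M i) (k i) (f i) (a i))
    (hne : ∀ i j, i ≠ j → k i ≠ k j ∨ ∃ p : ℕ, p.Prime ∧ ¬ p ∣ M i * M j ∧ a i p ≠ a j p)
    (Q : J → ℕ → ℂ[X]) (hQ : ∀ i, ModFactors w S P (M i) (k i) (a i) (Q i))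
    (n : J → ℤ) (hn : ∀ i, HasModOrder w (k i) (Q i) (n i)) (b : ℤ) (hb : HasAdOrder N b) :
    ∑ i, (max 0 (-n i)) ^ 2 ≤ -b ∧ ∑ i, (max 0 (n i)) ^ 2 ≤ -b := by
  have h1 : ∀ i, Tendsto (fun t : ℝ => logMod w (k i) (Q i) t / Real.log (1 / t)) (𝓝[>] 0)
      (𝓝 (-(n i : ℝ))) := fun i => by
    obtain ⟨c, hc, ht⟩ := hn i
    exact order_tendsto hc ht
  have h0 : Tendsto (fun t : ℝ => Real.log ‖LFun N 0 ((1 + t : ℝ) : ℂ)‖ / Real.log (1 / t))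
      (𝓝[>] 0) (𝓝 (((-b : ℤ)) : ℝ)) := by
    obtain ⟨c, hc, ht⟩ := hb
    have := order_tendsto hc ht
    rw [Int.cast_neg]
    exact this
  have hfin' := hfin ℓ W ρ w S P hP S' N hN J M k hM hk f a hf hne Q hQ
  constructor
  · refine orders_step (fun i t => logMod w (k i) (Q i) t) n h1
      (fun t => Real.log ‖LFun N 0 ((1 + t : ℝ) : ℂ)‖) _ h0 fun ε hε => ?_
    obtain ⟨δ, hδ, h4⟩ := hfin' ε hε
    exact ⟨δ, hδ, fun t ht0 ht => (h4 t ht0 ht).1⟩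
  · have h2 : ∀ i, Tendsto (fun t : ℝ => -logMod w (k i) (Q i) t / Real.log (1 / t)) (𝓝[>] 0)
        (𝓝 (-((-n i : ℤ) : ℝ))) := fun i => by
      have h6 := (h1 i).neg
      push_cast
      refine h6.congr fun t => ?_
      rw [neg_div]
    have h7 := orders_step (fun i t => -logMod w (k i) (Q i) t) (fun i => -n i) h2
      (fun t => Real.log ‖LFun N 0 ((1 + t : ℝ) : ℂ)‖) (-b) h0 fun ε hε => by
        obtain ⟨δ, hδ, h4⟩ := hfin' ε hε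
        exact ⟨δ, hδ, fun t ht0 ht => (h4 t ht0 ht).2.1⟩
    simpa only [neg_neg] using h7

end Pool.Agent.Lib.MP_058a58_ag.MT
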