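import Pool.Agent.Lib.MP_058a58_ag.MT.Stm

set_option autoImplicit false

/-!
# Twists by modular forms: statements of the pieces on Fourier coefficients and orthogonality
-/

open UpperHalfPlane MeasureTheory Filter Topology
open scoped MatrixGroups Modular ComplexConjugate

namespace Pool.Agent.Lib.MP_058a58_ag.MT

/-! ### The functions to which MAIN is applied -/

/-- **UP.** Proof. `‖f(pz)‖ * y^(k/2) = ‖f(pz)‖ * (p y)^(k/2) * p^(-k/2)`; `f(pz) = ∑ a(n) e(n p z) = ∑ upc p a (m) e(m z)`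
(the injection `n ↦ p n`, `Function.Injective.hasSum_iff`). -/
def S_UP : Prop := ∀ (k p : ℕ) (hp : 0 < p) (f : ℍ → ℂ) (a : ℕ → ℝ), IsQ k f a →
  IsQ k (fun z => f (dil p hp z)) (upc p a)

/-- The function `(f(pz) conj g(z) - f(z) conj g(pz)) y^k`. -/
noncomputable def Fp (p : ℕ) (hp : 0 < p) (k : ℕ) (f g : ℍ → ℂ) (z : ℍ) : ℂ :=
  (f (dil p hp z) * conj (g z) - f z * conj (g (dil p hp z))) * (z.im : ℂ) ^ k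

/-- The function `f(z) conj g(z) y^((k+k')/2)`. -/
noncomputable def Fl (k k' : ℕ) (f g : ℍ → ℂ) (z : ℍ) : ℂ :=
  f z * conj (g z) * ((z.im ^ (((k : ℝ) + k') / 2) : ℝ) : ℂ)

/-- **HI.** Proof. For `γ = (a b; c d)` in `Γ₀(N N' p)`: `p (γ z) = γ' (p z)` with `γ' = (a, p b; c/p, d)` in `Γ₀(N N')`,
`jf γ' (p z) = c z + d = jf γ z`. So `f(p γ z) = j^k f(p z)`, `g(γ z) = j^k g(z)` etc., `im (γ z) = y/|j|²`, and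
`j^k conj(j)^k/|j|^(2k) = 1`. Bounded: `‖f(pz)‖ y^(k/2)`, `‖g(z)‖ y^(k/2)` are bounded (UP). -/
def S_HI : Prop := S_UP → ∀ (N N' k p : ℕ) (hp : 0 < p) (f g : ℍ → ℂ) (a b : ℕ → ℝ),
  IsForm N k f a → IsForm N' k g b →
  Continuous (Fp p hp k f g) ∧ (∃ C, ∀ z, ‖Fp p hp k f g z‖ ≤ C) ∧
  ∀ γ ∈ CongruenceSubgroup.Gamma0 (N * N' * p), ∀ z : ℍ, Fp p hp k f g (γ • z) = Fp p hp k f g z

/-- **HL.** Proof. As HI: `f(γ z) conj g(γ z) (im γ z)^K = j^k conj(j)^k' |j|^(-k-k') * f conj(g) y^K`, and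
`j^k conj(j)^k' |j|^(-k-k') = (j/|j|)^k (conj j/|j|)^k' = (j/|j|)^(k-k')`. -/
def S_HL : Prop := ∀ (N N' k' l : ℕ) (f g : ℍ → ℂ) (a b : ℕ → ℝ),
  IsForm N (k' + l) f a → IsForm N' k' g b →
  Continuous (Fl (k' + l) k' f g) ∧ (∃ C, ∀ z, ‖Fl (k' + l) k' f g z‖ ≤ C) ∧
  ∀ γ ∈ CongruenceSubgroup.Gamma0 (N * N'), ∀ z : ℍ,
    Fl (k' + l) k' f g (γ • z) = (jf γ z / ‖jf γ z‖) ^ l * Fl (k' + l) k' f g z

/-- The matrix `(p, y; N₀ p, p w)`, of determinant `p` if `p w - N₀ y = 1`. -/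
noncomputable def Wm (N₀ p : ℕ) (y w : ℤ) (hp : 0 < p) (h : (p : ℤ) * w - N₀ * y = 1) : GL (Fin 2) ℝ :=
  Matrix.GeneralLinearGroup.mkOfDetNeZero !![(p : ℝ), (y : ℝ); (N₀ : ℝ) * p, (p : ℝ) * w] (by
    have h1 : ((p : ℝ) * w - N₀ * y) = 1 := by exact_mod_cast h
    have h2 : (p : ℝ) ≠ 0 := by positivity
    rw [Matrix.det_fin_two_of]
    have h3 : (p : ℝ) * ((p : ℝ) * w) - (y : ℝ) * ((N₀ : ℝ) * p) = p * ((p : ℝ) * w - N₀ * y) := by ring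
    rw [h3, h1, mul_one]
    exact h2)

/-- **WN1.** Proof. `N₀ = N N'`, `W z = γ₂ (p z)`, `γ₂ = (1, y; N₀, p w)`, and `p (W z) = γ₁ z`, `γ₁ = (p, y; N₀, w)`; both are in `Γ₀(N₀)`. With
`J = N₀ z + w`: `f(p W z) = J^k f(z)`, `f(W z) = (p J)^k f(p z)`, the same for `g`, `im (W z) = y/(p |J|²)`; hence
`f(pWz) conj g(Wz) im(Wz)^k = f(z) conj g(pz) y^k` and `f(Wz) conj g(pWz) im(Wz)^k = f(pz) conj g(z) y^k`. -/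
def S_WN1 : Prop := ∀ (N N' k p : ℕ) (hp : 0 < p) (y w : ℤ) (h : (p : ℤ) * w - (N * N' : ℕ) * y = 1)
  (f g : ℍ → ℂ) (a b : ℕ → ℝ), IsForm N k f a → IsForm N' k g b →
  ∀ z : ℍ, Fp p hp k f g (Wm (N * N') p y w hp h • z) = -Fp p hp k f g z

/-- **WN2.** Conjugation with `W`. Proof. For `γ = (a, b; N₀ p c, d)` the matrix `W γ W⁻¹` has the entries
`p a w - p b N₀ + N₀ p c w y - d N₀ y`, `-a y + p b - N₀ c y² + d y`, `N₀ p (a w - b N₀ + p c w² - d w)`,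
`-N₀ a y + N₀ p b - N₀ p c w y + p w d`; all are integers, the third is divisible by `N₀ p`. In the same way `W⁻¹ γ W` is in `Γ₀(N₀ p)`
(`W⁻¹ = (p w, -y; -N₀ p, p)/p`), so the map `γ ↦ W γ W⁻¹` is a bijection. (Or: `W² = p * (element of Γ₀(N₀ p))`.) -/
def S_WN2 : Prop := ∀ (N₀ p : ℕ) (hp : 0 < p) (y w : ℤ) (h : (p : ℤ) * w - N₀ * y = 1),
  ∃ e : CongruenceSubgroup.Gamma0 (N₀ * p) ≃ CongruenceSubgroup.Gamma0 (N₀ * p),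
    ∀ (γ : CongruenceSubgroup.Gamma0 (N₀ * p)) (z : ℍ),
      Wm N₀ p y w hp h • ((γ : SL(2, ℤ)) • z) =
        ((e γ : CongruenceSubgroup.Gamma0 (N₀ * p)) : SL(2, ℤ)) • (Wm N₀ p y w hp h • z)

/-- **OR.** Orthogonality. Proof. `F = Fp ..` is bounded and `w` vanishes outside of finitely many translates of `𝒟`, so
`w F` is integrable (VOL). `∫ w(z) F(z) = ∫ w(Wz) F(Wz) = -∫ w'(z) F(z)`, `w'(z) = w(Wz)` (the measure is invariant under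
`GL(2, ℝ)`; WN1). By WN2 `∑_γ w'(γ z) = ∑_γ w(e(γ) W z) = 1`. AU with the weight `w` and `E = w' F`:
`∫ w' F = ∫ w(z) ∑_γ w'(γ z) F(γ z) = ∫ w(z) F(z)` (`F(γ z) = F(z)`). So `∫ w F = -∫ w F`. (`y`, `w` from Bezout:
`p` is prime to `N₀ = N N'`. `N₀ p` is `N * N' * p`.) -/
def S_OR : Prop := S_WN1 → S_WN2 → S_AU → S_VOL → S_HI → S_UP →
  ∀ (N N' k p : ℕ) (hp : 0 < p) (f g : ℍ → ℂ) (a b : ℕ → ℝ)
  (R : Finset SL(2, ℤ)) (w : ℍ → ℝ), p.Prime → 1 ≤ N → 1 ≤ N' → ¬ p ∣ N * N' → IsForm N k f a →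
  IsForm N' k g b → PWt (N * N' * p) R w → ∫ z, (w z : ℂ) * Fp p hp k f g z = 0

/-! ### Fourier coefficients -/

/-- **PV.** Parseval. Proof. For fixed `y > 0` the series `∑ a(n) e(n x) e^(-2π n y)` converges absolutely (`IsQ.sum` at `i y`).
`∫_0^1 f conj g dx = ∑ a(n) b(n) e^(-4π n y)` (multiply out, `∫_0^1 e((n-m) x) dx = δ`; the double series converges
absolutely). For `f = g`: `∑ a(n)² e^(-4π n y) = ∫_0^1 |f|² ≤ C² y^(-k)`. Cauchy-Schwarz for the last part. -/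
def S_PV : Prop := ∀ (k k' : ℕ) (f g : ℍ → ℂ) (a b : ℕ → ℝ), IsQ k f a → IsQ k' g b →
  (∀ y : ℝ, 0 < y → Summable (fun n : ℕ => |a n * b n| * Real.exp (-4 * Real.pi * n * y)) ∧
    ∫ x in Set.Ico (0 : ℝ) 1, f (ofComplex (x + y * Complex.I)) * conj (g (ofComplex (x + y * Complex.I))) =
      ((∑' n : ℕ, a n * b n * Real.exp (-4 * Real.pi * n * y) : ℝ) : ℂ)) ∧
  ∃ C : ℝ, 0 ≤ C ∧ ∀ y : ℝ, 0 < y →
    ∑' n : ℕ, |a n * b n| * Real.exp (-4 * Real.pi * n * y) ≤ C * y ^ (-(((k : ℝ) + k') / 2))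

/-- The integrals in FC. -/
noncomputable def IG (K : ℝ) (u : ℝ → ℝ) (n : ℕ) : ℝ :=
  ∫ y in Set.Ioi (0 : ℝ), Real.exp (-4 * Real.pi * n * y) * y ^ (K - 2) * u y

/-- **FC.** Integrals over the strip in terms of the coefficients. Proof. `K = (k+k')/2`. `f conj(g) y^K` is bounded and
`u(y)/y²` is integrable on `(0, ∞)`, so the function is integrable over the strip (SI), and
`∫ = ∫_0^∞ y^(K-2) u(y) ∫_0^1 f conj g dx dy`, PV, and Tonelli: `∫_0^∞ ∑ |a b| e^(-4π n y) y^(K-2) u(y) dy ≤ C ∫ u(y) y^(-2) dy`. -/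
def S_FC : Prop := S_SI → S_PV → ∀ (k k' : ℕ) (f g : ℍ → ℂ) (a b : ℕ → ℝ), IsQ k f a → IsQ k' g b →
  ∀ u : ℝ → ℝ, Measurable u → (∀ y, 0 < y → 0 ≤ u y) →
  IntegrableOn (fun y : ℝ => u y / y ^ 2) (Set.Ioi 0) →
  Summable (fun n : ℕ => |a n * b n| * IG (((k : ℝ) + k') / 2) u n) ∧
  IntegrableOn (fun z : ℍ => Fl k k' f g z * (u z.im : ℂ)) strip ∧
  ∫ z in strip, Fl k k' f g z * (u z.im : ℂ) =
    ((∑' n : ℕ, a n * b n * IG (((k : ℝ) + k') / 2) u n : ℝ) : ℂ)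

/-- **G1.** The integrals for `u = ht M l s`. Proof. `ht = ∑_m hh(y/m²)` (`m ≥ 1` prime to `M`), and
`0 ≤ y^s - hh l s y ≤ (l+4) y^(s+1)` for `y > 0` (Bernoulli: `1 - (1+y)^(-A) ≤ A y`). With
`∫_0^∞ e^(-4π n y) y^(q-1) dy = Γ(q) (4π n)^(-q)` (`Real.integral_rpow_mul_exp_neg_mul_Ioi`):
`∫ e^(-4π n y) y^(K-2) hh(y/m²) dy = m^(-2s) Γ(s+K-1) (4π n)^(-(s+K-1)) + O((l+4) m^(-2s-2) Γ(s+K) (4π n)^(-(s+K)))`. Sum over `m`: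
`c = Γ(s+K-1) (4π)^(-(s+K-1)) ∑_{(m,M)=1} m^(-2s)`, the sum over `m` is at least `1`; `Γ` has a positive minimum on the compact
interval `[K, K+1]` and is bounded on `[K+1, K+2]`. -/
def S_G1 : Prop := R_HT → ∀ (M l : ℕ) (K : ℝ), 1 ≤ M → 2 ≤ K → ∃ C c₀ : ℝ, 0 < c₀ ∧
  ∀ s : ℝ, 1 < s → s ≤ 2 → ∃ c : ℝ, c₀ ≤ c ∧ ∀ n : ℕ, 1 ≤ n →
    |IG K (ht M l s) n - c * (n : ℝ) ^ (-(s + K - 1))| ≤ C * (n : ℝ) ^ (-(s + K))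

/-- **MS.** Mean squares. Proof. By PV (`f = g`) `∑ a(n)² e^(-4π n y) ≤ C y^(-k)`. For `n ≥ 1`, `q = s + k - 1 ≥ 1`:
`n^(-q) = (4π)^q Γ(q)^(-1) ∫_0^∞ e^(-4π n y) y^(q-1) dy`. Sum with the weights `a(n)²` (Tonelli):
`∑ a(n)² n^(-q) ≤ (4π)^q Γ(q)^(-1) (∫_0^1 C y^(-k) y^(s+k-2) dy + ∫_1^∞ ..)`, the first integral is `C/(s-1)`; for `y ≥ 1`
`∑_{n ≥ 1} a(n)² e^(-4π n y) ≤ e^(-2π y) ∑ a(n)² e^(-2π n y) ≤ e^(-2π y) C 2^k`, so the second integral is bounded. (Or: with `y = 1/X`,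
`∑_{n ≤ X} a(n)² ≤ e^(4π) C X^k`, and dyadic blocks.) -/
def S_MS : Prop := S_PV → ∀ (k : ℕ) (f : ℍ → ℂ) (a : ℕ → ℝ), 2 ≤ k → IsQ k f a →
  ∃ C : ℝ, 0 ≤ C ∧ ∀ s : ℝ, 1 < s → s ≤ 2 →
    Summable (fun n : ℕ => a n ^ 2 * (n : ℝ) ^ (-(s + k - 1))) ∧
    ∑' n : ℕ, a n ^ 2 * (n : ℝ) ^ (-(s + k - 1)) ≤ C / (s - 1)

/-- The conclusion of FC. -/
def R_FC : Prop := ∀ (k k' : ℕ) (f g : ℍ → ℂ) (a b : ℕ → ℝ), IsQ k f a → IsQ k' g b →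
  ∀ u : ℝ → ℝ, Measurable u → (∀ y, 0 < y → 0 ≤ u y) →
  IntegrableOn (fun y : ℝ => u y / y ^ 2) (Set.Ioi 0) →
  Summable (fun n : ℕ => |a n * b n| * IG (((k : ℝ) + k') / 2) u n) ∧
  IntegrableOn (fun z : ℍ => Fl k k' f g z * (u z.im : ℂ)) strip ∧
  ∫ z in strip, Fl k k' f g z * (u z.im : ℂ) =
    ((∑' n : ℕ, a n * b n * IG (((k : ℝ) + k') / 2) u n : ℝ) : ℂ)

/-- The conclusion of G1. -/
def R_G1 : Prop := ∀ (M l : ℕ) (K : ℝ), 1 ≤ M → 2 ≤ K → ∃ C c₀ : ℝ, 0 < c₀ ∧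
  ∀ s : ℝ, 1 < s → s ≤ 2 → ∃ c : ℝ, c₀ ≤ c ∧ ∀ n : ℕ, 1 ≤ n →
    |IG K (ht M l s) n - c * (n : ℝ) ^ (-(s + K - 1))| ≤ C * (n : ℝ) ^ (-(s + K))

/-- The conclusion of MS. -/
def R_MS : Prop := ∀ (k : ℕ) (f : ℍ → ℂ) (a : ℕ → ℝ), 2 ≤ k → IsQ k f a →
  ∃ C : ℝ, 0 ≤ C ∧ ∀ s : ℝ, 1 < s → s ≤ 2 →
    Summable (fun n : ℕ => a n ^ 2 * (n : ℝ) ^ (-(s + k - 1))) ∧
    ∑' n : ℕ, a n ^ 2 * (n : ℝ) ^ (-(s + k - 1)) ≤ C / (s - 1)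

/-- **CMP.** From the integrals to the Dirichlet series. Proof. `K = (k+k')/2`. FC with `u = ht M l s` (HT) for both pairs:
the integral is `∑ (a₁b₁ - a₂b₂)(n) IG(n)`; by G1 it is `c ∑ (a₁b₁ - a₂b₂)(n) n^(-(s+K-1)) + O(C ∑ (|a₁b₁| + |a₂b₂|)(n) n^(-(s+K)))`. For
`s > 1` the last sum is at most `∑ |a b| n^(-(K+1)) ≤ (∑ a² n^(-(k+1)))^(1/2) (∑ b² n^(-(k'+1)))^(1/2) < ∞` (MS with `s = 2`); the
convergence of the main sum: MS and `2|ab| n^(-(s+K-1)) ≤ a² n^(-(s+k-1)) + b² n^(-(s+k'-1))`. Divide by `c ≥ c₀`. -/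
def S_CMP : Prop := R_HT → R_FC → R_G1 → R_MS → ∀ (M l k k' : ℕ) (f₁ g₁ f₂ g₂ : ℍ → ℂ)
  (a₁ b₁ a₂ b₂ : ℕ → ℝ), 1 ≤ M → 2 ≤ k → 2 ≤ k' → IsQ k f₁ a₁ → IsQ k' g₁ b₁ → IsQ k f₂ a₂ → IsQ k' g₂ b₂ →
  (∃ C₁ : ℝ, ∀ s : ℝ, 1 < s → s ≤ 2 → ‖∫ z in strip,
    (Fl k k' f₁ g₁ z - Fl k k' f₂ g₂ z) * (ht M l s z.im : ℂ)‖ ≤ C₁) →
  ∃ C : ℝ, ∀ s : ℝ, 1 < s → s ≤ 2 →
    Summable (fun n : ℕ => (a₁ n * b₁ n - a₂ n * b₂ n) * (n : ℝ) ^ (-(s + ((k : ℝ) + k') / 2 - 1))) ∧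
    |∑' n : ℕ, (a₁ n * b₁ n - a₂ n * b₂ n) * (n : ℝ) ^ (-(s + ((k : ℝ) + k') / 2 - 1))| ≤ C

/-- **HR.** Hecke relation. Proof. For every `n`: `a(p n) = a(p) a(n) - p^(k-1) upc p a n` (write `n = p^r m`, `p` prime to `m`;
`HeckeSeq.mul`, `good`). With `D = ∑ a b n^(-σ)`, `G₁ = ∑ upc p a (n) b(n) n^(-σ) = p^(-σ) ∑ a(n) b(p n) n^(-σ)`,
`G₂ = ∑ a(n) upc p b (n) n^(-σ) = p^(-σ) ∑ a(p n) b(n) n^(-σ)`: `p^σ G₁ = b(p) D - p^(k-1) G₂`, `p^σ G₂ = a(p) D - p^(k-1) G₁`; subtract.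
Convergence: `2 |a b| ≤ a² + b²`, and `upc` only reindexes. -/
def S_HR : Prop := ∀ (N N' k p : ℕ) (a b : ℕ → ℝ) (σ : ℝ), HeckeSeq N k a → HeckeSeq N' k b →
  p.Prime → ¬ p ∣ N * N' → Summable (fun n : ℕ => a n ^ 2 * (n : ℝ) ^ (-σ)) →
  Summable (fun n : ℕ => b n ^ 2 * (n : ℝ) ^ (-σ)) →
  (b p - a p) * ∑' n : ℕ, a n * b n * (n : ℝ) ^ (-σ) =
    ((p : ℝ) ^ σ - (p : ℝ) ^ (k - 1)) *
      ∑' n : ℕ, (upc p a n * b n - a n * upc p b n) * (n : ℝ) ^ (-σ)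

/-- The hypotheses on a pair of forms. -/
structure Pair (N N' k k' : ℕ) (f g : ℍ → ℂ) (a b : ℕ → ℝ) : Prop where
  hN : 1 ≤ N
  hN' : 1 ≤ N'
  hk : 2 ≤ k
  hk' : 2 ≤ k'
  hf : IsForm N k f a
  hg : IsForm N' k' g b
  ha : HeckeSeq N k a
  hb : HeckeSeq N' k' b

/-- The Dirichlet series `∑ λ_f(n) λ_g(n) n^(-s)`. -/
noncomputable def DD (k k' : ℕ) (a b : ℕ → ℝ) (s : ℝ) : ℝ :=
  ∑' n : ℕ, lam k a n * lam k' b n * (n : ℝ) ^ (-s)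

/-- The conclusion of OR. -/
def R_OR : Prop := ∀ (N N' k p : ℕ) (hp : 0 < p) (f g : ℍ → ℂ) (a b : ℕ → ℝ)
  (R : Finset SL(2, ℤ)) (w : ℍ → ℝ), p.Prime → 1 ≤ N → 1 ≤ N' → ¬ p ∣ N * N' → IsForm N k f a →
  IsForm N' k g b → PWt (N * N' * p) R w → ∫ z, (w z : ℂ) * Fp p hp k f g z = 0

/-- The conclusion of CMP. -/
def R_CMP : Prop := ∀ (M l k k' : ℕ) (f₁ g₁ f₂ g₂ : ℍ → ℂ)
  (a₁ b₁ a₂ b₂ : ℕ → ℝ), 1 ≤ M → 2 ≤ k → 2 ≤ k' → IsQ k f₁ a₁ → IsQ k' g₁ b₁ → IsQ k f₂ a₂ → IsQ k' g₂ b₂ →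
  (∃ C₁ : ℝ, ∀ s : ℝ, 1 < s → s ≤ 2 → ‖∫ z in strip,
    (Fl k k' f₁ g₁ z - Fl k k' f₂ g₂ z) * (ht M l s z.im : ℂ)‖ ≤ C₁) →
  ∃ C : ℝ, ∀ s : ℝ, 1 < s → s ≤ 2 →
    Summable (fun n : ℕ => (a₁ n * b₁ n - a₂ n * b₂ n) * (n : ℝ) ^ (-(s + ((k : ℝ) + k') / 2 - 1))) ∧
    |∑' n : ℕ, (a₁ n * b₁ n - a₂ n * b₂ n) * (n : ℝ) ^ (-(s + ((k : ℝ) + k') / 2 - 1))| ≤ C

/-- **DBE.** Equal weights, different eigenvalues at one prime. Proof. `M = N N' p`. MAIN with `l = 0` and `F = Fp p f g` (HI), a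
partition weight (PW), OR: `‖∫_strip F ht‖ ≤ C`. `F = Fl k k (f(p·)) g - Fl k k f (g(p·))` (`y^((k+k)/2) = y^k`), so CMP
with the coefficients `upc p a`, `b` and `a`, `upc p b` (UP). HR with `σ = s + k - 1`:
`(b(p) - a(p)) DD = (p^σ - p^(k-1)) * (bounded)`, `p^σ ≤ p^(k+1)`; here `DD k k a b s = ∑ a b n^(-(s+k-1))`
(`lam` has the denominator `n^((k-1)/2)`). -/
def S_DBE : Prop := R_MAIN → S_PW → S_UP → S_HI → R_OR → R_CMP → R_MS → S_HR →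
  ∀ (N N' k : ℕ) (f g : ℍ → ℂ) (a b : ℕ → ℝ), Pair N N' k k f g a b →
  (∃ p : ℕ, p.Prime ∧ ¬ p ∣ N * N' ∧ a p ≠ b p) →
  ∃ C : ℝ, ∀ s : ℝ, 1 < s → s ≤ 2 → |DD k k a b s| ≤ C

/-- **DBL.** Different weights. Proof. `M = N N'`, `l ≥ 1`: MAIN with `F = Fl (k'+l) k' f g` (HL) gives `κ = 0`, so the integral is
bounded; CMP with `f₂ = g₂ = 0`. -/
def S_DBL : Prop := R_MAIN → S_PW → S_HL → R_CMP → ∀ (N N' k' l : ℕ) (f g : ℍ → ℂ) (a b : ℕ → ℝ),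
  Pair N N' (k' + l) k' f g a b → 1 ≤ l →
  ∃ C : ℝ, ∀ s : ℝ, 1 < s → s ≤ 2 → |DD (k' + l) k' a b s| ≤ C

/-- **DG.** The diagonal, and absolute convergence. Proof. MS; `lam k a n ^ 2 * n^(-s) = a(n)² n^(-(s+k-1))`;
`2 |lam a * lam b| ≤ (lam a)² + (lam b)²`. -/
def S_DG : Prop := R_MS → ∀ (N N' k k' : ℕ) (f g : ℍ → ℂ) (a b : ℕ → ℝ), Pair N N' k k' f g a b →
  (∃ C : ℝ, ∀ s : ℝ, 1 < s → s ≤ 2 → |DD k k a a s| ≤ C / (s - 1)) ∧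
  ∀ s : ℝ, 1 < s → s ≤ 2 → Summable (fun n : ℕ => |lam k a n * lam k' b n| * (n : ℝ) ^ (-s))

/-- **HB.** Hecke's bound. Proof. `a(n) e^(-2π n y) = ∫_0^1 f(x + i y) e(-n x) dx`, `y = 1/n`; or from PV:
`a(n)² e^(-4π n y) ≤ C y^(-k)`. -/
def S_HB : Prop := S_PV → ∀ (k : ℕ) (f : ℍ → ℂ) (a : ℕ → ℝ), IsQ k f a →
  ∃ C : ℝ, ∀ n : ℕ, 1 ≤ n → |a n| ≤ C * (n : ℝ) ^ ((k : ℝ) / 2)

end Pool.Agent.Lib.MP_058a58_ag.MT
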