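import Pool.Agent.Lib.MP_058a58_ag.MT.Asm3
import Pool.Agent.Lib.MP_058a58_ag.MT.Orders
import Pool.Agent.Lib.MP_058a58_ag.MT.Glue
import Pool.Agent.Lib.MP_058a58_ag.MT.P.PW
import Pool.Agent.Lib.MP_058a58_ag.MT.P.CO1
import Pool.Agent.Lib.MP_058a58_ag.MT.P.CO2
import Pool.Agent.Lib.MP_058a58_ag.MT.P.CO
import Pool.Agent.Lib.MP_058a58_ag.MT.P.SI
import Pool.Agent.Lib.MP_058a58_ag.MT.P.HT
import Pool.Agent.Lib.MP_058a58_ag.MT.P.VOL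
import Pool.Agent.Lib.MP_058a58_ag.MT.P.MAIN
import Pool.Agent.Lib.MP_058a58_ag.MT.P.UP
import Pool.Agent.Lib.MP_058a58_ag.MT.P.HI
import Pool.Agent.Lib.MP_058a58_ag.MT.P.HL
import Pool.Agent.Lib.MP_058a58_ag.MT.P.WN1
import Pool.Agent.Lib.MP_058a58_ag.MT.P.WN2
import Pool.Agent.Lib.MP_058a58_ag.MT.P.OR
import Pool.Agent.Lib.MP_058a58_ag.MT.P.PV
import Pool.Agent.Lib.MP_058a58_ag.MT.P.FC
import Pool.Agent.Lib.MP_058a58_ag.MT.P.G1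
import Pool.Agent.Lib.MP_058a58_ag.MT.P.MS
import Pool.Agent.Lib.MP_058a58_ag.MT.P.CMP
import Pool.Agent.Lib.MP_058a58_ag.MT.P.HR
import Pool.Agent.Lib.MP_058a58_ag.MT.P.DBE
import Pool.Agent.Lib.MP_058a58_ag.MT.P.DBL
import Pool.Agent.Lib.MP_058a58_ag.MT.P.DG
import Pool.Agent.Lib.MP_058a58_ag.MT.P.HB
import Pool.Agent.Lib.MP_058a58_ag.MT.P.F1
import Pool.Agent.Lib.MP_058a58_ag.MT.P.F2
import Pool.Agent.Lib.MP_058a58_ag.MT.P.F3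
import Pool.Agent.Lib.MP_058a58_ag.MT.P.EPA
import Pool.Agent.Lib.MP_058a58_ag.MT.P.EPF
import Pool.Agent.Lib.MP_058a58_ag.MT.P.GRF
import Pool.Agent.Lib.MP_058a58_ag.MT.P.BS3
import Pool.Agent.Lib.MP_058a58_ag.MT.P.LGF
import Pool.Agent.Lib.MP_058a58_ag.MT.P.LGN
import Pool.Agent.Lib.MP_058a58_ag.MT.P.PB

set_option autoImplicit false

/-!
# Twists by modular forms: all pieces together
-/

open Polynomial Filter Topology UpperHalfPlane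
open scoped MatrixGroups

namespace Pool.Agent.Lib.MP_058a58_ag.MT

theorem r_MAIN : R_MAIN :=
  p_MAIN r_LSP glue_AU (p_CO p_PB r_SM p_CO1 p_CO2) (p_HT p_SI) p_VOL

theorem r_MS : R_MS := p_MS p_PV

theorem r_CMP : R_CMP := p_CMP (p_HT p_SI) (p_FC p_SI p_PV) (p_G1 (p_HT p_SI)) r_MS

theorem r_DBE : R_DBE :=
  p_DBE r_MAIN p_PW p_UP p_HI (p_OR p_WN1 p_WN2 glue_AU p_VOL p_HI p_UP) r_CMP r_MS p_HR

theorem r_DBL : R_DBL := p_DBL r_MAIN p_PW p_HL r_CMP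

theorem r_DG : R_DG := p_DG r_MS

theorem r_HB : R_HB := p_HB p_PV

theorem r_GR : R_GR := p_GRF r_DBE r_DBL r_DG r_HB (p_EPF p_F1 p_F2 p_F3 p_EPA)

theorem fin : S_FIN := fin_of r_GR p_BS3 p_LGF glue_MF p_F3 r_HB r_DG

theorem fin2 : S_FIN2 := fin2_of r_GR p_BS3 p_LGF p_LGN glue_MF p_F3 r_HB r_DG

end Pool.Agent.Lib.MP_058a58_ag.MT

namespace TatePole

open Pool.Agent.Lib.MP_058a58_ag.MT

section

variable {ℓ : ℕ} [Fact ℓ.Prime] [Algebra ℚ_[ℓ] ℂ] {W : Type} [AddCommGroup W]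
    [Module ℚ_[ℓ] W] [FiniteDimensional ℚ_[ℓ] W] (ρ : Representation ℚ_[ℓ] GQ W) (w : ℤ)
    (S : Finset ℕ) (P : ℕ → ℂ[X])
    (hP : ∀ p : ℕ, p.Prime → p ∉ S → IsWeightFactor ρ (algebraMap ℚ_[ℓ] ℂ) w p (P p))
    {J : Type} [Fintype J] (M k : J → ℕ) (hM : ∀ i, 1 ≤ M i) (hk : ∀ i, 2 ≤ k i)
    (f : ∀ i, CuspForm (CongruenceSubgroup.Gamma0 (M i) : Subgroup (GL (Fin 2) ℝ)) (k i))
    (a : J → ℕ → ℝ) (hf : ∀ i, IsHeckeForm (M i) (k i) (f i) (a i))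
    (hne : ∀ i j, i ≠ j → k i ≠ k j ∨ ∃ p : ℕ, p.Prime ∧ ¬ p ∣ M i * M j ∧ a i p ≠ a j p)
    (Q : J → ℕ → ℂ[X]) (hQ : ∀ i, ModFactors w S P (M i) (k i) (a i) (Q i))

include hP hM hk hf hne hQ

/-- If the orders `n i` of the `L(W ⊗ f i, s)` at the edge exist, the sum of the squares of the
negative ones, and that of the positive ones, is at most `(dim W)²`. -/
theorem mod_orders_le (n : J → ℤ) (hn : ∀ i, HasModOrder w (k i) (Q i) (n i)) :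
    ∑ i, (max 0 (-n i)) ^ 2 ≤ (Module.finrank ℚ_[ℓ] W : ℤ) ^ 2 ∧
    ∑ i, (max 0 (n i)) ^ 2 ≤ (Module.finrank ℚ_[ℓ] W : ℤ) ^ 2 :=
  orders_of_fin fin ρ w S P hP M k hM hk f a hf hne Q hQ n hn

/-- If the orders of the `L(W ⊗ f i, s)` at the edge exist, at most `2 (dim W)²` of them are not
zero. -/
theorem mod_orders_card (n : J → ℤ) (hn : ∀ i, HasModOrder w (k i) (Q i) (n i)) :
    (Finset.univ.filter fun i => n i ≠ 0).card ≤ 2 * Module.finrank ℚ_[ℓ] W ^ 2 :=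
  card_orders_of_fin fin ρ w S P hP M k hM hk f a hf hne Q hQ n hn

/-- If moreover the order `b` of `L(W ⊗ W^∨, s)` at `1` exists, both sums are at most `-b`. -/
theorem mod_orders_rs (S' : Finset ℕ) (N : ℕ → ℂ[X])
    (hN : AdFactors ρ (algebraMap ℚ_[ℓ] ℂ) S' N) (n : J → ℤ)
    (hn : ∀ i, HasModOrder w (k i) (Q i) (n i)) (b : ℤ) (hb : HasAdOrder N b) :
    ∑ i, (max 0 (-n i)) ^ 2 ≤ -b ∧ ∑ i, (max 0 (n i)) ^ 2 ≤ -b :=
  orders_of_fin2 fin2 ρ w S P hP S' N hN M k hM hk f a hf hne Q hQ n hn b hb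

end

end TatePole
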