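import Pool.Agent.Lib.MP_058a58_ag.MT.FDefs2
import Pool.Agent.Lib.MP_058a58_ag.AT.StmRS
import Pool.Agent.Lib.MP_058a58_ag.CycRank

set_option autoImplicit false

/-!
# Twists by modular forms: the modular part of `W`
-/

open Polynomial Filter Topology
open scoped TensorProduct

namespace TatePole

/-- For almost all primes `p` the trace of the geometric Frobenius elements at `p` on the stable
subspace `B` of `W` is `∑ r_i a_i(p) p^((w+1-k_i)/2)`, as for the direct sum of `r_i` copies of (a Tate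
twist of) the two-dimensional representation of the modular form `f_i`, of weight `k_i` and with the
eigenvalues `a_i(p)`. -/
def HasModTraces {ℓ : ℕ} [Fact ℓ.Prime] {W : Type*} [AddCommGroup W]
    [Module ℚ_[ℓ] W] [FiniteDimensional ℚ_[ℓ] W] (ρ : Representation ℚ_[ℓ] GQ W)
    (ι : ℚ_[ℓ] →+* ℂ) (w : ℤ) (B : Submodule ℚ_[ℓ] W) (hB : ∀ g : GQ, ∀ v ∈ B, ρ g v ∈ B)
    {J : Type*} [Fintype J] (k : J → ℕ) (a : J → ℕ → ℝ) (r : J → ℝ) : Prop :=
  ∃ S₂ : Finset ℕ, ∀ p : ℕ, p.Prime → p ∉ S₂ →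
    ∀ 𝔓 : Ideal ZBar, 𝔓.IsPrime → (p : ZBar) ∈ 𝔓 → ∀ σ : GQ, IsArithFrob p 𝔓 σ →
      ι (LinearMap.trace ℚ_[ℓ] B (resRep ρ B hB σ⁻¹)) =
        ∑ i, (r i : ℂ) * (a i p : ℂ) * (p : ℂ) ^ (((w : ℂ) + 1 - k i) / 2)

end TatePole
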