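import Pool.Agent.Lib.MP_058a58_ag.MT.DStm2
import Pool.Agent.Lib.MP_058a58_ag.MT.FDefs3

set_option autoImplicit false

/-!
# Defect form: statements of the pieces on the final inequality
-/

open Polynomial Filter Topology UpperHalfPlane
open scoped MatrixGroups TensorProduct
open TatePole (RR)

namespace Pool.Agent.Lib.MP_058a58_ag.MT

/-- **BS4.** The two-sided Bessel inequality. Proof. `L = log (1/(x-1)) → ∞`. Near `x = 1`, with `o(L)` uniform over the finite set `J`: `RR(A θ_i) = RR(A' θ_i) + ∑_j r_j RR(θ_j θ_i) + O(1)` (finitely many primes are exceptional; `A θ_i` etc. are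
summable for `1 < x ≤ 2`, as `2 |A θ_i| ≤ A² + θ_i²`), so `d_i = Y_i - r_i L = RR(A' θ_i) + o(L)`. Let `n² = ∑ d_i²`, `F = ∑ d_i θ_i` (the `d_i` are numbers, for fixed `x`). `RR(A' F) = ∑ d_i RR(A' θ_i) = n² + o(L) n`,
`RR(F²) = ∑ d_i d_j RR(θ_i θ_j) = n² (L + o(L))`, `A' F ≤ (L/2) A'² + F²/(2L)` gives `n² + o(L) n ≤ (L/2) RR(A'²) + n²/2 + o(1) n²`. As `0 ≤ RR(A'²) ≤ D'² RR 1 ≤ D'² (L + C)` (`TatePole.hasMean_one`), first `n = O(L)`, and then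
`n² ≤ L RR(A'²) + o(L²)`. -/
def S_BS4 : Prop := ∀ (J : Type) [Fintype J] [DecidableEq J] (A A' : ℕ → ℝ) (D D' : ℝ)
  (θ : J → ℕ → ℝ) (r : J → ℝ) (Y : J → ℝ → ℝ), 0 ≤ D → 0 ≤ D' → (∀ p : ℕ, p.Prime → |A p| ≤ D) →
  (∀ p : ℕ, p.Prime → |A' p| ≤ D') →
  (∃ S₂ : Finset ℕ, ∀ p : ℕ, p.Prime → p ∉ S₂ → A p = A' p + ∑ j, r j * θ j p) →
  (∀ i, ∀ x : ℝ, 1 < x → x ≤ 2 → Summable (fun p : Nat.Primes => θ i p ^ 2 * (p : ℝ) ^ (-x))) →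
  (∀ i j, ∀ η : ℝ, 0 < η → ∀ᶠ x in 𝓝[>] (1 : ℝ),
    |RR (fun p => θ i p * θ j p) x - (if i = j then Real.log (1 / (x - 1)) else 0)| ≤
      η * Real.log (1 / (x - 1))) →
  (∀ i, ∃ C : ℝ, ∀ᶠ x in 𝓝[>] (1 : ℝ), |Y i x - RR (fun p => A p * θ i p) x| ≤ C) →
  ∀ ε : ℝ, 0 < ε → (∀ᶠ x in 𝓝[>] (1 : ℝ),
    ∑ i, (Y i x - r i * Real.log (1 / (x - 1))) ^ 2 ≤
      (RR (fun p => A' p ^ 2) x + ε * Real.log (1 / (x - 1))) * Real.log (1 / (x - 1))) ∧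
  ∀ᶠ x in 𝓝[>] (1 : ℝ), RR (fun p => A' p ^ 2) x ≤ (D' ^ 2 + ε) * Real.log (1 / (x - 1))

/-- **LGT.** The logarithm of the `L`-function of `T ⊗ T^∨`, `T = W / B`. Proof. As `P/LGN.lean`, for the quotient: choose for every prime `p` a prime ideal `𝔓` over `p` and a Frobenius element `σ_p` (`exists_prime_over`,
`exists_arithFrob`), and put `A' p = Re(ι tr(quoRep σ_p⁻¹) p^(-w/2))` for `p ∉ S`, `0` for `p ∈ S`. For `p ∉ S`: `Aw w S P p = Re(ι tr(ρ σ_p⁻¹) p^(-w/2))` (`LGN_weight`: the linear coefficient of `P p`), and the trace of `W` is that of `B` plus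
that of `T` (`trace_quoRep` in `AT/RSLog.lean`). The eigenvalues on `T` of `σ_p⁻¹` are among those on `W`, so they have absolute value `p^(w/2)` (as in `quo_root_norm`), which gives `|A' p| ≤ dim T`. For
`p ∉ S ∪ S'` the linear coefficient of `N p` (the local factor of `adRep (quoRep ρ B hB)`) is `-|tr(quoRep σ_p⁻¹)|² p^(-w)` (`LGN_key`, `LGN_trace_ad` for `quoRep`, `LGN_trace_inv'`). The rest is as in `p_LGN` with `quoRep` in place of `ρ`. -/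
def S_LGT : Prop := ∀ (ℓ : ℕ) [Fact ℓ.Prime] [Algebra ℚ_[ℓ] ℂ] (W : Type) [AddCommGroup W]
    [Module ℚ_[ℓ] W] [FiniteDimensional ℚ_[ℓ] W] (ρ : Representation ℚ_[ℓ] TatePole.GQ W) (w : ℤ)
    (S : Finset ℕ) (P : ℕ → ℂ[X]),
  (∀ p : ℕ, p.Prime → p ∉ S → TatePole.IsWeightFactor ρ (algebraMap ℚ_[ℓ] ℂ) w p (P p)) →
  ∀ (B : Submodule ℚ_[ℓ] W) (hB : ∀ g : TatePole.GQ, ∀ v ∈ B, ρ g v ∈ B)
    (S' : Finset ℕ) (N : ℕ → ℂ[X]),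
  TatePole.AdFactors (TatePole.quoRep ρ B hB) (algebraMap ℚ_[ℓ] ℂ) S' N →
  ∃ A' : ℕ → ℝ, (∀ p : ℕ, p.Prime → |A' p| ≤ Module.finrank ℚ_[ℓ] (W ⧸ B)) ∧
    (∀ p : ℕ, p.Prime → p ∉ S → ∃ 𝔓 : Ideal TatePole.ZBar, 𝔓.IsPrime ∧ (p : TatePole.ZBar) ∈ 𝔓 ∧
      ∃ σ : TatePole.GQ, TatePole.IsArithFrob p 𝔓 σ ∧
        Aw w S P p = A' p + (algebraMap ℚ_[ℓ] ℂ (LinearMap.trace ℚ_[ℓ] B
          (TatePole.resRep ρ B hB σ⁻¹)) * (p : ℂ) ^ (-(w : ℂ) / 2)).re) ∧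
    (∃ C : ℝ, ∀ᶠ x in 𝓝[>] (1 : ℝ),
      RR (fun p => A' p ^ 2) x ≤ Real.log ‖TatePole.LFun N 0 (x : ℝ)‖ + C) ∧
    ∃ C : ℝ, ∀ᶠ x in 𝓝[>] (1 : ℝ), Real.log ‖TatePole.LFun N 0 (x : ℝ)‖ ≤
      (Module.finrank ℚ_[ℓ] (W ⧸ B) : ℝ) ^ 2 * Real.log (1 / (x - 1)) + C

/-- **FIN4.** The final theorem, the defect form. -/
def S_FIN4 : Prop := ∀ (ℓ : ℕ) [Fact ℓ.Prime] [Algebra ℚ_[ℓ] ℂ] (W : Type) [AddCommGroup W]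
    [Module ℚ_[ℓ] W] [FiniteDimensional ℚ_[ℓ] W] (ρ : Representation ℚ_[ℓ] TatePole.GQ W) (w : ℤ)
    (S : Finset ℕ) (P : ℕ → ℂ[X]),
  (∀ p : ℕ, p.Prime → p ∉ S → TatePole.IsWeightFactor ρ (algebraMap ℚ_[ℓ] ℂ) w p (P p)) →
  ∀ (J : Type) [Fintype J] (M k : J → ℕ), (∀ i, 1 ≤ M i) → (∀ i, 2 ≤ k i) →
  ∀ (f : ∀ i, CuspForm (CongruenceSubgroup.Gamma0 (M i) : Subgroup (GL (Fin 2) ℝ)) (k i))
    (a : J → ℕ → ℝ), (∀ i, TatePole.IsHeckeForm (M i) (k i) (f i) (a i)) →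
  (∀ i j, i ≠ j → k i ≠ k j ∨ ∃ p : ℕ, p.Prime ∧ ¬ p ∣ M i * M j ∧ a i p ≠ a j p) →
  ∀ Q : J → ℕ → ℂ[X], (∀ i, TatePole.ModFactors w S P (M i) (k i) (a i) (Q i)) →
  ∀ (B : Submodule ℚ_[ℓ] W) (hB : ∀ g : TatePole.GQ, ∀ v ∈ B, ρ g v ∈ B) (r : J → ℝ),
  TatePole.HasModTraces ρ (algebraMap ℚ_[ℓ] ℂ) w B hB k a r →
  ∀ (S' : Finset ℕ) (N : ℕ → ℂ[X]),
  TatePole.AdFactors (TatePole.quoRep ρ B hB) (algebraMap ℚ_[ℓ] ℂ) S' N →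
  ∀ ε : ℝ, 0 < ε → ∃ δ : ℝ, 0 < δ ∧ ∀ t : ℝ, 0 < t → t < δ →
    ∑ i, (TatePole.logMod w (k i) (Q i) t - r i * Real.log (1 / t)) ^ 2 ≤
      (Real.log ‖TatePole.LFun N 0 ((1 + t : ℝ) : ℂ)‖ + ε * Real.log (1 / t)) * Real.log (1 / t) ∧
    Real.log ‖TatePole.LFun N 0 ((1 + t : ℝ) : ℂ)‖ ≤
      (((Module.finrank ℚ_[ℓ] W : ℝ) - Module.finrank ℚ_[ℓ] B) ^ 2 + ε) * Real.log (1 / t)

end Pool.Agent.Lib.MP_058a58_ag.MT
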