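import Pool.Agent.Lib.MP_058a58_ag.MT.Asm3
import Pool.Agent.Lib.MP_058a58_ag.MT.DStm3

set_option autoImplicit false

/-!
# Defect form: the assembly
-/

open Polynomial Filter Topology UpperHalfPlane
open scoped MatrixGroups

namespace Pool.Agent.Lib.MP_058a58_ag.MT

/-- The two-sided Gram matrix of a family of forms. -/
theorem gram_eq2 {J : Type} (gm : R_GM2) (N k : J → ℕ) (hN : ∀ i, 1 ≤ N i) (hk : ∀ i, 2 ≤ k i)
    (f : J → ℍ → ℂ) (a : J → ℕ → ℝ) (hf : ∀ i, IsForm (N i) (k i) (f i) (a i))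
    (ha : ∀ i, HeckeSeq (N i) (k i) (a i)) [DecidableEq J]
    (hne : ∀ i j, i ≠ j → k i ≠ k j ∨ ∃ p : ℕ, p.Prime ∧ ¬ p ∣ N i * N j ∧ a i p ≠ a j p) (i j : J)
    (η : ℝ) (hη : 0 < η) :
    ∀ᶠ x in 𝓝[>] (1 : ℝ),
      |TatePole.RR (fun p => th (N i) (k i) (a i) p * th (N j) (k j) (a j) p) x -
        (if i = j then Real.log (1 / (x - 1)) else 0)| ≤ η * Real.log (1 / (x - 1)) := by
  have hp : Pair (N i) (N j) (k i) (k j) (f i) (f j) (a i) (a j) :=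
    ⟨hN i, hN j, hk i, hk j, hf i, hf j, ha i, ha j⟩
  obtain ⟨h1, h2⟩ := gm _ _ _ _ _ _ _ _ hp η hη
  by_cases hij : i = j
  · subst hij
    simpa using h1
  · simpa [hij] using h2 (hne i j hij)

/-- The normalised traces on the modular part. -/
theorem trace_norm {J : Type} [Fintype J] (w : ℤ) (M k : J → ℕ) (a : J → ℕ → ℝ) (r : J → ℝ)
    {p : ℕ} (hp : p.Prime) (hM : ∀ i, ¬ p ∣ M i) :
    ((∑ i, (r i : ℂ) * (a i p : ℂ) * (p : ℂ) ^ (((w : ℂ) + 1 - k i) / 2)) *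
      (p : ℂ) ^ (-(w : ℂ) / 2)).re = ∑ i, r i * th (M i) (k i) (a i) p := by
  have hp0 : (p : ℂ) ≠ 0 := by exact_mod_cast hp.ne_zero
  have hpr : (0 : ℝ) ≤ p := Nat.cast_nonneg p
  rw [Finset.sum_mul, Complex.re_sum]
  refine Finset.sum_congr rfl fun i _ => ?_
  have h1 : (p : ℂ) ^ (((w : ℂ) + 1 - k i) / 2) * (p : ℂ) ^ (-(w : ℂ) / 2) =
      (((p : ℝ) ^ (-(((k i : ℝ) - 1) / 2)) : ℝ) : ℂ) := by
    rw [← Complex.cpow_add _ _ hp0, Complex.ofReal_cpow hpr, Complex.ofReal_natCast]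
    congr 1
    push_cast
    ring
  rw [mul_assoc, h1, th, if_neg (hM i), lam, Real.rpow_neg hpr, ← Complex.ofReal_mul,
    ← Complex.ofReal_mul, Complex.ofReal_re, mul_assoc, ← div_eq_mul_inv]

theorem fin4_of (gm : R_GM2) (bs : S_BS4) (lgf : S_LGF) (lgt : S_LGT) (mf : S_MF) (f3 : S_F3)
    (hb : R_HB) (dg : R_DG) : S_FIN4 := by
  classical
  intro ℓ _ _ W _ _ _ ρ w S P hP J _ M k hM hk f a hf hne Q hQ B hB r hr S' N hN ε hε
  obtain ⟨hA, hL⟩ := lgf ℓ W ρ w S P hP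
  have hmf : ∀ i, IsForm (M i) (k i) (f i) (a i) ∧ HeckeSeq (M i) (k i) (a i) := fun i =>
    mf (M i) (k i) (f i) (a i) (hM i) (hf i)
  have hgram := fun i j η hη => gram_eq2 gm M k hM hk (fun i => ⇑(f i)) a (fun i => (hmf i).1)
    (fun i => (hmf i).2) hne i j η hη
  have hsq : ∀ i, ∀ x : ℝ, 1 < x → x ≤ 2 →
      Summable (fun n : ℕ => lam (k i) (a i) n ^ 2 * (n : ℝ) ^ (-x)) := fun i x h1 h2 =>
    sqsum dg (hM i) (hk i) (hmf i).1 (hmf i).2 x h1 h2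
  have hsat : ∀ i, ∀ p : ℕ, p.Prime → ¬ p ∣ M i →
      ∃ α : ℂ, Sat (lam (k i) (a i) p) (Real.sqrt p) α := fun i p hp hpM =>
    (((f3 (M i) (k i) (a i) (hk i) (hmf i).2 (hb _ _ _ (hmf i).1.toIsQ)).2 p hp).1 hpM).1
  have hlog : ∀ i, ∃ C : ℝ, ∀ᶠ x in 𝓝[>] (1 : ℝ),
      |TatePole.logMod w (k i) (Q i) (x - 1) -
        TatePole.RR (fun p => Aw w S P p * th (M i) (k i) (a i) p) x| ≤ C :=
    fun i => hL (M i) (k i) (a i) (Q i) (hM i) (hk i) (hsat i) (hsq i) (hQ i)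
  have hsp : ∀ i, ∀ x : ℝ, 1 < x → x ≤ 2 →
      Summable (fun p : Nat.Primes => th (M i) (k i) (a i) p ^ 2 * (p : ℝ) ^ (-x)) :=
    fun i x h1 h2 => sqsum_primes (hsq i x h1 h2)
  obtain ⟨A', hA', hdec, ⟨C1, hC1⟩, C2, hC2⟩ := lgt ℓ W ρ w S P hP B hB S' N hN
  obtain ⟨S₂, hS₂⟩ := hr
  have hdec' : ∃ S₃ : Finset ℕ, ∀ p : ℕ, p.Prime → p ∉ S₃ →
      Aw w S P p = A' p + ∑ i, r i * th (M i) (k i) (a i) p := by
    refine ⟨S ∪ S₂ ∪ Finset.univ.biUnion (fun i => (M i).primeFactors), fun p hp hpS => ?_⟩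
    rw [Finset.mem_union, Finset.mem_union, not_or, not_or] at hpS
    obtain ⟨⟨h1, h2⟩, h3⟩ := hpS
    have h4 : ∀ i, ¬ p ∣ M i := by
      intro i h5
      refine h3 (Finset.mem_biUnion.2 ⟨i, Finset.mem_univ i, ?_⟩)
      have h6 : M i ≠ 0 := by have := hM i; omega
      exact Nat.mem_primeFactors.2 ⟨hp, h5, h6⟩
    obtain ⟨𝔓, h𝔓, hp𝔓, σ, hσ, h5⟩ := hdec p hp h1
    rw [h5, hS₂ p hp h2 𝔓 h𝔓 hp𝔓 σ hσ, trace_norm w M k a r hp h4]
  obtain ⟨k1, k3⟩ := bs J (Aw w S P) A' (Module.finrank ℚ_[ℓ] W) (Module.finrank ℚ_[ℓ] (W ⧸ B))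
    (fun i => th (M i) (k i) (a i)) r
    (fun i x => TatePole.logMod w (k i) (Q i) (x - 1)) (by positivity) (by positivity) hA hA'
    hdec' hsp hgram hlog (ε / 2) (by positivity)
  have hdim : (Module.finrank ℚ_[ℓ] (W ⧸ B) : ℝ) =
      (Module.finrank ℚ_[ℓ] W : ℝ) - Module.finrank ℚ_[ℓ] B := by
    rw [eq_sub_iff_add_eq]
    exact_mod_cast Submodule.finrank_quotient_add_finrank B
  have hall : ∀ᶠ x in 𝓝[>] (1 : ℝ),
      ∑ i, (TatePole.logMod w (k i) (Q i) (x - 1) - r i * Real.log (1 / (x - 1))) ^ 2 ≤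
        (Real.log ‖TatePole.LFun N 0 ((1 + (x - 1) : ℝ) : ℂ)‖ + ε * Real.log (1 / (x - 1))) *
          Real.log (1 / (x - 1)) ∧
      Real.log ‖TatePole.LFun N 0 ((1 + (x - 1) : ℝ) : ℂ)‖ ≤
        (((Module.finrank ℚ_[ℓ] W : ℝ) - Module.finrank ℚ_[ℓ] B) ^ 2 + ε) *
          Real.log (1 / (x - 1)) := by
    filter_upwards [k1, hC1, hC2, log_large 0, log_large (C1 / (ε / 2)), log_large (C2 / ε)] with
      x h1 h3 h4 h5 h6 h7
    rw [add_sub_cancel, ← hdim]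
    set L := Real.log (1 / (x - 1))
    have h8 : C1 ≤ ε / 2 * L := by
      rw [div_le_iff₀ (by positivity)] at h6
      linarith
    have h9 : C2 ≤ ε * L := by
      rw [div_le_iff₀ hε] at h7
      linarith
    have h10 : (TatePole.RR (fun p => A' p ^ 2) x + ε / 2 * L) * L ≤
        (Real.log ‖TatePole.LFun N 0 (x : ℝ)‖ + ε * L) * L :=
      mul_le_mul_of_nonneg_right (by linarith) h5
    exact ⟨h1.trans h10, by linarith⟩
  exact to_delta (p := fun t =>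
    ∑ i, (TatePole.logMod w (k i) (Q i) t - r i * Real.log (1 / t)) ^ 2 ≤
      (Real.log ‖TatePole.LFun N 0 ((1 + t : ℝ) : ℂ)‖ + ε * Real.log (1 / t)) * Real.log (1 / t) ∧
    Real.log ‖TatePole.LFun N 0 ((1 + t : ℝ) : ℂ)‖ ≤
      (((Module.finrank ℚ_[ℓ] W : ℝ) - Module.finrank ℚ_[ℓ] B) ^ 2 + ε) * Real.log (1 / t)) hall

/-- The coefficients of a form are an `ESeq`. -/
theorem es_of (f3 : S_F3) (hb : R_HB) (dg : R_DG) : R_ES := by
  intro N k f a hN hk hf ha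
  obtain ⟨⟨h0, h1, hm⟩, hp⟩ := f3 N k a hk ha (hb _ _ _ hf.toIsQ)
  refine ⟨hN, h1, h0, hm, fun p hpp hpN => ((hp p hpp).1 hpN).1,
    fun p hpp hpN => ((hp p hpp).1 hpN).2, fun p hpp hpN => (hp p hpp).2 hpN, fun s hs => ?_⟩
  by_cases h2 : s ≤ 2
  · exact sqsum dg hN hk hf ha s hs h2
  · have h3 := sqsum dg hN hk hf ha 2 (by norm_num) le_rfl
    refine Summable.of_nonneg_of_le (fun n => by positivity) (fun n => ?_) h3
    refine mul_le_mul_of_nonneg_left ?_ (sq_nonneg _)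
    rcases Nat.eq_zero_or_pos n with h4 | h4
    · subst h4
      rw [Nat.cast_zero, Real.zero_rpow (by linarith), Real.zero_rpow (by norm_num)]
    · exact Real.rpow_le_rpow_of_exponent_le (by exact_mod_cast h4) (by linarith)

theorem msq_of (gr : R_GR) : R_MSQ := by
  intro N k f a hN hk hf ha
  exact (gr N N k k f f a a ⟨hN, hN, hk, hk, hf, hf, ha, ha⟩).1

theorem DDc_comm (k k' : ℕ) (a b : ℕ → ℝ) (s : ℂ) : DDc k k' a b s = DDc k' k b a s := by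
  unfold DDc
  refine tsum_congr fun n => ?_
  rw [mul_comm (lam k a n)]

/-- Different forms: equal or different weights. -/
theorem cno_of
    (cnl : ∀ (N N' k' l : ℕ) (f g : ℍ → ℂ) (a b : ℕ → ℝ),
      Pair N N' (k' + l) k' f g a b → 1 ≤ l → ∃ (M : ℕ) (H : ℂ → ℂ), 1 ≤ M ∧
        DifferentiableOn ℂ H HP ∧ ∀ s : ℂ, 1 < s.re → H s = zM M (2 * s) * DDc (k' + l) k' a b s)
    (cne : ∀ (N N' k : ℕ) (f g : ℍ → ℂ) (a b : ℕ → ℝ), Pair N N' k k f g a b →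
      (∃ p : ℕ, p.Prime ∧ ¬ p ∣ N * N' ∧ a p ≠ b p) →
      ∃ (M : ℕ) (H : ℂ → ℂ), 1 ≤ M ∧ DifferentiableOn ℂ H HP ∧
        ∀ s : ℂ, 1 < s.re → H s = zM M (2 * s) * DDc k k a b s) : R_CNO := by
  intro N N' k k' f g a b hp hne
  rcases lt_trichotomy k k' with h | h | h
  · obtain ⟨l, rfl⟩ := Nat.exists_eq_add_of_lt h
    obtain ⟨M, H, hM, hH, hs⟩ := cnl N' N k (l + 1) g f b a
      ⟨hp.hN', hp.hN, hp.hk', hp.hk, hp.hg, hp.hf, hp.hb, hp.ha⟩ (by omega)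
    refine ⟨M, H, hM, hH, fun s h1 => ?_⟩
    rw [hs s h1, DDc_comm]
    rfl
  · subst h
    refine cne N N' k f g a b hp ?_
    rcases hne with h1 | h1
    · exact absurd rfl h1
    · exact h1
  · obtain ⟨l, rfl⟩ := Nat.exists_eq_add_of_lt h
    exact cnl N N' k' (l + 1) f g a b hp (by omega)

end Pool.Agent.Lib.MP_058a58_ag.MT
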