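import Pool.Agent.Lib.MP_058a58_ag.MT.DDefs

set_option autoImplicit false

/-!
# Defect form: statements of the pieces on lattice sums, unfolding and Mellin transforms

Every statement `S_x` has a complete proof in words; `R_x` is the conclusion of `S_x`. The pieces are
variants of those in `MT/Stm.lean`, with the theta sum `Th` instead of `Zs`. Overview: for `z` in a
translate of the fundamental domain and `0 < T ≤ 1` the sum `Th M l T z` is `κ / T` (`0` if `l ≠ 0`) plus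
`O(T ^ (-1/4) y ^ (3/4))` (GL). Unfolding (GCO, GHT, GM): `∫_strip F ug = (κ / T) ∫ w F + O(T ^ (-1/4))`. By FC the left side is
`Ph (T) = ∑ a(n) b(n) IG(n)`, and its Mellin transform is `Γ Γ ζ_M(2s) ∑ a b n ^ (-(s+K-1))` (IGM, MEL). So the latter
continues to `Re s > 1/4` (CON0, CONT).
-/

open UpperHalfPlane MeasureTheory Filter Topology
open scoped MatrixGroups Modular ComplexConjugate

namespace Pool.Agent.Lib.MP_058a58_ag.MT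

/-! ### Lattice sums -/

/-- **EM2.** Comparison of a sum with an integral, second order. Proof. Let `c = r + M n` and
`I_n = (c - M/2, c + M/2]`; the `I_n` are a partition of `ℝ` (`iUnion_Ioc_add_zsmul`, as in `em_core` in `P/Lat1.lean`). As
`∫_{I_n} (x - c) dx = 0`, `∫_{I_n} g - M g(c) = ∫_{I_n} (g x - g c - (x - c) g' c) dx`. For `x ∈ I_n`: `g x - g c - (x - c) g' c` is the
integral of `g' u - g' c` over `u` between `c` and `x`, and `‖g' u - g' c‖ ≤ ∫_{I_n} ‖g''‖`; so its norm is at most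
`(M/2) ∫_{I_n} ‖g''‖`. Hence `‖∫_{I_n} g - M g(c)‖ ≤ M (M/2) ∫_{I_n} ‖g''‖`; sum over `n` (`hasSum_integral_iUnion`).
Summability: as in `em_core`. -/
def S_EM2 : Prop := ∀ (M r : ℝ) (g g' g'' : ℝ → ℂ), 0 < M → (∀ x, HasDerivAt g (g' x) x) →
  (∀ x, HasDerivAt g' (g'' x) x) → Integrable g → Integrable g'' →
  Summable (fun n : ℤ => g (r + M * n)) ∧
    ‖(M : ℂ) * ∑' n : ℤ, g (r + M * n) - ∫ x, g x‖ ≤ M ^ 2 * ∫ x, ‖g'' x‖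

/-- **GPD.** Partial derivatives of the Gaussian function. Proof. `g(ξ, η) = v^l exp(-π (ξ² + η²))`, `v = ξ + η i`. All the partial
derivatives of order at most two are `q(ξ, η) exp(-π (ξ² + η²))` with a polynomial `q` (`∂_ξ v^l = l v^(l-1)`,
`∂_ξ exp = -2π ξ exp`; `∂_η v^l = l i v^(l-1)`), so `|q| ≤ C (1 + ξ² + η²)^(l+2) ≤ C' exp(ξ² + η²)`, and `π ≥ 2`. -/
def S_GPD : Prop := ∀ l : ℕ, ∃ (C : ℝ) (gx gxx gy gyy : ℝ → ℝ → ℂ), 0 ≤ C ∧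
  (∀ ξ η : ℝ, HasDerivAt (fun t : ℝ => gl l (t + η * Complex.I)) (gx ξ η) ξ ∧
    HasDerivAt (fun t : ℝ => gx t η) (gxx ξ η) ξ ∧
    HasDerivAt (fun t : ℝ => gl l (ξ + t * Complex.I)) (gy ξ η) η ∧
    HasDerivAt (fun t : ℝ => gy ξ t) (gyy ξ η) η) ∧
  Continuous (fun q : ℝ × ℝ => gx q.1 q.2) ∧ Continuous (fun q : ℝ × ℝ => gxx q.1 q.2) ∧
  Continuous (fun q : ℝ × ℝ => gy q.1 q.2) ∧ Continuous (fun q : ℝ × ℝ => gyy q.1 q.2) ∧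
  ∀ ξ η : ℝ, ‖gl l (ξ + η * Complex.I)‖ ≤ C * Real.exp (-ξ ^ 2) * Real.exp (-η ^ 2) ∧
    ‖gx ξ η‖ ≤ C * Real.exp (-ξ ^ 2) * Real.exp (-η ^ 2) ∧
    ‖gxx ξ η‖ ≤ C * Real.exp (-ξ ^ 2) * Real.exp (-η ^ 2) ∧
    ‖gy ξ η‖ ≤ C * Real.exp (-ξ ^ 2) * Real.exp (-η ^ 2) ∧
    ‖gyy ξ η‖ ≤ C * Real.exp (-ξ ^ 2) * Real.exp (-η ^ 2)

/-- **GJ.** The integral of the Gaussian function. Proof. `l = 0`: `integral_gaussian` twice (`exp(-π (ξ² + η²))` is the product, and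
`∫ exp(-π ξ²) dξ = 1`). `l ≥ 1`: rotation by `exp(iπ/l)`, exactly as `dbl_zero` in `P/Lat2.lean`. -/
def S_GJ : Prop := ∀ l : ℕ,
  ∫ η : ℝ, ∫ ξ : ℝ, gl l (ξ + η * Complex.I) = if l = 0 then 1 else 0

/-- **GRW.** The lattice lemma: `A, B > 0` are the two scales. Proof. Write `c = r₁ + M m₁`, `d = r₂ + M m₂`. Summability: the norm is at
most `C e^(-(A (c x + d))²) e^(-(c B)²)`, the sum over `d` is at most `C'` (uniformly in `c`; EM for `e^(-(A t)²)`), and the sum over `c` converges.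
Let `Ψ(η) = ∫ gl l (ξ + η i) dξ`; `Ψ' = ∫ gy dξ`, `Ψ'' = ∫ gyy dξ` (derivative under the integral sign), and `|Ψ|`, `|Ψ'|`, `|Ψ''|` are at most
`C √π e^(-η²)`. ROWS: for fixed `c`, EM2 for `t ↦ gl l (A (c x + t) + c B i)`, whose second derivative is `A² gxx`: `M ∑_d = A⁻¹ Ψ(c B) + e_c`,
`‖e_c‖ ≤ M² A ∫ ‖gxx(ξ, c B)‖ dξ ≤ M² A C √π e^(-(c B)²)`. COLUMN: EM and EM2 for `t ↦ Ψ(t B)`: `‖M ∑_c Ψ(c B) - B⁻¹ ∫ Ψ‖` is at most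
`M ∫ ‖Ψ'‖` and at most `M² B ∫ ‖Ψ''‖`. And `M ∑_c e^(-(c B)²) ≤ √π / B + 2 M` (EM, the integral of the absolute value of the derivative of `e^(-t²)` is `2`).
Together: `‖M² ∑ - (A B)⁻¹ ∫ Ψ‖ ≤ C (A + A / B + A⁻¹ min 1 B)`. -/
def S_GRW : Prop := S_EM → S_EM2 → S_GPD → ∀ M l : ℕ, 1 ≤ M → ∃ C : ℝ, 0 ≤ C ∧
  ∀ (A B x r₁ r₂ : ℝ), 0 < A → 0 < B →
    Summable (fun m : ℤ × ℤ => gl l (((A * ((r₁ + M * m.1) * x + (r₂ + M * m.2)) : ℝ) : ℂ) +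
      (((r₁ + M * m.1) * B : ℝ) : ℂ) * Complex.I)) ∧
    ‖(M : ℂ) ^ 2 * (∑' m : ℤ × ℤ, gl l (((A * ((r₁ + M * m.1) * x + (r₂ + M * m.2)) : ℝ) : ℂ) +
      (((r₁ + M * m.1) * B : ℝ) : ℂ) * Complex.I)) -
      (((A * B)⁻¹ : ℝ) : ℂ) * ∫ η : ℝ, ∫ ξ : ℝ, gl l (ξ + η * Complex.I)‖ ≤
      C * (A + A / B + A⁻¹ * min 1 B)

/-- The conclusion of GRW. -/
def R_GRW : Prop := ∀ M l : ℕ, 1 ≤ M → ∃ C : ℝ, 0 ≤ C ∧
  ∀ (A B x r₁ r₂ : ℝ), 0 < A → 0 < B →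
    Summable (fun m : ℤ × ℤ => gl l (((A * ((r₁ + M * m.1) * x + (r₂ + M * m.2)) : ℝ) : ℂ) +
      (((r₁ + M * m.1) * B : ℝ) : ℂ) * Complex.I)) ∧
    ‖(M : ℂ) ^ 2 * (∑' m : ℤ × ℤ, gl l (((A * ((r₁ + M * m.1) * x + (r₂ + M * m.2)) : ℝ) : ℂ) +
      (((r₁ + M * m.1) * B : ℝ) : ℂ) * Complex.I)) -
      (((A * B)⁻¹ : ℝ) : ℂ) * ∫ η : ℝ, ∫ ξ : ℝ, gl l (ξ + η * Complex.I)‖ ≤
      C * (A + A / B + A⁻¹ * min 1 B)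

/-- **GL.** The theta sum on the translates of the fundamental domain. Proof. Exactly as `coset` and `piece_LAT` in `P/Lat2.lean`, with
`phi l s` replaced by `v ↦ gl l (√T v)` (`gl l (u v) = u^l gl l v` for `‖u‖ = 1`). On `𝒟`: `√T vz z c d = A (c x + d) + c B i` with `x = re z`, `y = im z`,
`A = √T/√y = √(T/y)`, `B = √T √y`, `A B = T`; `y ≥ √3/2` and `T ≤ 1`, so `A ≤ 2`, `A / B = 1/y ≤ 2`, `A⁻¹ min 1 B ≤ √(y/T) √B = y^(3/4) T^(-1/4)`, and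
`1 ≤ 2 y^(3/4) T^(-1/4)`. `κ = KK M / M²`, `KK M` the number of classes (at least `1`: the class of `(0, 1)`). -/
def S_GL : Prop := R_GRW → S_GJ → ∀ M l : ℕ, 1 ≤ M → ∃ κ C : ℝ, 0 < κ ∧ 0 ≤ C ∧
  ∀ T : ℝ, 0 < T → T ≤ 1 → ∀ (δ : SL(2, ℤ)) (z : ℍ), δ • z ∈ 𝒟 →
    ‖Th M l T z - ((if l = 0 then κ / T else 0 : ℝ) : ℂ)‖ ≤
      C * T ^ (-(1 / 4 : ℝ)) * (δ • z).im ^ (3 / 4 : ℝ)

/-- The conclusion of GL. -/
def R_GL : Prop := ∀ M l : ℕ, 1 ≤ M → ∃ κ C : ℝ, 0 < κ ∧ 0 ≤ C ∧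
  ∀ T : ℝ, 0 < T → T ≤ 1 → ∀ (δ : SL(2, ℤ)) (z : ℍ), δ • z ∈ 𝒟 →
    ‖Th M l T z - ((if l = 0 then κ / T else 0 : ℝ) : ℂ)‖ ≤
      C * T ^ (-(1 / 4 : ℝ)) * (δ • z).im ^ (3 / 4 : ℝ)

/-- **GSM.** Absolute convergence. Proof. As `p_SM` in `P/SM.lean`: `‖gl l u‖ = ‖u‖^l exp(-π ‖u‖²) ≤ C ‖u‖^(-4)` for `u ≠ 0`. -/
def S_GSM : Prop := ∀ (l : ℕ) (T : ℝ), 0 < T → ∀ z : ℍ,
  Summable (fun v : ℤ × ℤ => ‖gl l ((Real.sqrt T : ℂ) * vz z v.1 v.2)‖)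

/-! ### Unfolding -/

/-- **GCO.** Counting. Proof. As `p_CO` in `P/CO.lean`. For `γ ∈ Γ₀(M)` with bottom row `(c, d)`, `j = c z + d`, `v = vz z c d ≠ 0`:
`im (γ z) = ‖v‖^(-2)`, and `(j/|j|)^l * gr l (T n²/im (γ z)) = (v/‖v‖)^l * gr l (T n² ‖v‖²) = gl l (√T n v)`,
`n v = vz z (n c) (n d)`. CO1 and CO2 are proved (`p_CO1`, `p_CO2`). For CO2 take `H v = gl l (√T vz z v.1 v.2)` for `v ≠ (0, 0)` and `H (0, 0) = 0`; as `M ≥ 2`,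
`(0, 0)` does not satisfy `IsCoprime v.2 M`, so the value at `(0, 0)` does not matter on either side (GSM). -/
def S_GCO : Prop := S_GSM → S_CO1 → S_CO2 → ∀ (M l : ℕ) (T : ℝ), 2 ≤ M → 0 < T → ∀ F : ℍ → ℂ,
  (∀ γ ∈ CongruenceSubgroup.Gamma0 M, ∀ z : ℍ, F (γ • z) = (jf γ z / ‖jf γ z‖) ^ l * F z) →
  ∀ z : ℍ, ∑' γ : CongruenceSubgroup.Gamma0 M,
    strip.indicator (fun z => F z * (ug M l T z.im : ℂ)) ((γ : SL(2, ℤ)) • z) = F z * Th M l T z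

/-- The conclusion of GCO. -/
def R_GCO : Prop := ∀ (M l : ℕ) (T : ℝ), 2 ≤ M → 0 < T → ∀ F : ℍ → ℂ,
  (∀ γ ∈ CongruenceSubgroup.Gamma0 M, ∀ z : ℍ, F (γ • z) = (jf γ z / ‖jf γ z‖) ^ l * F z) →
  ∀ z : ℍ, ∑' γ : CongruenceSubgroup.Gamma0 M,
    strip.indicator (fun z => F z * (ug M l T z.im : ℂ)) ((γ : SL(2, ℤ)) • z) = F z * Th M l T z

/-- **GHT.** The function `ug`. Proof. `0 ≤ gr l x ≤ C x^(-1)` for `x > 0`, so the series converges absolutely. Joint measurability: each term is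
a measurable function of `(T, y)`; a limit of partial sums of measurable functions (the series converges for all `T > 0`, `y > 0`; restrict to that set, or
`Measurable.tsum`-like argument with `0` outside). To be on the safe side measurability is only claimed after multiplying with the indicator function of `T > 0`.
Integrals: substituting `w = T n²/y`, `∫_0^∞ gr(T n²/y) y^(-2) dy = (T n²)^(-1) ∫_0^∞ w^(l/2) e^(-π w) dw`; sum over `n`. The last part: SI, as in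
`P/HT.lean`. -/
def S_GHT : Prop := S_SI → ∀ (M l : ℕ), 1 ≤ M →
  Measurable (fun q : ℝ × ℝ => if 0 < q.1 then ug M l q.1 q.2 else 0) ∧
  ∀ T : ℝ, 0 < T → Measurable (ug M l T) ∧ (∀ y : ℝ, 0 ≤ ug M l T y) ∧
    (∀ y : ℝ, 0 < y → Summable (fun n : ℕ => if 1 ≤ n ∧ n.Coprime M then
      gr l (T * (n : ℝ) ^ 2 / y) else 0)) ∧
    IntegrableOn (fun y : ℝ => ug M l T y / y ^ 2) (Set.Ioi 0) ∧
    IntegrableOn (fun z : ℍ => ug M l T z.im) strip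

/-- The conclusion of GHT. -/
def R_GHT : Prop := ∀ (M l : ℕ), 1 ≤ M →
  Measurable (fun q : ℝ × ℝ => if 0 < q.1 then ug M l q.1 q.2 else 0) ∧
  ∀ T : ℝ, 0 < T → Measurable (ug M l T) ∧ (∀ y : ℝ, 0 ≤ ug M l T y) ∧
    (∀ y : ℝ, 0 < y → Summable (fun n : ℕ => if 1 ≤ n ∧ n.Coprime M then
      gr l (T * (n : ℝ) ^ 2 / y) else 0)) ∧
    IntegrableOn (fun y : ℝ => ug M l T y / y ^ 2) (Set.Ioi 0) ∧
    IntegrableOn (fun z : ℍ => ug M l T z.im) strip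

/-- **GVOL.** Proof. As `P/VOL.lean`, `∫ y^(3/4) y^(-2) dy` over `y ≥ 1/2` is finite. -/
def S_GVOL : Prop := IntegrableOn (fun z : ℍ => z.im ^ (3 / 4 : ℝ)) 𝒟

/-- **GM.** The unfolded integral. Proof. As `P/MAIN.lean`, with GL, GCO, GHT, GVOL in place of LSP, CO, HT, VOL:
`‖∫ w F (Th - κ/T)‖ ≤ ∑_{δ ∈ R} ∫ 1_{δ z ∈ 𝒟} C_F C T^(-1/4) (im (δ z))^(3/4)`. -/
def S_GM : Prop := R_GL → S_AU → R_GCO → R_GHT → S_GVOL → S_VOL →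
  ∀ (M l : ℕ) (R : Finset SL(2, ℤ)) (w : ℍ → ℝ) (F : ℍ → ℂ), 2 ≤ M → PWt M R w → Continuous F →
  (∃ C, ∀ z, ‖F z‖ ≤ C) →
  (∀ γ ∈ CongruenceSubgroup.Gamma0 M, ∀ z : ℍ, F (γ • z) = (jf γ z / ‖jf γ z‖) ^ l * F z) →
  ∃ κ C : ℝ, 0 < κ ∧ ∀ T : ℝ, 0 < T → T ≤ 1 →
    ‖(∫ z in strip, F z * (ug M l T z.im : ℂ)) -
      (if l = 0 then ((κ / T : ℝ) : ℂ) * ∫ z, (w z : ℂ) * F z else 0)‖ ≤ C * T ^ (-(1 / 4 : ℝ))

/-- The conclusion of GM. -/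
def R_GM : Prop := ∀ (M l : ℕ) (R : Finset SL(2, ℤ)) (w : ℍ → ℝ) (F : ℍ → ℂ), 2 ≤ M → PWt M R w →
  Continuous F → (∃ C, ∀ z, ‖F z‖ ≤ C) →
  (∀ γ ∈ CongruenceSubgroup.Gamma0 M, ∀ z : ℍ, F (γ • z) = (jf γ z / ‖jf γ z‖) ^ l * F z) →
  ∃ κ C : ℝ, 0 < κ ∧ ∀ T : ℝ, 0 < T → T ≤ 1 →
    ‖(∫ z in strip, F z * (ug M l T z.im : ℂ)) -
      (if l = 0 then ((κ / T : ℝ) : ℂ) * ∫ z, (w z : ℂ) * F z else 0)‖ ≤ C * T ^ (-(1 / 4 : ℝ))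

/-! ### Mellin transforms -/

/-- **IGB.** Bounds and measurability of the integrals `IG`. Proof. `IG K (ug M l T) n = ∫_0^∞ e^(-4π n y) y^(K-2) ug y dy`. As
`x^(l/2+A) e^(-π x)` is bounded by some `C₁`, `gr l (T m²/y) ≤ C₁ (T m²/y)^(-A)`, so `0 ≤ ug y ≤ C₁ T^(-A) y^A ∑ m^(-2A)` (`2A ≥ 2`), and
`∫ e^(-4π n y) y^(K-2+A) dy = Γ(K-1+A) (4π n)^(-(K-1+A))` (`Real.integral_rpow_mul_exp_neg_mul_Ioi`). Measurability in `T`: the parameter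
integral of a jointly measurable function (GHT; `StronglyMeasurable.integral_prod_right`), with the indicator function of `T > 0`. -/
def S_IGB : Prop := R_GHT → ∀ (M l : ℕ) (K : ℝ), 1 ≤ M → 2 ≤ K →
  (∀ A : ℝ, 1 ≤ A → ∃ C : ℝ, 0 ≤ C ∧ ∀ T : ℝ, 0 < T → ∀ n : ℕ, 1 ≤ n →
    0 ≤ IG K (ug M l T) n ∧ IG K (ug M l T) n ≤ C * T ^ (-A) * (n : ℝ) ^ (-(K - 1 + A))) ∧
  ∀ n : ℕ, Measurable (fun T : ℝ => if 0 < T then IG K (ug M l T) n else 0)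

/-- **IGM.** The Mellin transform of `IG`. Proof. For real `σ > 1/2` by Tonelli and `∫_0^∞ T^(σ-1) gr l (T m²/y) dT = (y/m²)^σ ∫_0^∞ w^(σ+l/2-1) e^(-π w) dw
= (y/m²)^σ Γ(σ+l/2) π^(-σ-l/2)` (substitution `w = T m²/y`): `∫_0^∞ T^(σ-1) IG(T) dT = Γ(σ+l/2) π^(-σ-l/2) ∑_m m^(-2σ) ∫_0^∞ e^(-4π n y) y^(K-2+σ) dy
= Γ(σ+l/2) π^(-σ-l/2) ζ_M(2σ) Γ(σ+K-1) (4π n)^(-(σ+K-1)) < ∞`. This gives the absolute convergence for complex `s` with `Re s = σ`, so the order of the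
integrations and of the summation over `m` may be changed, and the same computation gives the formula (`Complex.integral_cpow_mul_exp_neg_mul_Ioi`). The last part: for `Re s = σ`
the integral of the norms is the Mellin transform at `σ`, which is `C_σ n^(-(σ+K-1))`. -/
def S_IGM : Prop := R_GHT → ∀ (M l : ℕ) (K : ℝ), 1 ≤ M → 2 ≤ K → ∀ s : ℂ, 1 / 2 < s.re →
  (∀ n : ℕ, 1 ≤ n →
    MellinConvergent (fun T : ℝ => (IG K (ug M l T) n : ℂ)) s ∧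
    mellin (fun T : ℝ => (IG K (ug M l T) n : ℂ)) s =
      Complex.Gamma (s + l / 2) * (Real.pi : ℂ) ^ (-(s + l / 2)) * zM M (2 * s) *
        Complex.Gamma (s + K - 1) * (4 * Real.pi * n : ℂ) ^ (-(s + K - 1))) ∧
  ∃ C : ℝ, ∀ n : ℕ, 1 ≤ n →
    ∫ T in Set.Ioi (0 : ℝ), ‖(T : ℂ) ^ (s - 1) * (IG K (ug M l T) n : ℂ)‖ ≤
      C * (n : ℝ) ^ (-(s.re + K - 1))

/-- **MEL.** The Mellin transform of `Ph`. Proof. By IGB (`A`, real) `|Ph T| ≤ C T^(-A) ∑ |c n| n^(-(K-1+A))` for `A > 1` (the term `n = 0` is zero); this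
is (ii), for every `A` (a larger one for `A ≤ 1`, as `T ≥ 1`). (iii): exchange of sum and integral, `hasSum_integral_of_summable_integral_norm` for the functions
`T^(s-1) c(n) IG(n, T)`, whose norms have integral `≤ C |c n| n^(-(σ+K-1))` by IGM; `(4π n)^(-(s+K-1)) = (4π)^(-(s+K-1)) n^(-(s+K-1))`. This also gives
`MellinConvergent` (the sum is integrable: `integrable_tsum`-like: `Ph` is measurable on `T > 0` as a sum of the measurable functions of IGB, and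
`∫ T^(σ-1) ∑ |c n| IG(n, T) dT < ∞`). (i): from (iii) at `s = 2`: `T Ph(T)` is integrable on `(0, ∞)`, multiply with the continuous function `1/T`. -/
def S_MEL : Prop := (∀ (M l : ℕ) (K : ℝ), 1 ≤ M → 2 ≤ K →
    (∀ A : ℝ, 1 ≤ A → ∃ C : ℝ, 0 ≤ C ∧ ∀ T : ℝ, 0 < T → ∀ n : ℕ, 1 ≤ n →
      0 ≤ IG K (ug M l T) n ∧ IG K (ug M l T) n ≤ C * T ^ (-A) * (n : ℝ) ^ (-(K - 1 + A))) ∧
    ∀ n : ℕ, Measurable (fun T : ℝ => if 0 < T then IG K (ug M l T) n else 0)) →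
  (∀ (M l : ℕ) (K : ℝ), 1 ≤ M → 2 ≤ K → ∀ s : ℂ, 1 / 2 < s.re →
    (∀ n : ℕ, 1 ≤ n →
      MellinConvergent (fun T : ℝ => (IG K (ug M l T) n : ℂ)) s ∧
      mellin (fun T : ℝ => (IG K (ug M l T) n : ℂ)) s =
        Complex.Gamma (s + l / 2) * (Real.pi : ℂ) ^ (-(s + l / 2)) * zM M (2 * s) *
          Complex.Gamma (s + K - 1) * (4 * Real.pi * n : ℂ) ^ (-(s + K - 1))) ∧
    ∃ C : ℝ, ∀ n : ℕ, 1 ≤ n →
      ∫ T in Set.Ioi (0 : ℝ), ‖(T : ℂ) ^ (s - 1) * (IG K (ug M l T) n : ℂ)‖ ≤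
        C * (n : ℝ) ^ (-(s.re + K - 1))) →
  ∀ (M l : ℕ) (K : ℝ) (c : ℕ → ℝ), 1 ≤ M → 2 ≤ K → c 0 = 0 →
    (∀ σ : ℝ, 1 < σ → Summable (fun n : ℕ => |c n| * (n : ℝ) ^ (-(σ + K - 1)))) →
  LocallyIntegrableOn (fun T : ℝ => (Ph M l K c T : ℂ)) (Set.Ioi 0) ∧
  (∀ A : ℝ, ∃ C : ℝ, ∀ T : ℝ, 1 ≤ T → |Ph M l K c T| ≤ C * T ^ (-A)) ∧
  ∀ s : ℂ, 1 < s.re → mellin (fun T : ℝ => (Ph M l K c T : ℂ)) s =
    Complex.Gamma (s + l / 2) * (Real.pi : ℂ) ^ (-(s + l / 2)) * zM M (2 * s) *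
      Complex.Gamma (s + K - 1) * (4 * Real.pi : ℂ) ^ (-(s + K - 1)) * DQ K c s

/-- The conclusion of MEL. -/
def R_MEL : Prop := ∀ (M l : ℕ) (K : ℝ) (c : ℕ → ℝ), 1 ≤ M → 2 ≤ K → c 0 = 0 →
    (∀ σ : ℝ, 1 < σ → Summable (fun n : ℕ => |c n| * (n : ℝ) ^ (-(σ + K - 1)))) →
  LocallyIntegrableOn (fun T : ℝ => (Ph M l K c T : ℂ)) (Set.Ioi 0) ∧
  (∀ A : ℝ, ∃ C : ℝ, ∀ T : ℝ, 1 ≤ T → |Ph M l K c T| ≤ C * T ^ (-A)) ∧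
  ∀ s : ℂ, 1 < s.re → mellin (fun T : ℝ => (Ph M l K c T : ℂ)) s =
    Complex.Gamma (s + l / 2) * (Real.pi : ℂ) ^ (-(s + l / 2)) * zM M (2 * s) *
      Complex.Gamma (s + K - 1) * (4 * Real.pi : ℂ) ^ (-(s + K - 1)) * DQ K c s

/-- **CON0.** Continuation of a Mellin transform. Proof. `Φ₁ = Φ - c T^(-1) 1_{(0, 1]}` is locally integrable on `(0, ∞)`, `O(T^(-A))` at infinity for
every `A` and `O(T^(-1/4))` at zero, so `G = mellin Φ₁` is differentiable at all `s` with `Re s > 1/4` (`mellin_differentiableAt_of_isBigO_rpow`), and for `Re s > 1` the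
Mellin transform of `T^(-1) 1_{(0, 1]}` is `1/(s-1)` (`hasMellin_cpow_Ioc` with exponent `-1`). -/
def S_CON0 : Prop := ∀ (Φ : ℝ → ℂ) (c : ℂ), LocallyIntegrableOn Φ (Set.Ioi 0) →
  (∀ A : ℝ, ∃ C : ℝ, ∀ T : ℝ, 1 ≤ T → ‖Φ T‖ ≤ C * T ^ (-A)) →
  (∃ C : ℝ, ∀ T : ℝ, 0 < T → T ≤ 1 → ‖Φ T - c / T‖ ≤ C * T ^ (-(1 / 4 : ℝ))) →
  ∃ G : ℂ → ℂ, DifferentiableOn ℂ G HP ∧ ∀ s : ℂ, 1 < s.re → mellin Φ s = G s + c / (s - 1)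

/-- **CONT.** The analytic continuation. Proof. `K = (k+k')/2 ≥ 2`, `c n = a₁ b₁ - a₂ b₂` (`c 0 = 0`); `∑ |a b| n^(-(σ+K-1)) < ∞` for `σ > 1` (MS for `1 < σ ≤ 2`,
`2 |a b| n^(-(σ+K-1)) ≤ a² n^(-(σ+k-1)) + b² n^(-(σ+k'-1))`; for `σ > 2` compare with `σ = 2`). FC with `u = ug M l T` (GHT) for both pairs:
`∫_strip F ug = Ph M l K c T` for `T > 0`. GM gives the hypothesis of CON0 with `c₀ = κ ∫ w F` (`l = 0`) or `c₀ = 0` (`l ≠ 0`), MEL the others. So, with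
`e(s) = π^(s+l/2) (4π)^(s+K-1) / (Γ(s+l/2) Γ(s+K-1))` (entire: `Complex.differentiable_one_div_Gamma`; `Γ` does not vanish), `zM M (2s) DQ K c s = e(s) (G₀(s) + c₀/(s-1))` for `Re s > 1`.
`l ≠ 0`: `G = e G₀`. `l = 0`: `e(s)/(s-1) = (e(s) - e(1))/(s-1) + e(1)/(s-1)`, `G = e G₀ + c₀ dslope e 1`, `ρ = κ e(1)`,
`e(1) = π (4π)^K/(Γ(1) Γ(K)) > 0`. -/
def S_CONT : Prop := R_GM → R_GHT → R_FC → R_MS → R_MEL → S_CON0 →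
  ∀ (M l k k' : ℕ) (f₁ g₁ f₂ g₂ : ℍ → ℂ) (a₁ b₁ a₂ b₂ : ℕ → ℝ) (R : Finset SL(2, ℤ)) (w : ℍ → ℝ),
  2 ≤ M → 2 ≤ k → 2 ≤ k' → IsQ k f₁ a₁ → IsQ k' g₁ b₁ → IsQ k f₂ a₂ → IsQ k' g₂ b₂ → PWt M R w →
  Continuous (fun z => Fl k k' f₁ g₁ z - Fl k k' f₂ g₂ z) →
  (∃ C, ∀ z, ‖Fl k k' f₁ g₁ z - Fl k k' f₂ g₂ z‖ ≤ C) →
  (∀ γ ∈ CongruenceSubgroup.Gamma0 M, ∀ z : ℍ,
    Fl k k' f₁ g₁ (γ • z) - Fl k k' f₂ g₂ (γ • z) =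
      (jf γ z / ‖jf γ z‖) ^ l * (Fl k k' f₁ g₁ z - Fl k k' f₂ g₂ z)) →
  ∃ (ρ : ℝ) (G : ℂ → ℂ), 0 < ρ ∧ DifferentiableOn ℂ G HP ∧ ∀ s : ℂ, 1 < s.re →
    zM M (2 * s) * DQ (((k : ℝ) + k') / 2) (fun n => a₁ n * b₁ n - a₂ n * b₂ n) s =
      G s + (if l = 0 then
        ρ * (∫ z, (w z : ℂ) * (Fl k k' f₁ g₁ z - Fl k k' f₂ g₂ z)) / (s - 1) else 0)

/-- The conclusion of CONT. -/
def R_CONT : Prop :=
  ∀ (M l k k' : ℕ) (f₁ g₁ f₂ g₂ : ℍ → ℂ) (a₁ b₁ a₂ b₂ : ℕ → ℝ) (R : Finset SL(2, ℤ)) (w : ℍ → ℝ),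
  2 ≤ M → 2 ≤ k → 2 ≤ k' → IsQ k f₁ a₁ → IsQ k' g₁ b₁ → IsQ k f₂ a₂ → IsQ k' g₂ b₂ → PWt M R w →
  Continuous (fun z => Fl k k' f₁ g₁ z - Fl k k' f₂ g₂ z) →
  (∃ C, ∀ z, ‖Fl k k' f₁ g₁ z - Fl k k' f₂ g₂ z‖ ≤ C) →
  (∀ γ ∈ CongruenceSubgroup.Gamma0 M, ∀ z : ℍ,
    Fl k k' f₁ g₁ (γ • z) - Fl k k' f₂ g₂ (γ • z) =
      (jf γ z / ‖jf γ z‖) ^ l * (Fl k k' f₁ g₁ z - Fl k k' f₂ g₂ z)) →
  ∃ (ρ : ℝ) (G : ℂ → ℂ), 0 < ρ ∧ DifferentiableOn ℂ G HP ∧ ∀ s : ℂ, 1 < s.re →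
    zM M (2 * s) * DQ (((k : ℝ) + k') / 2) (fun n => a₁ n * b₁ n - a₂ n * b₂ n) s =
      G s + (if l = 0 then
        ρ * (∫ z, (w z : ℂ) * (Fl k k' f₁ g₁ z - Fl k k' f₂ g₂ z)) / (s - 1) else 0)

end Pool.Agent.Lib.MP_058a58_ag.MT
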