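import Pool.Agent.Lib.MP_058a58_ag.MT.Orders
import Pool.Agent.Lib.MP_058a58_ag.MT.DStm3

set_option autoImplicit false

/-!
# Defect form: the orders of the `L`-functions
-/

open Polynomial Filter Topology UpperHalfPlane
open scoped MatrixGroups

namespace TatePole

/-- From the two-sided inequality for the logarithms to the orders, for the `i` in a subset `I` for
which the order exists. -/
theorem orders_step2 {J : Type*} [Fintype J] (g : J → ℝ → ℝ) (n : J → ℤ) (r : J → ℝ) (I : Finset J)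
    (h : ∀ i ∈ I, Tendsto (fun t : ℝ => g i t / Real.log (1 / t)) (𝓝[>] 0) (𝓝 (-(n i : ℝ))))
    (B : ℝ → ℝ) (b : ℝ)
    (hb : Tendsto (fun t : ℝ => B t / Real.log (1 / t)) (𝓝[>] 0) (𝓝 b))
    (hB : ∀ ε : ℝ, 0 < ε → ∃ δ : ℝ, 0 < δ ∧ ∀ t : ℝ, 0 < t → t < δ →
      ∑ i, (g i t - r i * Real.log (1 / t)) ^ 2 ≤
        (B t + ε * Real.log (1 / t)) * Real.log (1 / t)) :
    ∑ i ∈ I, ((n i : ℝ) + r i) ^ 2 ≤ b := by
  have hL := tendsto_log_inv
  have h1 : Tendsto (fun t : ℝ => ∑ i ∈ I, (g i t / Real.log (1 / t) - r i) ^ 2) (𝓝[>] 0)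
      (𝓝 (∑ i ∈ I, (-(n i : ℝ) - r i) ^ 2)) :=
    tendsto_finsetSum _ fun i hi => ((h i hi).sub_const (r i)).pow 2
  have h2 : ∀ ε : ℝ, 0 < ε → ∑ i ∈ I, (-(n i : ℝ) - r i) ^ 2 ≤ b + ε := by
    intro ε hε
    obtain ⟨δ, hδ, hlt⟩ := hB ε hε
    refine le_of_tendsto_of_tendsto h1 (hb.add_const ε) ?_
    have h3 : Set.Ioo (0 : ℝ) δ ∈ 𝓝[>] (0 : ℝ) := Ioo_mem_nhdsGT hδ
    filter_upwards [h3, hL.eventually_gt_atTop 0] with t ht hLpos
    have h4 := hlt t ht.1 ht.2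
    have h6 : ∑ i ∈ I, (g i t - r i * Real.log (1 / t)) ^ 2 ≤
        ∑ i, (g i t - r i * Real.log (1 / t)) ^ 2 :=
      Finset.sum_le_sum_of_subset_of_nonneg (Finset.subset_univ I) fun i _ _ => sq_nonneg _
    set L := Real.log (1 / t) with hLdef
    have h5 : ∑ i ∈ I, (g i t / L - r i) ^ 2 = (∑ i ∈ I, (g i t - r i * L) ^ 2) / L ^ 2 := by
      rw [Finset.sum_div]
      refine Finset.sum_congr rfl fun i _ => ?_
      rw [← div_pow, sub_div, mul_div_cancel_right₀ _ hLpos.ne']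
    rw [h5, div_le_iff₀ (by positivity)]
    refine (h6.trans h4).trans (le_of_eq ?_)
    field_simp
  have h3 : ∑ i ∈ I, (-(n i : ℝ) - r i) ^ 2 ≤ b := le_of_forall_pos_le_add h2
  refine le_trans (le_of_eq ?_) h3
  refine Finset.sum_congr rfl fun i _ => ?_
  ring

theorem to_delta_of {g : ℝ → ℝ} (h : Tendsto g (𝓝[>] 0) atTop) :
    ∃ δ : ℝ, 0 < δ ∧ ∀ t : ℝ, 0 < t → t < δ → 0 ≤ g t := by
  have h1 := h.eventually_ge_atTop 0
  rw [eventually_nhdsWithin_iff, Metric.eventually_nhds_iff] at h1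
  obtain ⟨δ, hδ, h4⟩ := h1
  exact ⟨δ, hδ, fun t ht0 ht => h4 (y := t)
    (by rw [Real.dist_eq, sub_zero, abs_of_pos ht0]; exact ht) ht0⟩

end TatePole

namespace Pool.Agent.Lib.MP_058a58_ag.MT

open TatePole

section

variable {ℓ : ℕ} [Fact ℓ.Prime] [Algebra ℚ_[ℓ] ℂ] {W : Type} [AddCommGroup W]
    [Module ℚ_[ℓ] W] [FiniteDimensional ℚ_[ℓ] W] (ρ : Representation ℚ_[ℓ] GQ W) (w : ℤ)
    (S : Finset ℕ) (P : ℕ → ℂ[X])
    (hP : ∀ p : ℕ, p.Prime → p ∉ S → IsWeightFactor ρ (algebraMap ℚ_[ℓ] ℂ) w p (P p))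
    {J : Type} [Fintype J] (M k : J → ℕ) (hM : ∀ i, 1 ≤ M i) (hk : ∀ i, 2 ≤ k i)
    (f : ∀ i, CuspForm (CongruenceSubgroup.Gamma0 (M i) : Subgroup (GL (Fin 2) ℝ)) (k i))
    (a : J → ℕ → ℝ) (hf : ∀ i, IsHeckeForm (M i) (k i) (f i) (a i))
    (hne : ∀ i j, i ≠ j → k i ≠ k j ∨ ∃ p : ℕ, p.Prime ∧ ¬ p ∣ M i * M j ∧ a i p ≠ a j p)
    (Q : J → ℕ → ℂ[X]) (hQ : ∀ i, ModFactors w S P (M i) (k i) (a i) (Q i))
    (B : Submodule ℚ_[ℓ] W) (hB : ∀ g : GQ, ∀ v ∈ B, ρ g v ∈ B) (r : J → ℝ)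
    (hr : HasModTraces ρ (algebraMap ℚ_[ℓ] ℂ) w B hB k a r)
    (S' : Finset ℕ) (N : ℕ → ℂ[X])
    (hN : AdFactors (quoRep ρ B hB) (algebraMap ℚ_[ℓ] ℂ) S' N)

include hP hM hk hf hne hQ hr hN

/-- If the orders `n i` of the `L(W ⊗ f i, s)` at the edge exist for the `i` in `I`, the sum of the
squares of the `n i + r i` over `I` is at most `(dim W - dim B)²`. -/
theorem orders_dim (hfin : S_FIN4) (I : Finset J) (n : J → ℤ)
    (hn : ∀ i ∈ I, HasModOrder w (k i) (Q i) (n i)) :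
    ∑ i ∈ I, ((n i : ℝ) + r i) ^ 2 ≤
      ((Module.finrank ℚ_[ℓ] W : ℝ) - Module.finrank ℚ_[ℓ] B) ^ 2 := by
  have h1 : ∀ i ∈ I, Tendsto (fun t : ℝ => logMod w (k i) (Q i) t / Real.log (1 / t)) (𝓝[>] 0)
      (𝓝 (-(n i : ℝ))) := fun i hi => by
    obtain ⟨c, hc, ht⟩ := hn i hi
    exact order_tendsto hc ht
  set D : ℝ := (Module.finrank ℚ_[ℓ] W : ℝ) - Module.finrank ℚ_[ℓ] B with hD
  have hfin' := hfin ℓ W ρ w S P hP J M k hM hk f a hf hne Q hQ B hB r hr S' N hN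
  have hL := tendsto_log_inv
  have hb : Tendsto (fun t : ℝ => (D ^ 2 * Real.log (1 / t)) / Real.log (1 / t)) (𝓝[>] 0)
      (𝓝 (D ^ 2)) := by
    refine tendsto_const_nhds.congr' ?_
    filter_upwards [hL.eventually_gt_atTop 0] with t ht
    field_simp
  refine orders_step2 (fun i t => logMod w (k i) (Q i) t) n r I h1
    (fun t => D ^ 2 * Real.log (1 / t)) _ hb fun ε hε => ?_
  obtain ⟨δ, hδ, h4⟩ := hfin' (ε / 2) (by positivity)
  obtain ⟨δ', hδ', h6⟩ := to_delta_of hL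
  refine ⟨min δ δ', lt_min hδ hδ', fun t ht0 ht => ?_⟩
  obtain ⟨h5, h7⟩ := h4 t ht0 (lt_of_lt_of_le ht (min_le_left _ _))
  have h8 := h6 t ht0 (lt_of_lt_of_le ht (min_le_right _ _))
  refine h5.trans (mul_le_mul_of_nonneg_right ?_ h8)
  rw [hD]
  nlinarith

/-- If moreover the order `b` of `L(T ⊗ T^∨, s)` at `1` exists, `T = W / B`, the sum is at most
`-b`. -/
theorem orders_quo (hfin : S_FIN4) (I : Finset J) (n : J → ℤ)
    (hn : ∀ i ∈ I, HasModOrder w (k i) (Q i) (n i))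
    (b : ℤ) (hb : HasAdOrder N b) : ∑ i ∈ I, ((n i : ℝ) + r i) ^ 2 ≤ -(b : ℝ) := by
  have h1 : ∀ i ∈ I, Tendsto (fun t : ℝ => logMod w (k i) (Q i) t / Real.log (1 / t)) (𝓝[>] 0)
      (𝓝 (-(n i : ℝ))) := fun i hi => by
    obtain ⟨c, hc, ht⟩ := hn i hi
    exact order_tendsto hc ht
  have h0 : Tendsto (fun t : ℝ => Real.log ‖LFun N 0 ((1 + t : ℝ) : ℂ)‖ / Real.log (1 / t))
      (𝓝[>] 0) (𝓝 (-(b : ℝ))) := by
    obtain ⟨c, hc, ht⟩ := hb
    exact order_tendsto hc ht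
  have hfin' := hfin ℓ W ρ w S P hP J M k hM hk f a hf hne Q hQ B hB r hr S' N hN
  refine orders_step2 (fun i t => logMod w (k i) (Q i) t) n r I h1
    (fun t => Real.log ‖LFun N 0 ((1 + t : ℝ) : ℂ)‖) _ h0 fun ε hε => ?_
  obtain ⟨δ, hδ, h4⟩ := hfin' ε hε
  exact ⟨δ, hδ, fun t ht0 ht => (h4 t ht0 ht).1⟩

/-- If the `r i` are integers, `n i = -r i` for all `i` for which the order `n i` exists, with at
most `(dim W - dim B)²` exceptions. -/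
theorem orders_card (hfin : S_FIN4) (I : Finset J) (n : J → ℤ)
    (hn : ∀ i ∈ I, HasModOrder w (k i) (Q i) (n i))
    (m : J → ℤ) (hm : ∀ i, r i = m i) :
    (I.filter fun i => n i ≠ -m i).card ≤
      (Module.finrank ℚ_[ℓ] W - Module.finrank ℚ_[ℓ] B) ^ 2 := by
  have h := orders_dim ρ w S P hP M k hM hk f a hf hne Q hQ B hB r hr S' N hN hfin I n hn
  have hle : Module.finrank ℚ_[ℓ] B ≤ Module.finrank ℚ_[ℓ] W := Submodule.finrank_le B
  have h3 : ((I.filter fun i => n i ≠ -m i).card : ℝ) ≤ ∑ i ∈ I, ((n i : ℝ) + r i) ^ 2 := by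
    rw [Finset.card_filter]
    push_cast
    refine Finset.sum_le_sum fun i _ => ?_
    split_ifs with h
    · rw [hm i]
      have h1 : (n i + m i) ≠ 0 := fun h2 => h (by linarith)
      have h2 : (1 : ℤ) ≤ (n i + m i) ^ 2 := by
        have := sq_nonneg (n i + m i)
        rcases lt_or_gt_of_ne h1 with h4 | h4 <;> nlinarith
      exact_mod_cast h2
    · positivity
  have h4 := h3.trans h
  rw [← Nat.cast_sub hle] at h4
  exact_mod_cast h4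

end

end Pool.Agent.Lib.MP_058a58_ag.MT
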