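import Pool.Agent.Lib.MP_058a58_ag.MT.All
import Pool.Agent.Lib.MP_058a58_ag.MT.Asm4
import Pool.Agent.Lib.MP_058a58_ag.MT.Orders2
import Pool.Agent.Lib.MP_058a58_ag.MT.D.EM2
import Pool.Agent.Lib.MP_058a58_ag.MT.D.GPD
import Pool.Agent.Lib.MP_058a58_ag.MT.D.GJ
import Pool.Agent.Lib.MP_058a58_ag.MT.D.GRW
import Pool.Agent.Lib.MP_058a58_ag.MT.D.GL
import Pool.Agent.Lib.MP_058a58_ag.MT.D.GSM
import Pool.Agent.Lib.MP_058a58_ag.MT.D.GCO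
import Pool.Agent.Lib.MP_058a58_ag.MT.D.GHT
import Pool.Agent.Lib.MP_058a58_ag.MT.D.GVOL
import Pool.Agent.Lib.MP_058a58_ag.MT.D.GM
import Pool.Agent.Lib.MP_058a58_ag.MT.D.IGB
import Pool.Agent.Lib.MP_058a58_ag.MT.D.IGM
import Pool.Agent.Lib.MP_058a58_ag.MT.D.MEL
import Pool.Agent.Lib.MP_058a58_ag.MT.D.CON0
import Pool.Agent.Lib.MP_058a58_ag.MT.D.CONT
import Pool.Agent.Lib.MP_058a58_ag.MT.D.HRC
import Pool.Agent.Lib.MP_058a58_ag.MT.D.POS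
import Pool.Agent.Lib.MP_058a58_ag.MT.D.CNL
import Pool.Agent.Lib.MP_058a58_ag.MT.D.CNE
import Pool.Agent.Lib.MP_058a58_ag.MT.D.CND
import Pool.Agent.Lib.MP_058a58_ag.MT.D.EL1
import Pool.Agent.Lib.MP_058a58_ag.MT.D.EPC
import Pool.Agent.Lib.MP_058a58_ag.MT.D.ZMP
import Pool.Agent.Lib.MP_058a58_ag.MT.D.ELB
import Pool.Agent.Lib.MP_058a58_ag.MT.D.CCP
import Pool.Agent.Lib.MP_058a58_ag.MT.D.CCS
import Pool.Agent.Lib.MP_058a58_ag.MT.D.EUL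
import Pool.Agent.Lib.MP_058a58_ag.MT.D.LAND
import Pool.Agent.Lib.MP_058a58_ag.MT.D.KEY
import Pool.Agent.Lib.MP_058a58_ag.MT.D.NZD
import Pool.Agent.Lib.MP_058a58_ag.MT.D.NZO
import Pool.Agent.Lib.MP_058a58_ag.MT.D.JMP
import Pool.Agent.Lib.MP_058a58_ag.MT.D.REM
import Pool.Agent.Lib.MP_058a58_ag.MT.D.GM2
import Pool.Agent.Lib.MP_058a58_ag.MT.D.BS4
import Pool.Agent.Lib.MP_058a58_ag.MT.D.LGT

set_option autoImplicit false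

/-!
# Defect form: all pieces together
-/

open Polynomial Filter Topology UpperHalfPlane
open scoped MatrixGroups

namespace Pool.Agent.Lib.MP_058a58_ag.MT

theorem p_EM : S_EM := fun M r g g' hM hd hg hg' => em_core g g' hd hg hg' M hM r

theorem r_GL : R_GL := p_GL (p_GRW p_EM p_EM2 p_GPD) p_GJ

theorem r_GHT : R_GHT := p_GHT p_SI

theorem r_GM : R_GM := p_GM r_GL glue_AU (p_GCO p_GSM p_CO1 p_CO2) r_GHT p_GVOL p_VOL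

theorem r_MEL : R_MEL := p_MEL (p_IGB r_GHT) (p_IGM r_GHT)

theorem r_CONT : R_CONT := p_CONT r_GM r_GHT (p_FC p_SI p_PV) r_MS r_MEL p_CON0

theorem r_CND : R_CND := p_CND r_CONT p_PW p_HL (p_POS p_PV p_VOL)

theorem r_CNO : R_CNO := cno_of (p_CNL r_CONT p_PW p_HL)
  (p_CNE r_CONT p_PW p_UP p_HI (p_OR p_WN1 p_WN2 glue_AU p_VOL p_HI p_UP) p_HRC r_MS)

theorem r_ES : R_ES := es_of p_F3 r_HB r_DG

theorem r_MSQ : R_MSQ := msq_of r_GR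

theorem r_CCS : R_CCS := p_CCS p_CCP

theorem r_EUL : R_EUL := p_EUL p_EL1 p_EPC (p_ZMP p_EPC) (p_ELB p_EL1) p_CCP r_CCS

theorem r_NZD : R_NZD := p_NZD r_CND r_ES r_MSQ r_CCS r_EUL p_CCP p_LAND p_KEY

theorem r_NZO : R_NZO := p_NZO r_CND r_CNO r_ES r_MSQ r_CCS r_EUL p_CCP p_LAND p_KEY

theorem r_REM : R_REM := p_REM r_NZD p_JMP p_CCP r_ES r_MSQ r_CCS

theorem r_GM2 : R_GM2 := p_GM2 r_NZD r_NZO r_REM p_CCP r_ES r_CCS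

theorem fin4 : S_FIN4 := fin4_of r_GM2 p_BS4 p_LGF p_LGT glue_MF p_F3 r_HB r_DG

end Pool.Agent.Lib.MP_058a58_ag.MT
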