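import Pool.Agent.Lib.MP_058a58_ag.MT.Stm5

set_option autoImplicit false

/-!
# Twists by modular forms: the assembly
-/

open Polynomial Filter Topology UpperHalfPlane
open scoped MatrixGroups

namespace Pool.Agent.Lib.MP_058a58_ag.MT

/-- The Gram matrix. -/
def R_GR : Prop := ∀ (N N' k k' : ℕ) (f g : ℍ → ℂ) (a b : ℕ → ℝ), Pair N N' k k' f g a b →
    (∃ C : ℝ, ∀ s : ℝ, 1 < s → s ≤ 2 →
      TatePole.RR (fun p => th N k a p * th N k a p) s ≤ Real.log (1 / (s - 1)) + C) ∧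
    ((k ≠ k' ∨ ∃ p : ℕ, p.Prime ∧ ¬ p ∣ N * N' ∧ a p ≠ b p) →
      ∃ C : ℝ, ∀ s : ℝ, 1 < s → s ≤ 2 → TatePole.RR (fun p => th N k a p * th N' k' b p) s ≤ C)

theorem gram_eq {J : Type} (gr : R_GR) (N k : J → ℕ) (hN : ∀ i, 1 ≤ N i) (hk : ∀ i, 2 ≤ k i)
    (f : J → ℍ → ℂ) (a : J → ℕ → ℝ) (hf : ∀ i, IsForm (N i) (k i) (f i) (a i))
    (ha : ∀ i, HeckeSeq (N i) (k i) (a i)) [DecidableEq J]
    (hne : ∀ i j, i ≠ j → k i ≠ k j ∨ ∃ p : ℕ, p.Prime ∧ ¬ p ∣ N i * N j ∧ a i p ≠ a j p) (i j : J) :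
    ∃ C : ℝ, ∀ x : ℝ, 1 < x → x ≤ 2 →
      TatePole.RR (fun p => th (N i) (k i) (a i) p * th (N j) (k j) (a j) p) x ≤
        (if i = j then Real.log (1 / (x - 1)) else 0) + C := by
  have hp : Pair (N i) (N j) (k i) (k j) (f i) (f j) (a i) (a j) :=
    ⟨hN i, hN j, hk i, hk j, hf i, hf j, ha i, ha j⟩
  obtain ⟨h1, h2⟩ := gr _ _ _ _ _ _ _ _ hp
  by_cases hij : i = j
  · subst hij
    simpa using h1
  · simpa [hij] using h2 (hne i j hij)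

theorem RR_neg_mul (A θ : ℕ → ℝ) (x : ℝ) :
    TatePole.RR (fun p => -A p * θ p) x = -TatePole.RR (fun p => A p * θ p) x := by
  unfold TatePole.RR
  rw [← tsum_neg]
  congr 1
  ext p
  ring

theorem sqsum (dg : R_DG) {N k : ℕ} {f : ℍ → ℂ} {a : ℕ → ℝ} (hN : 1 ≤ N) (hk : 2 ≤ k)
    (hf : IsForm N k f a) (ha : HeckeSeq N k a) (x : ℝ) (h1 : 1 < x) (h2 : x ≤ 2) :
    Summable (fun n : ℕ => lam k a n ^ 2 * (n : ℝ) ^ (-x)) := by
  have h := (dg N N k k f f a a ⟨hN, hN, hk, hk, hf, hf, ha, ha⟩).2 x h1 h2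
  refine h.congr fun n => ?_
  rw [abs_mul_self]
  ring

theorem sqsum_primes {N k : ℕ} {a : ℕ → ℝ} {x : ℝ}
    (h : Summable (fun n : ℕ => lam k a n ^ 2 * (n : ℝ) ^ (-x))) :
    Summable (fun p : Nat.Primes => th N k a p ^ 2 * (p : ℝ) ^ (-x)) := by
  have h1 : Summable (fun p : Nat.Primes => lam k a p ^ 2 * ((p : ℕ) : ℝ) ^ (-x)) :=
    h.comp_injective (i := fun p : Nat.Primes => (p : ℕ)) Nat.Primes.coe_nat_injective
  refine Summable.of_nonneg_of_le (fun p => by positivity) (fun p => ?_) h1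
  refine mul_le_mul_of_nonneg_right ?_ (by positivity)
  unfold th
  split_ifs
  · rw [zero_pow two_ne_zero]
    positivity
  · exact le_rfl

theorem log_large (B : ℝ) : ∀ᶠ x in 𝓝[>] (1 : ℝ), B ≤ Real.log (1 / (x - 1)) := by
  have h2 : Set.Ioo (1 : ℝ) (1 + Real.exp (-B)) ∈ 𝓝[>] (1 : ℝ) :=
    Ioo_mem_nhdsGT (by linarith [Real.exp_pos (-B)])
  filter_upwards [h2] with x hx
  have h3 : 0 < x - 1 := by linarith [hx.1]
  rw [Real.log_div one_ne_zero h3.ne', Real.log_one, zero_sub, le_neg]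
  rw [Real.log_le_iff_le_exp h3]
  linarith [hx.2]

theorem to_delta {p : ℝ → Prop} (h : ∀ᶠ x in 𝓝[>] (1 : ℝ), p (x - 1)) :
    ∃ δ : ℝ, 0 < δ ∧ ∀ t : ℝ, 0 < t → t < δ → p t := by
  rw [eventually_nhdsWithin_iff, Metric.eventually_nhds_iff] at h
  obtain ⟨δ, hδ, h4⟩ := h
  refine ⟨δ, hδ, fun t ht0 ht => ?_⟩
  have h5 := h4 (y := 1 + t) (by rw [Real.dist_eq, add_sub_cancel_left, abs_of_pos ht0]; exact ht)
    (by simp [ht0])
  simpa only [add_sub_cancel_left] using h5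

/-- The core: the inequality with the mean square of the traces. -/
theorem core (gr : R_GR) (bs : S_BS3) (lgf : S_LGF) (mf : S_MF) (f3 : S_F3) (hb : R_HB) (dg : R_DG)
    (ℓ : ℕ) [Fact ℓ.Prime] [Algebra ℚ_[ℓ] ℂ] (W : Type) [AddCommGroup W]
    [Module ℚ_[ℓ] W] [FiniteDimensional ℚ_[ℓ] W] (ρ : Representation ℚ_[ℓ] TatePole.GQ W) (w : ℤ)
    (S : Finset ℕ) (P : ℕ → ℂ[X])
    (hP : ∀ p : ℕ, p.Prime → p ∉ S → TatePole.IsWeightFactor ρ (algebraMap ℚ_[ℓ] ℂ) w p (P p))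
    (J : Type) [Fintype J] (M k : J → ℕ) (hM : ∀ i, 1 ≤ M i) (hk : ∀ i, 2 ≤ k i)
    (f : ∀ i, CuspForm (CongruenceSubgroup.Gamma0 (M i) : Subgroup (GL (Fin 2) ℝ)) (k i))
    (a : J → ℕ → ℝ) (hf : ∀ i, TatePole.IsHeckeForm (M i) (k i) (f i) (a i))
    (hne : ∀ i j, i ≠ j → k i ≠ k j ∨ ∃ p : ℕ, p.Prime ∧ ¬ p ∣ M i * M j ∧ a i p ≠ a j p)
    (Q : J → ℕ → ℂ[X]) (hQ : ∀ i, TatePole.ModFactors w S P (M i) (k i) (a i) (Q i))
    (ε : ℝ) (hε : 0 < ε) :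
    ∀ᶠ x in 𝓝[>] (1 : ℝ),
      ∑ i, (max 0 (TatePole.logMod w (k i) (Q i) (x - 1))) ^ 2 ≤
        (TatePole.RR (fun p => Aw w S P p ^ 2) x + ε * Real.log (1 / (x - 1))) *
          Real.log (1 / (x - 1)) ∧
      ∑ i, (max 0 (-TatePole.logMod w (k i) (Q i) (x - 1))) ^ 2 ≤
        (TatePole.RR (fun p => Aw w S P p ^ 2) x + ε * Real.log (1 / (x - 1))) *
          Real.log (1 / (x - 1)) ∧
      TatePole.RR (fun p => Aw w S P p ^ 2) x ≤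
        ((Module.finrank ℚ_[ℓ] W : ℝ) ^ 2 + ε) * Real.log (1 / (x - 1)) := by
  classical
  obtain ⟨hA, hL⟩ := lgf ℓ W ρ w S P hP
  have hmf : ∀ i, IsForm (M i) (k i) (f i) (a i) ∧ HeckeSeq (M i) (k i) (a i) := fun i =>
    mf (M i) (k i) (f i) (a i) (hM i) (hf i)
  have hgram := fun i j => gram_eq gr M k hM hk (fun i => ⇑(f i)) a (fun i => (hmf i).1)
    (fun i => (hmf i).2) hne i j
  have hsq : ∀ i, ∀ x : ℝ, 1 < x → x ≤ 2 →
      Summable (fun n : ℕ => lam (k i) (a i) n ^ 2 * (n : ℝ) ^ (-x)) := fun i x h1 h2 =>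
    sqsum dg (hM i) (hk i) (hmf i).1 (hmf i).2 x h1 h2
  have hsat : ∀ i, ∀ p : ℕ, p.Prime → ¬ p ∣ M i →
      ∃ α : ℂ, Sat (lam (k i) (a i) p) (Real.sqrt p) α := fun i p hp hpM =>
    (((f3 (M i) (k i) (a i) (hk i) (hmf i).2 (hb _ _ _ (hmf i).1.toIsQ)).2 p hp).1 hpM).1
  set A := Aw w S P with hAdef
  have hlog : ∀ i, ∃ C : ℝ, ∀ᶠ x in 𝓝[>] (1 : ℝ),
      |TatePole.logMod w (k i) (Q i) (x - 1) -
        TatePole.RR (fun p => A p * th (M i) (k i) (a i) p) x| ≤ C :=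
    fun i => hL (M i) (k i) (a i) (Q i) (hM i) (hk i) (hsat i) (hsq i) (hQ i)
  have hsp : ∀ i, ∀ x : ℝ, 1 < x → x ≤ 2 →
      Summable (fun p : Nat.Primes => th (M i) (k i) (a i) p ^ 2 * (p : ℝ) ^ (-x)) :=
    fun i x h1 h2 => sqsum_primes (hsq i x h1 h2)
  obtain ⟨k1, k3⟩ := bs J A (Module.finrank ℚ_[ℓ] W) (fun i => th (M i) (k i) (a i))
    (fun i x => TatePole.logMod w (k i) (Q i) (x - 1)) (by positivity) hA hsp hgram hlog ε hε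
  obtain ⟨k2, -⟩ := bs J (fun p => -A p) (Module.finrank ℚ_[ℓ] W)
    (fun i => th (M i) (k i) (a i))
    (fun i x => -TatePole.logMod w (k i) (Q i) (x - 1)) (by positivity)
    (fun p hp => by rw [abs_neg]; exact hA p hp) hsp hgram (by
      intro i
      obtain ⟨C, hC⟩ := hlog i
      refine ⟨C, ?_⟩
      filter_upwards [hC] with x hx
      rw [RR_neg_mul A, show -TatePole.logMod w (k i) (Q i) (x - 1) -
        -TatePole.RR (fun p => A p * th (M i) (k i) (a i) p) x =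
        -(TatePole.logMod w (k i) (Q i) (x - 1) -
          TatePole.RR (fun p => A p * th (M i) (k i) (a i) p) x) by ring, abs_neg]
      exact hx) ε hε
  have e : (fun p => (-A p) ^ 2) = fun p => A p ^ 2 := by
    ext p
    ring
  rw [e] at k2
  filter_upwards [k1, k2, k3] with x h1 h2 h3
  exact ⟨h1, h2, h3⟩

theorem fin_of (gr : R_GR) (bs : S_BS3) (lgf : S_LGF) (mf : S_MF) (f3 : S_F3) (hb : R_HB)
    (dg : R_DG) : S_FIN := by
  intro ℓ _ _ W _ _ _ ρ w S P hP J _ M k hM hk f a hf hne Q hQ ε hε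
  have h := core gr bs lgf mf f3 hb dg ℓ W ρ w S P hP J M k hM hk f a hf hne Q hQ (ε ^ 2 / 2)
    (by positivity)
  refine to_delta (p := fun t => ∑ i, (max 0 (TatePole.logMod w (k i) (Q i) t)) ^ 2 ≤
      ((Module.finrank ℚ_[ℓ] W + ε) * Real.log (1 / t)) ^ 2 ∧
    ∑ i, (max 0 (-TatePole.logMod w (k i) (Q i) t)) ^ 2 ≤
      ((Module.finrank ℚ_[ℓ] W + ε) * Real.log (1 / t)) ^ 2) ?_
  filter_upwards [h, log_large 0] with x h1 h2
  obtain ⟨h3, h4, h5⟩ := h1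
  set L := Real.log (1 / (x - 1))
  set D : ℝ := (Module.finrank ℚ_[ℓ] W : ℝ)
  have hD : 0 ≤ D := Nat.cast_nonneg _
  have h7 : (TatePole.RR (fun p => Aw w S P p ^ 2) x + ε ^ 2 / 2 * L) * L ≤
      ((D ^ 2 + ε ^ 2) * L) * L := mul_le_mul_of_nonneg_right (by linarith) h2
  have h8 : 0 ≤ D * ε * (L * L) := by positivity
  have h9 : ((D ^ 2 + ε ^ 2) * L) * L ≤ ((D + ε) * L) ^ 2 := by nlinarith
  exact ⟨h3.trans (h7.trans h9), h4.trans (h7.trans h9)⟩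

theorem fin2_of (gr : R_GR) (bs : S_BS3) (lgf : S_LGF) (lgn : S_LGN) (mf : S_MF) (f3 : S_F3)
    (hb : R_HB) (dg : R_DG) : S_FIN2 := by
  intro ℓ _ _ W _ _ _ ρ w S P hP S' N hN J _ M k hM hk f a hf hne Q hQ ε hε
  obtain ⟨⟨C1, hC1⟩, ⟨C2, hC2⟩⟩ := lgn ℓ W ρ w S P hP S' N hN
  have h := core gr bs lgf mf f3 hb dg ℓ W ρ w S P hP J M k hM hk f a hf hne Q hQ (ε / 2)
    (by positivity)
  have hall : ∀ᶠ x in 𝓝[>] (1 : ℝ),
      ∑ i, (max 0 (TatePole.logMod w (k i) (Q i) (x - 1))) ^ 2 ≤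
        (Real.log ‖TatePole.LFun N 0 ((1 + (x - 1) : ℝ) : ℂ)‖ + ε * Real.log (1 / (x - 1))) *
          Real.log (1 / (x - 1)) ∧
      ∑ i, (max 0 (-TatePole.logMod w (k i) (Q i) (x - 1))) ^ 2 ≤
        (Real.log ‖TatePole.LFun N 0 ((1 + (x - 1) : ℝ) : ℂ)‖ + ε * Real.log (1 / (x - 1))) *
          Real.log (1 / (x - 1)) ∧
      Real.log ‖TatePole.LFun N 0 ((1 + (x - 1) : ℝ) : ℂ)‖ ≤
        ((Module.finrank ℚ_[ℓ] W : ℝ) ^ 2 + ε) * Real.log (1 / (x - 1)) := by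
    filter_upwards [h, hC1, hC2, log_large 0, log_large (C1 / (ε / 2)), log_large (C2 / ε)] with
      x h1 h3 h4 h5 h6 h7
    obtain ⟨h1, h2, -⟩ := h1
    rw [add_sub_cancel]
    set L := Real.log (1 / (x - 1))
    have h8 : C1 ≤ ε / 2 * L := by
      rw [div_le_iff₀ (by positivity)] at h6
      linarith
    have h9 : C2 ≤ ε * L := by
      rw [div_le_iff₀ hε] at h7
      linarith
    have h10 : (TatePole.RR (fun p => Aw w S P p ^ 2) x + ε / 2 * L) * L ≤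
        (Real.log ‖TatePole.LFun N 0 (x : ℝ)‖ + ε * L) * L :=
      mul_le_mul_of_nonneg_right (by linarith) h5
    exact ⟨h1.trans h10, h2.trans h10, by linarith⟩
  exact to_delta (p := fun t => ∑ i, (max 0 (TatePole.logMod w (k i) (Q i) t)) ^ 2 ≤
      (Real.log ‖TatePole.LFun N 0 ((1 + t : ℝ) : ℂ)‖ + ε * Real.log (1 / t)) * Real.log (1 / t) ∧
    ∑ i, (max 0 (-TatePole.logMod w (k i) (Q i) t)) ^ 2 ≤
      (Real.log ‖TatePole.LFun N 0 ((1 + t : ℝ) : ℂ)‖ + ε * Real.log (1 / t)) * Real.log (1 / t) ∧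
    Real.log ‖TatePole.LFun N 0 ((1 + t : ℝ) : ℂ)‖ ≤
      ((Module.finrank ℚ_[ℓ] W : ℝ) ^ 2 + ε) * Real.log (1 / t)) hall

end Pool.Agent.Lib.MP_058a58_ag.MT
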