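import Pool.Agent.Lib.MP_058a58_ag.MT.Stm5

set_option autoImplicit false

/-!
# Twists by modular forms, defect form: definitions

Theta functions instead of the cut-off powers: `∑ λ_f(n) λ_g(n) n ^ (-s)` times a zeta function is a
Mellin transform, which gives its analytic continuation to `Re s > 1/4`.
-/

open UpperHalfPlane MeasureTheory Filter Topology
open scoped MatrixGroups Modular

namespace Pool.Agent.Lib.MP_058a58_ag.MT

/-! ### Theta functions -/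

/-- The function `v ^ l * exp (-π * ‖v‖ ^ 2)` on the plane. -/
noncomputable def gl (l : ℕ) (v : ℂ) : ℂ := v ^ l * (Real.exp (-Real.pi * ‖v‖ ^ 2) : ℂ)

/-- The radial function `x ^ (l / 2) * exp (-π * x)`, so that `gl l v = (v / ‖v‖) ^ l * gr l (‖v‖ ^ 2)`. -/
noncomputable def gr (l : ℕ) (x : ℝ) : ℝ := x ^ ((l : ℝ) / 2) * Real.exp (-Real.pi * x)

open Classical in
/-- The sum of `gl (√T * v)` over the vectors `v = (c z + d) / √y` with `M ∣ c`, `d` prime to `M`. -/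
noncomputable def Th (M l : ℕ) (T : ℝ) (z : ℍ) : ℂ :=
  ∑' v : ℤ × ℤ, if (M : ℤ) ∣ v.1 ∧ IsCoprime v.2 (M : ℤ) then
    gl l ((Real.sqrt T : ℂ) * vz z v.1 v.2) else 0

/-- The sum of `gr (T * n ^ 2 / y)` over the `n ≥ 1` prime to `M` (`0` for `y ≤ 0`). -/
noncomputable def ug (M l : ℕ) (T y : ℝ) : ℝ :=
  if 0 < y then ∑' n : ℕ, (if 1 ≤ n ∧ n.Coprime M then gr l (T * (n : ℝ) ^ 2 / y) else 0) else 0

/-- The sum of the `c n * ∫ exp (-4 π n y) y ^ (K - 2) ug y dy`. -/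
noncomputable def Ph (M l : ℕ) (K : ℝ) (c : ℕ → ℝ) (T : ℝ) : ℝ :=
  ∑' n : ℕ, c n * IG K (ug M l T) n

/-! ### Dirichlet series -/

/-- The sum of `n ^ (-z)` over the `n ≥ 1` prime to `M`. -/
noncomputable def zM (M : ℕ) (z : ℂ) : ℂ :=
  ∑' n : ℕ, if 1 ≤ n ∧ n.Coprime M then (n : ℂ) ^ (-z) else 0

/-- The Dirichlet series `∑ c(n) n ^ (-(s + K - 1))`. -/
noncomputable def DQ (K : ℝ) (c : ℕ → ℝ) (s : ℂ) : ℂ :=
  ∑' n : ℕ, (c n : ℂ) * (n : ℂ) ^ (-(s + K - 1))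

/-- The Dirichlet series `∑ λ_f(n) λ_g(n) n ^ (-s)`, for complex `s`. -/
noncomputable def DDc (k k' : ℕ) (a b : ℕ → ℝ) (s : ℂ) : ℂ :=
  ∑' n : ℕ, ((lam k a n * lam k' b n : ℝ) : ℂ) * (n : ℂ) ^ (-s)

/-- The half plane `Re s > 1/4`. -/
def HP : Set ℂ := {s : ℂ | 1 / 4 < s.re}

/-- The numbers `α ^ m + α ^ (-m)`, for `x = α + α⁻¹`. -/
noncomputable def tw (x : ℝ) : ℕ → ℝ
  | 0 => 2
  | 1 => x
  | (m + 2) => x * tw x (m + 1) - tw x m

/-- The exponent of `n`, if `n` is a prime power. -/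
def ex (n : ℕ) : ℕ := n.factorization n.minFac

open Classical in
/-- The coefficients of the logarithm of the Euler product without the primes in `E`: for
`n = p ^ m`, `p ∉ E`, `m ≥ 1`, the number `tw (x p) m * tw (y p) m / m`, and `0` for other `n`. -/
noncomputable def cc (E : Finset ℕ) (x y : ℕ → ℝ) (n : ℕ) : ℝ :=
  if IsPrimePow n ∧ n.minFac ∉ E then
    tw (x n.minFac) (ex n) * tw (y n.minFac) (ex n) / (ex n : ℝ) else 0

/-- The Dirichlet series of `cc`, at a real point. -/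
noncomputable def CS (E : Finset ℕ) (x y : ℕ → ℝ) (s : ℝ) : ℝ :=
  ∑' n : ℕ, cc E x y n * (n : ℝ) ^ (-s)

end Pool.Agent.Lib.MP_058a58_ag.MT
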