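import Pool.Agent.Lib.MP_058a58_ag.MT.DStm

set_option autoImplicit false

/-!
# Defect form: statements of the pieces on modular forms, Euler products and non-vanishing
-/

open UpperHalfPlane MeasureTheory Filter Topology
open scoped MatrixGroups Modular ComplexConjugate

namespace Pool.Agent.Lib.MP_058a58_ag.MT

/-! ### Continuation of the Rankin-Selberg Dirichlet series -/

/-- **HRC.** The Hecke relation for complex exponents. Proof. As `p_HR` in `P/HR.lean`. -/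
def S_HRC : Prop := ∀ (N N' k p : ℕ) (a b : ℕ → ℝ) (σ : ℂ), HeckeSeq N k a → HeckeSeq N' k b →
  p.Prime → ¬ p ∣ N * N' → Summable (fun n : ℕ => a n ^ 2 * (n : ℝ) ^ (-σ.re)) →
  Summable (fun n : ℕ => b n ^ 2 * (n : ℝ) ^ (-σ.re)) →
  ((b p - a p : ℝ) : ℂ) * ∑' n : ℕ, ((a n * b n : ℝ) : ℂ) * (n : ℂ) ^ (-σ) =
    ((p : ℂ) ^ σ - (p : ℂ) ^ (k - 1)) *
      ∑' n : ℕ, ((upc p a n * b n - a n * upc p b n : ℝ) : ℂ) * (n : ℂ) ^ (-σ)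

/-- **POS.** The Petersson norm is positive. Proof. `Fl k k f f z = ‖f z‖² y^k` is nonnegative, continuous, bounded, and invariant under `Γ₀(N)`, so
under `Γ₀(M)`; `w F` is integrable (`OR_int` in `P/OR.lean`, VOL). If `∫ w F = 0`, then `w F = 0` almost everywhere; as the countably many `γ ∈ Γ₀(M)` preserve
null sets (`OR_mp`, `OR_count`), for almost all `z`: `w (γ z) F z = 0` for all `γ`, and the sum over `γ` is `F z = 0`. `F` is continuous and the measure is positive on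
nonempty open sets (it is `y^(-2) dx dy`), so `f = 0` everywhere. Then PV for `y = 1` gives `∑ a(n)² e^(-4π n) = 0`, contradicting `a 1 = 1`. (Or: by `IsQ.sum` and uniqueness
of Fourier coefficients.) -/
def S_POS : Prop := S_PV → S_VOL → ∀ (N M k : ℕ) (f : ℍ → ℂ) (a : ℕ → ℝ) (R : Finset SL(2, ℤ))
  (w : ℍ → ℝ), 1 ≤ N → N ∣ M → 1 ≤ M → IsForm N k f a → a 1 = 1 → PWt M R w →
  ∃ r : ℝ, 0 < r ∧ ∫ z, (w z : ℂ) * Fl k k f f z = r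

/-- **CNL.** Different weights. Proof. `M = 2 N N'`, `F = Fl (k'+l) k' f g - Fl (k'+l) k' 0 0` (`IsQ` of the zero function with zero coefficients). HL
for the automorphy (`Γ₀(M) ≤ Γ₀(N N')`, as `N N' ∣ M`), `l ≠ 0`; CONT. `DQ K (a b) s = DDc k k' a b s`, `K = (k+k')/2`, as for `n ≥ 1`
`lam k a n * lam k' b n = a n * b n * n^(-(K-1))`, and `a 0 = 0`. -/
def S_CNL : Prop := R_CONT → S_PW → S_HL → ∀ (N N' k' l : ℕ) (f g : ℍ → ℂ) (a b : ℕ → ℝ),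
  Pair N N' (k' + l) k' f g a b → 1 ≤ l → ∃ (M : ℕ) (H : ℂ → ℂ), 1 ≤ M ∧ DifferentiableOn ℂ H HP ∧
    ∀ s : ℂ, 1 < s.re → H s = zM M (2 * s) * DDc (k' + l) k' a b s

/-- **CNE.** Equal weights, different eigenvalues at one prime. Proof. As DBE (`P/DBE.lean`). `M = N N' p`, `l = 0`, `F = Fp p f g = Fl k k (f(p·)) g - Fl k k f (g(p·))`
(UP, HI, OR: `∫ w F = 0`), CONT: `zM M (2s) * DQ k (upc p a b - a upc p b) s = G s`. HRC with `σ = s + k - 1` (MS for the convergence, for `Re s > 2` compare with `Re s = 2`):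
`H s = (p^(s+k-1) - p^(k-1)) / (b p - a p) * G s`. -/
def S_CNE : Prop := R_CONT → S_PW → S_UP → S_HI → R_OR → S_HRC → R_MS →
  ∀ (N N' k : ℕ) (f g : ℍ → ℂ) (a b : ℕ → ℝ), Pair N N' k k f g a b →
  (∃ p : ℕ, p.Prime ∧ ¬ p ∣ N * N' ∧ a p ≠ b p) →
  ∃ (M : ℕ) (H : ℂ → ℂ), 1 ≤ M ∧ DifferentiableOn ℂ H HP ∧
    ∀ s : ℂ, 1 < s.re → H s = zM M (2 * s) * DDc k k a b s

/-- **CND.** The diagonal. Proof. `M = 2 N N`, `l = 0`, `F = Fl k k f f - Fl k k 0 0`, HL, POS, CONT, and `DQ = DDc` as in CNL. -/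
def S_CND : Prop := R_CONT → S_PW → S_HL →
  (∀ (N M k : ℕ) (f : ℍ → ℂ) (a : ℕ → ℝ) (R : Finset SL(2, ℤ))
    (w : ℍ → ℝ), 1 ≤ N → N ∣ M → 1 ≤ M → IsForm N k f a → a 1 = 1 → PWt M R w →
    ∃ r : ℝ, 0 < r ∧ ∫ z, (w z : ℂ) * Fl k k f f z = r) →
  ∀ (N k : ℕ) (f : ℍ → ℂ) (a : ℕ → ℝ), 1 ≤ N → 2 ≤ k → IsForm N k f a → HeckeSeq N k a →
  ∃ (M : ℕ) (ρ : ℝ) (G : ℂ → ℂ), 1 ≤ M ∧ 0 < ρ ∧ DifferentiableOn ℂ G HP ∧
    ∀ s : ℂ, 1 < s.re → G s + ρ / (s - 1) = zM M (2 * s) * DDc k k a a s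

/-- The conclusion of CNL and CNE together: different forms. -/
def R_CNO : Prop := ∀ (N N' k k' : ℕ) (f g : ℍ → ℂ) (a b : ℕ → ℝ), Pair N N' k k' f g a b →
  (k ≠ k' ∨ ∃ p : ℕ, p.Prime ∧ ¬ p ∣ N * N' ∧ a p ≠ b p) →
  ∃ (M : ℕ) (H : ℂ → ℂ), 1 ≤ M ∧ DifferentiableOn ℂ H HP ∧
    ∀ s : ℂ, 1 < s.re → H s = zM M (2 * s) * DDc k k' a b s

/-- The conclusion of CND. -/
def R_CND : Prop := ∀ (N k : ℕ) (f : ℍ → ℂ) (a : ℕ → ℝ), 1 ≤ N → 2 ≤ k → IsForm N k f a →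
  HeckeSeq N k a → ∃ (M : ℕ) (ρ : ℝ) (G : ℂ → ℂ), 1 ≤ M ∧ 0 < ρ ∧ DifferentiableOn ℂ G HP ∧
    ∀ s : ℂ, 1 < s.re → G s + ρ / (s - 1) = zM M (2 * s) * DDc k k a a s

/-! ### Euler products -/

/-- The properties of the coefficients of a form that are used for the Euler products: they follow from `HeckeSeq`, F3, HB, DG. -/
structure ESeq (N k : ℕ) (a : ℕ → ℝ) : Prop where
  hN : 1 ≤ N
  one : lam k a 1 = 1
  zero : lam k a 0 = 0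
  mul : ∀ m n : ℕ, m.Coprime n → lam k a (m * n) = lam k a m * lam k a n
  sat : ∀ p : ℕ, p.Prime → ¬ p ∣ N → ∃ α : ℂ, Sat (lam k a p) (Real.sqrt p) α
  good : ∀ p : ℕ, p.Prime → ¬ p ∣ N → ∀ r, lam k a (p ^ r) = U (lam k a p) r
  bad : ∀ p : ℕ, p.Prime → p ∣ N → |lam k a p| ≤ Real.sqrt p ∧ ∀ r, lam k a (p ^ r) = lam k a p ^ r
  sq : ∀ s : ℝ, 1 < s → Summable (fun n : ℕ => lam k a n ^ 2 * (n : ℝ) ^ (-s))

/-- **EL1.** The local factor at a good prime. Proof. `U x r = ∑_j α^(r-2j)` (`j = 0, .., r`), `tw x m = α^m + α^(-m)` (inductions over the recursions), so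
`|U x r| ≤ (r+1) B^r`, `|tw x m| ≤ 2 B^m`: absolute convergence for `B² ‖u‖ < 1`. As in `P/F1.lean`: `(∑ U_r(x) U_r(y) u^r) * Q = 1 - u²`,
`Q = ∏ (1 - v)` over the four numbers `v = α^(±1) γ^(±1) u`, `‖v‖ ≤ B² ‖u‖ < 1`. `tw x m * tw y m * u^m = ∑_v v^m`, so `∑_{m ≥ 1} tw x m tw y m u^m / m = -∑_v log (1 - v)`
(`Complex.hasSum_taylorSeries_neg_log`), and `exp` of it is `1/Q`. -/
def S_EL1 : Prop := ∀ (x y B : ℝ) (α γ u : ℂ), Sat x B α → Sat y B γ → ‖u‖ < 1 →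
  B ^ 2 * ‖u‖ < 1 →
  Summable (fun r : ℕ => ‖((U x r * U y r : ℝ) : ℂ) * u ^ r‖) ∧
  Summable (fun m : ℕ => ‖((tw x (m + 1) * tw y (m + 1) / ((m : ℝ) + 1) : ℝ) : ℂ) * u ^ (m + 1)‖) ∧
  (∑' r : ℕ, ((U x r * U y r : ℝ) : ℂ) * u ^ r) * (1 - x * y * u + (x ^ 2 + y ^ 2 - 2) * u ^ 2 -
    x * y * u ^ 3 + u ^ 4) = 1 - u ^ 2 ∧
  Complex.exp (∑' m : ℕ, ((tw x (m + 1) * tw y (m + 1) / ((m : ℝ) + 1) : ℝ) : ℂ) * u ^ (m + 1)) *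
    (1 - u ^ 2) = ∑' r : ℕ, ((U x r * U y r : ℝ) : ℂ) * u ^ r

/-- The local factor at `p` of the Dirichlet series with the coefficients `u`. -/
noncomputable def DpC (u : ℕ → ℝ) (s : ℂ) (p : ℕ) : ℂ := ∑' r : ℕ, (u (p ^ r) : ℂ) * ((p : ℂ) ^ (-s)) ^ r

/-- **EPC.** Euler products. Proof. `n ↦ u(n) n^(-s)` is multiplicative and absolutely summable: `EulerProduct.eulerProduct_hasProd`. -/
def S_EPC : Prop := ∀ (u : ℕ → ℝ) (s : ℂ), u 0 = 0 → u 1 = 1 →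
  (∀ m n : ℕ, m.Coprime n → u (m * n) = u m * u n) →
  Summable (fun n : ℕ => |u n| * (n : ℝ) ^ (-s.re)) →
  HasProd (fun p : Nat.Primes => DpC u s p) (∑' n : ℕ, (u n : ℂ) * (n : ℂ) ^ (-s))

/-- **ZMP.** The Euler product of `zM`. Proof. EPC for `u n = 1` if `n ≥ 1` is prime to `M`, `0` otherwise; geometric series. -/
def S_ZMP : Prop := S_EPC → ∀ (M : ℕ) (z : ℂ), 1 ≤ M → 1 < z.re →
  HasProd (fun p : Nat.Primes => if (p : ℕ) ∣ M then (1 : ℂ) else (1 - (p : ℂ) ^ (-z))⁻¹) (zM M z)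

/-- **ELB.** The inverse of a local factor is holomorphic for `Re s > 0`. Proof. Put `u = p^(-s)`, `‖u‖ < 1`; `x = lam k a p`, `y = lam k' b p`. Let `z⁻¹ = 1 - u²` (`p ∤ M`) or `1`.
`p ∤ N N'`: by EL1 `D = (1 - u²)/Q(u)`, take `Q(u) / (1 - u²) * z⁻¹` (for `Re s > 1`, `B = √p`: `B² ‖u‖ = p^(1 - Re s) < 1`). `p ∣ N`, `p ∤ N'`: `D = ∑ (x u)^r U_r(y) = 1/(1 - y x u + x² u²)` (recursion of `U`; convergence as in
`P/F2.lean`), take `(1 - x y u + x² u²) z⁻¹`; `p ∤ N`, `p ∣ N'` in the same way; `p ∣ N`, `p ∣ N'`: `D = 1/(1 - x y u)`, take `(1 - x y u) z⁻¹`. -/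
def S_ELB : Prop := S_EL1 → ∀ (N N' k k' M p : ℕ) (a b : ℕ → ℝ), ESeq N k a → ESeq N' k' b → p.Prime →
  ∃ e : ℂ → ℂ, DifferentiableOn ℂ e {s : ℂ | 0 < s.re} ∧ ∀ s : ℂ, 1 < s.re →
    DpC (fun n => lam k a n * lam k' b n) s p *
      (if p ∣ M then (1 : ℂ) else (1 - (p : ℂ) ^ (-(2 * s)))⁻¹) * e s = 1

/-- **CCP.** The function `cc` and sums over prime powers. Proof. `(p^(m+1)).minFac = p` (`Nat.Prime.pow_minFac`), factorization `m + 1`. The last part: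
`(p, m) ↦ p^(m+1)` is a bijection onto the prime powers (`Nat.Primes.prodNatEquiv`); `Function.Injective.tsum_eq`, `Function.Injective.summable_iff`. -/
def S_CCP : Prop :=
  (∀ (E : Finset ℕ) (x y : ℕ → ℝ) (p m : ℕ), p.Prime → cc E x y (p ^ (m + 1)) =
    if p ∈ E then 0 else tw (x p) (m + 1) * tw (y p) (m + 1) / ((m : ℝ) + 1)) ∧
  (∀ (E : Finset ℕ) (x y : ℕ → ℝ) (n : ℕ), ¬ IsPrimePow n → cc E x y n = 0) ∧
  (∀ h : ℕ → ℂ, (∀ n, ¬ IsPrimePow n → h n = 0) →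
    (Summable h ↔ Summable (fun q : Nat.Primes × ℕ => h ((q.1 : ℕ) ^ (q.2 + 1)))) ∧
    ∑' n, h n = ∑' q : Nat.Primes × ℕ, h ((q.1 : ℕ) ^ (q.2 + 1))) ∧
  ∀ h : ℕ → ℝ, (∀ n, ¬ IsPrimePow n → h n = 0) →
    (Summable h ↔ Summable (fun q : Nat.Primes × ℕ => h ((q.1 : ℕ) ^ (q.2 + 1)))) ∧
    ∑' n, h n = ∑' q : Nat.Primes × ℕ, h ((q.1 : ℕ) ^ (q.2 + 1))

/-- **CCS.** Absolute convergence. Proof. CCP. Let `p ∉ E` be a prime, `x = lam k a p`, `y = lam k' b p`, `α`, `γ` Satake parameters, `v = ‖α‖² p^(-σ) ≤ p^(1-σ) ≤ 2^(1-σ) < 1`, `v' = ‖γ‖² p^(-σ)`.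
`|tw x m| = |α^m + α^(-m)| ≤ 2 ‖α‖^m`, so `|tw x m tw y m| p^(-mσ)/m ≤ 2 (v^m + v'^m)`, with the sum `≤ 2 (v + v')/(1 - 2^(1-σ))` over `m ≥ 1`, and `v ≤ (x² + 2) p^(-σ)` (`LGF_sat` in `P/LGF.lean`), so the sum over
`p` is finite (`ESeq.sq`). -/
def S_CCS : Prop := S_CCP → ∀ (N N' k k' : ℕ) (a b : ℕ → ℝ) (E : Finset ℕ), ESeq N k a → ESeq N' k' b →
  (∀ p : ℕ, p.Prime → p ∣ N * N' → p ∈ E) →
  ∀ σ : ℝ, 1 < σ → Summable (fun n : ℕ => |cc E (lam k a) (lam k' b) n| * (n : ℝ) ^ (-σ))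

/-- **EUL.** The Euler product of the Rankin-Selberg series. Proof. `u(n) = lam k a n * lam k' b n` (multiplicative; `2 |u| ≤ lam² + lam²` for the convergence), EPC for `u` and ZMP for `z = 2s`:
`zM M (2s) DDc = ∏_p D_p z_p`. For `p ∉ E` (so `p ∤ N N' M`): `D_p z_p = exp(∑_m tw tw p^(-ms)/m)` (EL1 with `u = p^(-s)`, `B = √p`), for `p ∈ E`: `D_p z_p e_p = 1` (ELB). Let `e = ∏_{p ∈ E} e_p`. By CCP and CCS
`∑ cc(n) n^(-s) = ∑_p (∑_m ..)`, `exp` of it is the product over the primes `∉ E` of the `exp(∑_m ..)` (`HasSum.cexp`). Compare: `∏_p D_p z_p * ∏_{p ∈ E} e_p`, the function `D_p z_p` for `p ∉ E`, `1` for `p ∈ E` has the product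
`zM M (2s) DDc e` (multiply the `HasProd` with that of a finitely supported function, `hasProd_prod_of_ne_finset_one`). -/
def S_EUL : Prop := S_EL1 → S_EPC →
  (∀ (M : ℕ) (z : ℂ), 1 ≤ M → 1 < z.re →
    HasProd (fun p : Nat.Primes => if (p : ℕ) ∣ M then (1 : ℂ) else (1 - (p : ℂ) ^ (-z))⁻¹) (zM M z)) →
  (∀ (N N' k k' M p : ℕ) (a b : ℕ → ℝ), ESeq N k a → ESeq N' k' b → p.Prime →
    ∃ e : ℂ → ℂ, DifferentiableOn ℂ e {s : ℂ | 0 < s.re} ∧ ∀ s : ℂ, 1 < s.re →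
      DpC (fun n => lam k a n * lam k' b n) s p *
        (if p ∣ M then (1 : ℂ) else (1 - (p : ℂ) ^ (-(2 * s)))⁻¹) * e s = 1) →
  S_CCP →
  (∀ (N N' k k' : ℕ) (a b : ℕ → ℝ) (E : Finset ℕ), ESeq N k a → ESeq N' k' b →
    (∀ p : ℕ, p.Prime → p ∣ N * N' → p ∈ E) →
    ∀ σ : ℝ, 1 < σ → Summable (fun n : ℕ => |cc E (lam k a) (lam k' b) n| * (n : ℝ) ^ (-σ))) →
  ∀ (N N' k k' M : ℕ) (a b : ℕ → ℝ) (E : Finset ℕ), ESeq N k a → ESeq N' k' b → 1 ≤ M →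
  (∀ p ∈ E, p.Prime) → (∀ p : ℕ, p.Prime → p ∣ N * N' * M → p ∈ E) →
  ∃ e : ℂ → ℂ, DifferentiableOn ℂ e {s : ℂ | 0 < s.re} ∧ ∀ s : ℂ, 1 < s.re →
    zM M (2 * s) * DDc k k' a b s * e s =
      Complex.exp (∑' n : ℕ, ((cc E (lam k a) (lam k' b) n : ℝ) : ℂ) * (n : ℂ) ^ (-s))

/-- The conclusion of CCS. -/
def R_CCS : Prop := ∀ (N N' k k' : ℕ) (a b : ℕ → ℝ) (E : Finset ℕ), ESeq N k a → ESeq N' k' b →
  (∀ p : ℕ, p.Prime → p ∣ N * N' → p ∈ E) →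
  ∀ σ : ℝ, 1 < σ → Summable (fun n : ℕ => |cc E (lam k a) (lam k' b) n| * (n : ℝ) ^ (-σ))

/-- The conclusion of EUL. -/
def R_EUL : Prop := ∀ (N N' k k' M : ℕ) (a b : ℕ → ℝ) (E : Finset ℕ), ESeq N k a → ESeq N' k' b → 1 ≤ M →
  (∀ p ∈ E, p.Prime) → (∀ p : ℕ, p.Prime → p ∣ N * N' * M → p ∈ E) →
  ∃ e : ℂ → ℂ, DifferentiableOn ℂ e {s : ℂ | 0 < s.re} ∧ ∀ s : ℂ, 1 < s.re →
    zM M (2 * s) * DDc k k' a b s * e s =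
      Complex.exp (∑' n : ℕ, ((cc E (lam k a) (lam k' b) n : ℝ) : ℂ) * (n : ℂ) ^ (-s))

/-! ### Non-vanishing -/

/-- **LAND.** Landau's theorem for the exponential of a Dirichlet series with nonnegative coefficients. Proof. Let `L(s) = ∑ c(n) n^(-s)` (`LSeries`, `Re s > 1`), `ℓ_j = (-1)^j L^(j)(2) = ∑ c(n) (log n)^j n^(-2) ≥ 0`
(`LSeries_iteratedDeriv`; see `LSeries.iteratedDeriv_alternating`), `g_j = (-1)^j F^(j)(2)`; `g_0 = F(2) = exp(L(2)) > 0`. On `Re s > 1`: `F' = L' F`, so by Leibniz' rule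
`g_{j+1} = ∑_{i ≤ j} (j choose i) ℓ_{i+1} g_{j-i}`; by induction `g_j ≥ 0`, and the term `i = j` gives `g_{j+1} ≥ ℓ_{j+1} g_0`. The ball of radius `7/4` around `2` is contained in `HP`, so
`∑ g_j x^j/j! = F(2 - x)` converges for `0 ≤ x < 7/4` (`Complex.hasSum_taylorSeries_on_ball`), hence `∑_j ℓ_j x^j/j!` converges, and by Tonelli
`∑_n c(n) n^(-2) ∑_j (x log n)^j/j! = ∑ c(n) n^(-(2-x))` converges: all `σ = 2 - x` in `(1/4, 2]`. -/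
def S_LAND : Prop := ∀ (c : ℕ → ℝ) (F : ℂ → ℂ), (∀ n, 0 ≤ c n) →
  (∀ σ : ℝ, 1 < σ → Summable (fun n : ℕ => c n * (n : ℝ) ^ (-σ))) → DifferentiableOn ℂ F HP →
  (∀ s : ℂ, 1 < s.re → F s = Complex.exp (∑' n : ℕ, (c n : ℂ) * (n : ℂ) ^ (-s))) →
  ∀ σ : ℝ, 1 / 4 < σ → Summable (fun n : ℕ => c n * (n : ℝ) ^ (-σ))

/-- **KEY.** Proof. `|h| ≤ h²/(2κ) + κ/2`, so `RR h s ≤ (1/(2κ)) ∑ h(p)² p^(-1) + (κ/2) RR 1 s`, and `RR 1 s ≤ log (1/(s-1)) + C'` (`TatePole.hasMean_one`); so `(κ/2) log (1/(s-1))` is bounded near `1`.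
(`h p p^(-s)` is summable for `s > 1` by the same inequality.) -/
def S_KEY : Prop := ∀ (h : ℕ → ℝ) (κ C : ℝ), 0 < κ →
  Summable (fun p : Nat.Primes => h p ^ 2 * ((p : ℕ) : ℝ) ^ (-1 : ℝ)) →
  (∀ᶠ s in 𝓝[>] (1 : ℝ), κ * Real.log (1 / (s - 1)) - C ≤ TatePole.RR h s) → False

/-- The bound for the mean square of the eigenvalues (from GR). -/
def R_MSQ : Prop := ∀ (N k : ℕ) (f : ℍ → ℂ) (a : ℕ → ℝ), 1 ≤ N → 2 ≤ k → IsForm N k f a →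
  HeckeSeq N k a → ∃ C : ℝ, ∀ s : ℝ, 1 < s → s ≤ 2 →
    TatePole.RR (fun p => th N k a p * th N k a p) s ≤ Real.log (1 / (s - 1)) + C

/-- The coefficients of a form are an `ESeq`. -/
def R_ES : Prop := ∀ (N k : ℕ) (f : ℍ → ℂ) (a : ℕ → ℝ), 1 ≤ N → 2 ≤ k → IsForm N k f a →
  HeckeSeq N k a → ESeq N k a

/-- **NZD.** The diagonal. Proof. Let `M`, `ρ`, `G` be from CND, `E₀` the set of the primes dividing `N M`, `E ⊇ E₀`, `e` from EUL (for the pair `(a, a)`), `x = lam k a`, `c = cc E x x ≥ 0`: for `Re s > 1`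
`(G s + ρ/(s-1)) e(s) = exp(∑ c(n) n^(-s))`. CLAIM: `e(1) ≠ 0`. Otherwise `F = G e + ρ dslope e 1` is differentiable on `HP` (`Complex.differentiableOn_dslope`) and equals `exp(∑ c(n) n^(-s))` for `Re s > 1`, so by LAND (convergence for `σ > 1`:
CCS) `∑ c(n) n^(-1/2)` converges, in particular the sum over the `n = p²` (CCP): `∑_{p ∉ E} (x_p² - 2)²/2 p^(-1) < ∞`. KEY with `h p = 2 - x_p²` for `p ∉ E`, `h p = 0` for `p ∈ E`, `κ = 1`: `RR h ≥ 2 RR 1 - RR(th²) - C ≥ log(1/(s-1)) - C'`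
(R_MSQ; `th N k a p = x_p` for `p ∉ E`; `TatePole.hasMean_one`), a contradiction. So for real `s → 1`: `(s - 1) exp(CS E x x s) = ((s-1) G(s) + ρ) e(s) → ρ e(1) ≠ 0`; the left side is a positive real number, so the limit is a positive real number,
and `CS E x x s - log(1/(s-1)) → log(ρ e(1))`. -/
def S_NZD : Prop := R_CND → R_ES → R_MSQ → R_CCS → R_EUL → S_CCP → S_LAND → S_KEY →
  ∀ (N k : ℕ) (f : ℍ → ℂ) (a : ℕ → ℝ), 1 ≤ N → 2 ≤ k → IsForm N k f a → HeckeSeq N k a →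
  ∃ E₀ : Finset ℕ, (∀ p ∈ E₀, p.Prime) ∧ (∀ p : ℕ, p.Prime → p ∣ N → p ∈ E₀) ∧
    ∀ E : Finset ℕ, (∀ p ∈ E, p.Prime) → E₀ ⊆ E → ∃ g₀ : ℝ,
      Tendsto (fun s : ℝ => CS E (lam k a) (lam k a) s - Real.log (1 / (s - 1))) (𝓝[>] 1) (𝓝 g₀)

/-- **NZO.** Different forms. Proof. `M₁, ρ₁, G₁` and `M₂, ρ₂, G₂` from CND for `f` and `g`, `M₃, H` from R_CNO, `E₀` the set of the primes dividing `N N' M₁ M₂ M₃`, `E ⊇ E₀`, `e₁, e₂, e₃` from EUL for the pairs `(a, a)`, `(b, b)`, `(a, b)`; `L = H e₃`.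
CLAIM: `L(1) ≠ 0`. Otherwise `F(s) = ((s-1) G₁ + ρ₁) e₁ * ((s-1) G₂ + ρ₂) e₂ * (dslope L 1 s)²` is differentiable on `HP`, and for `Re s > 1` it equals `(G₁ + ρ₁/(s-1)) e₁ (G₂ + ρ₂/(s-1)) e₂ L² = exp(∑ c(n) n^(-s))`,
`c = cc E x x + cc E y y + 2 cc E x y`, `x = lam k a`, `y = lam k' b`. At `n = p^m`, `p ∉ E`: `c(n) = (tw x m + tw y m)²/m ≥ 0`. LAND with `σ = 1/2` and the `n = p²`: `∑_{p ∉ E} (x_p² + y_p² - 4)²/2 p^(-1) < ∞`. KEY with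
`h p = 4 - x_p² - y_p²` (`p ∉ E`), `κ = 2`, R_MSQ for both forms: a contradiction. So `exp(CS E x y s) = L(s) → L(1) ≠ 0` for real `s → 1`, the limit is a positive real number, and `CS E x y s → log L(1)`. -/
def S_NZO : Prop := R_CND → R_CNO → R_ES → R_MSQ → R_CCS → R_EUL → S_CCP → S_LAND → S_KEY →
  ∀ (N N' k k' : ℕ) (f g : ℍ → ℂ) (a b : ℕ → ℝ), Pair N N' k k' f g a b →
  (k ≠ k' ∨ ∃ p : ℕ, p.Prime ∧ ¬ p ∣ N * N' ∧ a p ≠ b p) →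
  ∃ E₀ : Finset ℕ, (∀ p ∈ E₀, p.Prime) ∧ (∀ p : ℕ, p.Prime → p ∣ N * N' → p ∈ E₀) ∧
    ∀ E : Finset ℕ, (∀ p ∈ E, p.Prime) → E₀ ⊆ E → ∃ g₀ : ℝ,
      Tendsto (fun s : ℝ => CS E (lam k a) (lam k' b) s) (𝓝[>] 1) (𝓝 g₀)

/-- The conclusion of NZD. -/
def R_NZD : Prop := ∀ (N k : ℕ) (f : ℍ → ℂ) (a : ℕ → ℝ), 1 ≤ N → 2 ≤ k → IsForm N k f a →
  HeckeSeq N k a →
  ∃ E₀ : Finset ℕ, (∀ p ∈ E₀, p.Prime) ∧ (∀ p : ℕ, p.Prime → p ∣ N → p ∈ E₀) ∧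
    ∀ E : Finset ℕ, (∀ p ∈ E, p.Prime) → E₀ ⊆ E → ∃ g₀ : ℝ,
      Tendsto (fun s : ℝ => CS E (lam k a) (lam k a) s - Real.log (1 / (s - 1))) (𝓝[>] 1) (𝓝 g₀)

/-- The conclusion of NZO. -/
def R_NZO : Prop := ∀ (N N' k k' : ℕ) (f g : ℍ → ℂ) (a b : ℕ → ℝ), Pair N N' k k' f g a b →
  (k ≠ k' ∨ ∃ p : ℕ, p.Prime ∧ ¬ p ∣ N * N' ∧ a p ≠ b p) →
  ∃ E₀ : Finset ℕ, (∀ p ∈ E₀, p.Prime) ∧ (∀ p : ℕ, p.Prime → p ∣ N * N' → p ∈ E₀) ∧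
    ∀ E : Finset ℕ, (∀ p ∈ E, p.Prime) → E₀ ⊆ E → ∃ g₀ : ℝ,
      Tendsto (fun s : ℝ => CS E (lam k a) (lam k' b) s) (𝓝[>] 1) (𝓝 g₀)

/-- **JMP.** No atoms. Proof. For `r ≥ 1` put `q(x) = (4 x (1 - x))^r = ∑_{k=r}^{2r} b_k x^k`, `∑ b_k = q(1) = 0`, `I_r = -∑ b_k log k`. Let `ℓ(u) = ∑ c(n) n^(-1-u)`. For `u > 0`: `∑ (c(n)/n) q(n^(-u)) = ∑_k b_k ℓ(k u)`,
which tends to `∑ b_k (log(1/k) + log(1/u) + g₀) = I_r` as `u → 0+`. All the terms `(c(n)/n) q(n^(-u))`, `n ≥ 1`, are nonnegative, and for `u = log 2/log n` (`n ≥ 2`) `q(n^(-u)) = q(1/2) = 1`. So `c(n)/n ≤ I_r + ε` for all large `n`.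
It remains to see that `I_r → 0` for `r → ∞`: `I_r = ∫_0^∞ q(e^(-t)) dt/t`. (For `δ > 0`, with `E(x) = ∫_x^∞ e^(-t) dt/t`: `∫_δ^∞ q(e^(-t)) dt/t = ∑ b_k E(kδ) = -∑ b_k ∫_δ^(kδ) e^(-t) dt/t = -∑ b_k log k + O(δ)`.) The integrand
`(4 e^(-t) (1 - e^(-t)))^r / t` is at most `4 e^(-t)` and tends to `0` for `t ≠ log 2`: dominated convergence. -/
def S_JMP : Prop := ∀ (c : ℕ → ℝ) (g₀ : ℝ), (∀ n, 0 ≤ c n) →
  (∀ s : ℝ, 1 < s → Summable (fun n : ℕ => c n * (n : ℝ) ^ (-s))) →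
  Tendsto (fun s : ℝ => ∑' n : ℕ, c n * (n : ℝ) ^ (-s) - Real.log (1 / (s - 1))) (𝓝[>] 1) (𝓝 g₀) →
  Tendsto (fun n : ℕ => c n / n) atTop (𝓝 0)

/-- **REM.** The terms `m ≥ 2` are negligible. Proof. CCP. Let `E₀` be as in NZD, `x = lam k a`. By JMP for `c = cc E₀ x x` (`c(p) = x_p²` for `p ∉ E₀`), `x_p²/p → 0`; choose `P₀` with `(x_p² + 2)/p ≤ η/16` for the primes
`p > P₀` (and `η ≤ 1` without restriction), `E₁ = E₀ ∪ {p ≤ P₀}`. Let `E ⊇ E₁`, `p ∉ E`, `α` a Satake parameter of `x_p`, `v = ‖α‖² p^(-s) ≤ (x_p² + 2) p^(-s) ≤ η/16`. `tw x m² ≤ 4 ‖α‖^(2m)`, so `∑_{m ≥ 2} tw x m² p^(-ms)/m ≤ 2 v²/(1 - v) ≤ 4 v²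
≤ (η/4) (x_p² + 2) p^(-s)`, and `∑_p (x_p² + 2) p^(-s) ≤ 3 log(1/(s-1)) + C` (R_MSQ, `th = lam` at the `p ∉ E`). -/
def S_REM : Prop := R_NZD → S_JMP → S_CCP → R_ES → R_MSQ → R_CCS →
  ∀ (N k : ℕ) (f : ℍ → ℂ) (a : ℕ → ℝ), 1 ≤ N → 2 ≤ k → IsForm N k f a → HeckeSeq N k a →
  ∀ η : ℝ, 0 < η → ∃ E₁ : Finset ℕ, (∀ p ∈ E₁, p.Prime) ∧ (∀ p : ℕ, p.Prime → p ∣ N → p ∈ E₁) ∧
    ∀ E : Finset ℕ, (∀ p ∈ E, p.Prime) → E₁ ⊆ E → ∀ᶠ s in 𝓝[>] (1 : ℝ),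
      Summable (fun q : Nat.Primes × ℕ => if (q.1 : ℕ) ∈ E then 0 else
        tw (lam k a q.1) (q.2 + 2) ^ 2 / ((q.2 : ℝ) + 2) * (((q.1 : ℕ) : ℝ) ^ (-s)) ^ (q.2 + 2)) ∧
      ∑' q : Nat.Primes × ℕ, (if (q.1 : ℕ) ∈ E then 0 else
        tw (lam k a q.1) (q.2 + 2) ^ 2 / ((q.2 : ℝ) + 2) * (((q.1 : ℕ) : ℝ) ^ (-s)) ^ (q.2 + 2)) ≤
        η * Real.log (1 / (s - 1))

/-- The conclusion of REM. -/
def R_REM : Prop :=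
  ∀ (N k : ℕ) (f : ℍ → ℂ) (a : ℕ → ℝ), 1 ≤ N → 2 ≤ k → IsForm N k f a → HeckeSeq N k a →
  ∀ η : ℝ, 0 < η → ∃ E₁ : Finset ℕ, (∀ p ∈ E₁, p.Prime) ∧ (∀ p : ℕ, p.Prime → p ∣ N → p ∈ E₁) ∧
    ∀ E : Finset ℕ, (∀ p ∈ E, p.Prime) → E₁ ⊆ E → ∀ᶠ s in 𝓝[>] (1 : ℝ),
      Summable (fun q : Nat.Primes × ℕ => if (q.1 : ℕ) ∈ E then 0 else
        tw (lam k a q.1) (q.2 + 2) ^ 2 / ((q.2 : ℝ) + 2) * (((q.1 : ℕ) : ℝ) ^ (-s)) ^ (q.2 + 2)) ∧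
      ∑' q : Nat.Primes × ℕ, (if (q.1 : ℕ) ∈ E then 0 else
        tw (lam k a q.1) (q.2 + 2) ^ 2 / ((q.2 : ℝ) + 2) * (((q.1 : ℕ) : ℝ) ^ (-s)) ^ (q.2 + 2)) ≤
        η * Real.log (1 / (s - 1))

/-- **GM2.** The two-sided Gram matrix. Proof. Let `E` contain the sets `E₀` of NZD and NZO and the sets `E₁` of REM (for `f` and `g`, `η/4`), and the primes dividing `N N'`. By CCP
`CS E x y s = ∑_{p ∉ E} x_p y_p p^(-s) + ∑_{p ∉ E} ∑_{m ≥ 2} tw x m tw y m p^(-ms)/m`, and the second sum is at most half the sum of the two sums of REM in absolute value (`2 |t t'| ≤ t² + t'²`). `CS E x y s` is `log(1/(s-1)) + O(1)` for `f = g` (NZD), `O(1)` for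
different forms (NZO), and `RR(th th') s - ∑_{p ∉ E} x_p y_p p^(-s)` is a sum over the finitely many primes in `E`, so bounded for `1 < s ≤ 2`. Finally `O(1) ≤ (η/2) log(1/(s-1))` near `1`. -/
def S_GM2 : Prop := R_NZD → R_NZO → R_REM → S_CCP → R_ES → R_CCS →
  ∀ (N N' k k' : ℕ) (f g : ℍ → ℂ) (a b : ℕ → ℝ), Pair N N' k k' f g a b → ∀ η : ℝ, 0 < η →
    (∀ᶠ s in 𝓝[>] (1 : ℝ),
      |TatePole.RR (fun p => th N k a p * th N k a p) s - Real.log (1 / (s - 1))| ≤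
        η * Real.log (1 / (s - 1))) ∧
    ((k ≠ k' ∨ ∃ p : ℕ, p.Prime ∧ ¬ p ∣ N * N' ∧ a p ≠ b p) →
      ∀ᶠ s in 𝓝[>] (1 : ℝ), |TatePole.RR (fun p => th N k a p * th N' k' b p) s| ≤
        η * Real.log (1 / (s - 1)))

/-- The conclusion of GM2. -/
def R_GM2 : Prop :=
  ∀ (N N' k k' : ℕ) (f g : ℍ → ℂ) (a b : ℕ → ℝ), Pair N N' k k' f g a b → ∀ η : ℝ, 0 < η →
    (∀ᶠ s in 𝓝[>] (1 : ℝ),
      |TatePole.RR (fun p => th N k a p * th N k a p) s - Real.log (1 / (s - 1))| ≤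
        η * Real.log (1 / (s - 1))) ∧
    ((k ≠ k' ∨ ∃ p : ℕ, p.Prime ∧ ¬ p ∣ N * N' ∧ a p ≠ b p) →
      ∀ᶠ s in 𝓝[>] (1 : ℝ), |TatePole.RR (fun p => th N k a p * th N' k' b p) s| ≤
        η * Real.log (1 / (s - 1)))

end Pool.Agent.Lib.MP_058a58_ag.MT
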