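import Mathlib

set_option autoImplicit false

/-!
# Twists by modular forms: definitions

Sequences of Hecke eigenvalues, functions on the upper half plane with a `q`-expansion, a test
function on the plane, partition weights for `Γ₀(M)`.
-/

open UpperHalfPlane MeasureTheory Filter Topology
open scoped MatrixGroups Modular

namespace Pool.Agent.Lib.MP_058a58_ag.MT

/-! ### Coefficients -/

/-- The coefficients `a n` of a normalised eigenform of weight `k` for `Γ₀(N)`, with trivial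
character, of all Hecke operators. -/
structure HeckeSeq (N k : ℕ) (a : ℕ → ℝ) : Prop where
  zero : a 0 = 0
  one : a 1 = 1
  mul : ∀ m n : ℕ, m.Coprime n → a (m * n) = a m * a n
  good : ∀ p : ℕ, p.Prime → ¬ p ∣ N → ∀ r : ℕ,
    a (p ^ (r + 2)) = a p * a (p ^ (r + 1)) - (p : ℝ) ^ (k - 1) * a (p ^ r)
  bad : ∀ p : ℕ, p.Prime → p ∣ N → ∀ r : ℕ, a (p ^ (r + 1)) = a p * a (p ^ r)

/-- The normalised coefficients. -/
noncomputable def lam (k : ℕ) (a : ℕ → ℝ) (n : ℕ) : ℝ := a n / (n : ℝ) ^ (((k : ℝ) - 1) / 2)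

/-- The normalised coefficient at `p`, and `0` at the primes dividing the level. -/
noncomputable def th (N k : ℕ) (a : ℕ → ℝ) (p : ℕ) : ℝ := if p ∣ N then 0 else lam k a p

/-- The coefficients of `f(pz)`. -/
def upc (p : ℕ) (a : ℕ → ℝ) (n : ℕ) : ℝ := if p ∣ n then a (n / p) else 0

/-! ### Functions on the upper half plane -/

/-- `c z + d` -/
noncomputable def jf (γ : SL(2, ℤ)) (z : ℍ) : ℂ := (γ 1 0 : ℂ) * z + (γ 1 1 : ℂ)

/-- A continuous function with a `q`-expansion, `‖f z‖ ≤ C * y ^ (-k / 2)`. -/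
structure IsQ (k : ℕ) (f : ℍ → ℂ) (a : ℕ → ℝ) : Prop where
  cont : Continuous f
  bdd : ∃ C : ℝ, ∀ z : ℍ, ‖f z‖ * z.im ^ ((k : ℝ) / 2) ≤ C
  zero : a 0 = 0
  sum : ∀ z : ℍ, HasSum (fun n : ℕ => (a n : ℂ) * Complex.exp (2 * Real.pi * Complex.I * n * z))
    (f z)

/-- The properties of a cusp form of weight `k` for `Γ₀(N)` that are used. -/
structure IsForm (N k : ℕ) (f : ℍ → ℂ) (a : ℕ → ℝ) : Prop extends IsQ k f a where
  mod : ∀ γ ∈ CongruenceSubgroup.Gamma0 N, ∀ z : ℍ, f (γ • z) = jf γ z ^ k * f z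

/-- `z ↦ p z` -/
noncomputable def dil (p : ℕ) (hp : 0 < p) (z : ℍ) : ℍ := ⟨(p : ℂ) * z, by
  have h1 : (0 : ℝ) < p := by exact_mod_cast hp
  simpa using mul_pos h1 z.im_pos⟩

/-! ### The test function -/

/-- The cut-off power `y ^ s / (1 + y) ^ (l + 4)`. -/
noncomputable def hh (l : ℕ) (s y : ℝ) : ℝ := y ^ s / (1 + y) ^ (l + 4)

/-- The function `(v / |v|) ^ l * hh l s (|v| ^ (-2))` on the plane. -/
noncomputable def phi (l : ℕ) (s : ℝ) (v : ℂ) : ℂ :=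
  v ^ l * (((‖v‖ ^ 2) ^ ((l : ℝ) / 2 + 4 - s) / (1 + ‖v‖ ^ 2) ^ (l + 4) : ℝ) : ℂ)

/-- The sum of `hh (y / n ^ 2)` over the `n ≥ 1` prime to `M`. -/
noncomputable def ht (M l : ℕ) (s y : ℝ) : ℝ :=
  ∑' n : ℕ, if 1 ≤ n ∧ n.Coprime M then hh l s (y / (n : ℝ) ^ 2) else 0

/-- The vectors `(c z + d) / √y` of the lattice of covolume `1` belonging to `z`. -/
noncomputable def vz (z : ℍ) (c d : ℤ) : ℂ := ((c : ℂ) * z + d) / (Real.sqrt z.im : ℂ)

open Classical in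
/-- The sum of `phi` over the pairs `(c, d)` with `M ∣ c`, `d` prime to `M`. -/
noncomputable def Zs (M l : ℕ) (s : ℝ) (z : ℍ) : ℂ :=
  ∑' v : ℤ × ℤ, if (M : ℤ) ∣ v.1 ∧ IsCoprime v.2 (M : ℤ) then phi l s (vz z v.1 v.2) else 0

/-- The strip `0 ≤ x < 1`. -/
def strip : Set ℍ := {z | 0 ≤ z.re ∧ z.re < 1}

/-- A partition weight for `Γ₀(M)`. -/
structure PWt (M : ℕ) (R : Finset SL(2, ℤ)) (w : ℍ → ℝ) : Prop where
  meas : Measurable w
  nn : ∀ z, 0 ≤ w z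
  le : ∀ z, w z ≤ 1
  sum : ∀ z : ℍ, HasSum (fun γ : CongruenceSubgroup.Gamma0 M => w ((γ : SL(2, ℤ)) • z)) 1
  supp : ∀ z, w z ≠ 0 → ∃ δ ∈ R, δ • z ∈ 𝒟

end Pool.Agent.Lib.MP_058a58_ag.MT
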