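import Pool.Agent.Lib.MP_058a58_ag.Defs
import Pool.Agent.Lib.MP_058a58_ag.MT.Defs

set_option autoImplicit false

/-!
# Twists by modular forms: the definitions of the final statement
-/

open Polynomial Filter Topology UpperHalfPlane
open scoped MatrixGroups

namespace TatePole

/-- For a finite-dimensional `ℓ`-adic representation `(ρ, W)` of the absolute Galois group of `ℚ`,
an embedding `ι` of `ℚ_ℓ` into `ℂ` and a prime `p`: the representation is unramified at `p`, the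
complex polynomial `P` is `det (1 - T · Frob_p | W)` (with `Frob_p` a geometric Frobenius), and `W`
is pure of weight `w` at `p`: all zeros of `P` have absolute value `p ^ (-w / 2)`. -/
structure IsWeightFactor {ℓ : ℕ} [Fact ℓ.Prime] {W : Type*} [AddCommGroup W]
    [Module ℚ_[ℓ] W] [FiniteDimensional ℚ_[ℓ] W] (ρ : Representation ℚ_[ℓ] GQ W)
    (ι : ℚ_[ℓ] →+* ℂ) (w : ℤ) (p : ℕ) (P : ℂ[X]) : Prop where
  unramified : ∀ 𝔓 : Ideal ZBar, 𝔓.IsPrime → (p : ZBar) ∈ 𝔓 → ∀ τ : GQ, IsInertia 𝔓 τ → ρ τ = 1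
  eq_det : ∀ 𝔓 : Ideal ZBar, 𝔓.IsPrime → (p : ZBar) ∈ 𝔓 → ∀ σ : GQ, IsArithFrob p 𝔓 σ →
    P = ((ρ σ⁻¹).charpoly.map ι).reverse
  pure : ∀ z : ℂ, P.eval z = 0 → ‖z‖ = (p : ℝ) ^ (-(w : ℝ) / 2)

/-- `f` is a cusp form of weight `k` for `Γ₀(N)` (trivial character) with real Fourier coefficients
`a n`, a normalised eigenform of all Hecke operators: `a 1 = 1`, `a (m n) = a m * a n` for coprime
`m`, `n`, `a (p ^ (r+2)) = a p * a (p ^ (r+1)) - p ^ (k-1) * a (p ^ r)` for the primes `p` that do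
not divide `N` and `a (p ^ (r+1)) = a p * a (p ^ r)` for those that do. -/
structure IsHeckeForm (N k : ℕ) (f : CuspForm (CongruenceSubgroup.Gamma0 N : Subgroup (GL (Fin 2) ℝ)) k)
    (a : ℕ → ℝ) : Prop where
  coeff : ∀ n : ℕ, (UpperHalfPlane.qExpansion 1 f).coeff n = (a n : ℂ)
  one : a 1 = 1
  mul : ∀ m n : ℕ, m.Coprime n → a (m * n) = a m * a n
  good : ∀ p : ℕ, p.Prime → ¬ p ∣ N → ∀ r : ℕ,
    a (p ^ (r + 2)) = a p * a (p ^ (r + 1)) - (p : ℝ) ^ (k - 1) * a (p ^ r)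
  bad : ∀ p : ℕ, p.Prime → p ∣ N → ∀ r : ℕ, a (p ^ (r + 1)) = a p * a (p ^ r)

/-- `Q = P(α T) P(β T)`, where `X² - a_p X + p^(k-1) = (X - α) (X - β)`: the local factor at `p` of the
tensor product of `W` with the two-dimensional representations of `f`, if `P` is that of `W`. -/
def IsModTwist (k p : ℕ) (ap : ℝ) (P Q : ℂ[X]) : Prop :=
  ∃ α β : ℂ, α + β = ap ∧ α * β = (p : ℂ) ^ (k - 1) ∧
    Q = P.comp (C α * X) * P.comp (C β * X)

/-- The edge `(w + k + 1) / 2` of absolute convergence of `L(W ⊗ f, s)`. -/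
noncomputable def edge (w : ℤ) (k : ℕ) : ℝ := ((w : ℝ) + k + 1) / 2

/-- The `Q p` are the local factors of `W ⊗ f` at the primes `p` outside of the finite set `S` that
do not divide the level `N` of `f`, and do not vanish at `p ^ (-edge)`, for any prime `p`. -/
def ModFactors (w : ℤ) (S : Finset ℕ) (P : ℕ → ℂ[X]) (N k : ℕ) (a : ℕ → ℝ) (Q : ℕ → ℂ[X]) : Prop :=
  (∀ p : ℕ, p.Prime → p ∉ S → ¬ p ∣ N → IsModTwist k p (a p) (P p) (Q p)) ∧
  ∀ p : ℕ, p.Prime → (Q p).eval ((p : ℂ) ^ (-(edge w k : ℂ))) ≠ 0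

/-- `log |L(W ⊗ f, s)|` at `s = edge + t`, where `L(s) = ∏_p Q_p(p^(-s))⁻¹`. -/
noncomputable def logMod (w : ℤ) (k : ℕ) (Q : ℕ → ℂ[X]) (t : ℝ) : ℝ :=
  Real.log ‖LFun Q 0 ((edge w k + t : ℝ) : ℂ)‖

end TatePole
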