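import Pool.Agent.Lib.MP_058a58_ag.MT.FDefs

set_option autoImplicit false

/-!
# Twists by modular forms: the Rankin-Selberg square of `W`
-/

open Polynomial Filter Topology
open scoped TensorProduct

namespace TatePole

/-- The representation `W ⊗ W^∨`, of weight `0`. -/
noncomputable def adRep {k : Type*} [Field k] {W : Type*} [AddCommGroup W] [Module k W]
    (ρ : Representation k GQ W) : Representation k GQ (W ⊗[k] Module.Dual k W) :=
  ρ.tprod ρ.dual

/-- The `N p` are the local factors of `W ⊗ W^∨` at the primes `p` outside of the finite set `S'`, and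
do not vanish at `1 / p` for the primes `p` in `S'`. -/
def AdFactors {ℓ : ℕ} [Fact ℓ.Prime] {W : Type*} [AddCommGroup W]
    [Module ℚ_[ℓ] W] [FiniteDimensional ℚ_[ℓ] W] (ρ : Representation ℚ_[ℓ] GQ W)
    (ι : ℚ_[ℓ] →+* ℂ) (S' : Finset ℕ) (N : ℕ → ℂ[X]) : Prop :=
  (∀ p : ℕ, p.Prime → p ∉ S' → IsPureLocalFactor (adRep ρ) ι p (N p)) ∧
  ∀ p ∈ S', p.Prime → (N p).eval ((p : ℂ)⁻¹) ≠ 0

end TatePole
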