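import Pool.Agent.Lib.MP_058a58_ag.MT.Defs

set_option autoImplicit false

/-!
# Twists by modular forms: statements of the pieces on lattice sums and unfolding

Every statement `S_x` has a complete proof in words; `S_x` of other pieces may be used as
hypotheses exactly as written.

Overview. `F` is a bounded continuous function with `F (γ z) = (j / |j|) ^ l * F z` for `γ` in
`Γ₀(M)`. The integral of `F z * ht M l s y` over the strip `0 ≤ x < 1` is the integral of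
`w z * F z * Zs M l s z` over the upper half plane, `w` a partition weight (AU, CO). The lattice sum
`Zs` is a constant `κ` (depending on `s`, zero for `l ≠ 0`) plus `O(√y)` on all translates of the
fundamental domain, uniformly for `1 < s ≤ 2` (LSP), so the integral is `κ * ∫ w F + O(1)` (MAIN).
-/

open UpperHalfPlane MeasureTheory Filter Topology
open scoped MatrixGroups Modular

namespace Pool.Agent.Lib.MP_058a58_ag.MT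

/-! ### Lattice sums -/

/-- **EM.** Comparison of a sum with an integral in one variable.
Proof. For every integer `n`: `M * g (r + M n) - ∫ g over (r + M n, r + M (n+1))` is
`∫ (g (r + M n) - g x) dx`, and `‖g (r + M n) - g x‖ ≤ ∫ ‖g'‖` over `(r + M n, r + M (n+1))`
(fundamental theorem of calculus). So `‖M * g (r + M n) - ∫_{I_n} g‖ ≤ M * ∫_{I_n} ‖g'‖`; sum over `n`
(`∫ g = ∑ ∫_{I_n} g`, `MeasureTheory.hasSum_integral_iUnion` for the intervals `Ioc`). -/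
def S_EM : Prop := ∀ (M r : ℝ) (g g' : ℝ → ℂ), 0 < M → (∀ x, HasDerivAt g (g' x) x) →
  Integrable g → Integrable g' →
  Summable (fun n : ℤ => g (r + M * n)) ∧
    ‖(M : ℂ) * ∑' n : ℤ, g (r + M * n) - ∫ x, g x‖ ≤ M * ∫ x, ‖g' x‖

/-- **PB.** Simple properties of `phi`. Proof. `B = l / 2 + 4 - s ≥ 2`, `T = ‖v‖ ^ 2`.
(a) `0 ^ B = 0`. (b) continuity: `Real.continuous_rpow_const` with a nonnegative exponent.
(c) for `v ≠ 0`: `(v / ‖v‖) ^ l * hh l s (‖v‖ ^ (-2)) = v ^ l * ‖v‖ ^ (-l) * T ^ (-s) * T ^ (l+4) / (1 + T) ^ (l+4)`.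
(d) `T ^ (l/2 + B) / (1 + T) ^ (l+4) ≤ (1 + T) ^ (l/2 + B - l - 4) = (1 + T) ^ (-s)` and `1 + ξ² + η² ≥ √((1+ξ²)(1+η²))`.
(e) `phi l s (u * v) = u ^ l * phi l s v` if `‖u‖ = 1`. (f) from (c). -/
def S_PB : Prop := ∀ (l : ℕ) (s : ℝ), 1 < s → s ≤ 2 →
  phi l s 0 = 0 ∧ Continuous (phi l s) ∧
  (∀ v : ℂ, v ≠ 0 → phi l s v = (v / ‖v‖) ^ l * (hh l s (‖v‖ ^ 2)⁻¹ : ℂ)) ∧
  (∀ v : ℂ, ‖phi l s v‖ ≤ (1 + ‖v‖ ^ 2) ^ (-s)) ∧
  (∀ ξ η : ℝ, ‖phi l s (ξ + η * Complex.I)‖ ≤ (1 + ξ ^ 2) ^ (-s / 2) * (1 + η ^ 2) ^ (-s / 2)) ∧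
  (∀ u v : ℂ, ‖u‖ = 1 → phi l s (u * v) = u ^ l * phi l s v) ∧
  (∀ (v : ℂ) (n : ℕ), 1 ≤ n → v ≠ 0 →
    phi l s (n * v) = (v / ‖v‖) ^ l * (hh l s ((‖v‖ ^ 2)⁻¹ / (n : ℝ) ^ 2) : ℂ))

/-- **PD.** Partial derivatives of `phi`. Proof. `v = ξ + η i`, `T = ξ² + η² = ‖v‖²`, `B = l/2 + 4 - s`,
`A = l + 4`; `phi = v^l T^B (1+T)^(-A)`, and `∂_ξ phi = l v^(l-1) T^B (1+T)^(-A) + v^l B T^(B-1) 2ξ (1+T)^(-A)
- v^l T^B A 2ξ (1+T)^(-A-1)` (`Real.hasDerivAt_rpow_const` with exponent `B ≥ 1`, also at `T = 0`; `∂_η`: `l v^(l-1) i`, `2η`).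
All three terms are continuous and, as `|ξ|, |η| ≤ √T` and `T^e (1+T)^(-A) ≤ (1+T)^(e-A)` for `e ≥ 0`, at most
`(l + 2B + 2A) (1+T)^((l-1)/2 + B - A) = (l + 2B + 2A) (1+T)^(-s-1/2) ≤ C (1+T)^(-3/2)`,
`(1+T)^(-3/2) ≤ (1+ξ²)^(-3/4) (1+η²)^(-3/4)`. (In the first term `l ≥ 1`, or it is zero.) -/
def S_PD : Prop := ∀ l : ℕ, ∃ C : ℝ, 0 ≤ C ∧ ∀ s : ℝ, 1 < s → s ≤ 2 → ∃ px py : ℝ → ℝ → ℂ,
  Continuous (fun q : ℝ × ℝ => px q.1 q.2) ∧ Continuous (fun q : ℝ × ℝ => py q.1 q.2) ∧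
  ∀ ξ η : ℝ, HasDerivAt (fun t : ℝ => phi l s (t + η * Complex.I)) (px ξ η) ξ ∧
    HasDerivAt (fun t : ℝ => phi l s (ξ + t * Complex.I)) (py ξ η) η ∧
    ‖px ξ η‖ ≤ C * ((1 + ξ ^ 2) ^ (-(3 / 4 : ℝ)) * (1 + η ^ 2) ^ (-(3 / 4 : ℝ))) ∧
    ‖py ξ η‖ ≤ C * ((1 + ξ ^ 2) ^ (-(3 / 4 : ℝ)) * (1 + η ^ 2) ^ (-(3 / 4 : ℝ)))

/-- The integral of `phi` over a horizontal line. -/
noncomputable def Psi (l : ℕ) (s η : ℝ) : ℂ := ∫ ξ : ℝ, phi l s (ξ + η * Complex.I)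

/-- **PSI.** Proof. `(1 + ξ²)^(-e)` is integrable for `e > 1/2` (`integrable_rpow_neg_one_add_norm_sq` or
`integrable_one_add_norm`). The derivative under the integral sign:
`hasDerivAt_integral_of_dominated_loc_of_deriv_le` with the bound `C (1+ξ²)^(-3/4)` of PD; `Psi' η = ∫ py ξ η dξ`,
`‖Psi' η‖ ≤ C K (1+η²)^(-3/4)`, `‖Psi η‖ ≤ K' (1+η²)^(-s/2)` (PB), both functions are continuous. The line integrals
of `‖px‖`: `∫ ‖px ξ η‖ dξ ≤ C K (1+η²)^(-3/4)`. -/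
def S_PSI : Prop := S_PB → S_PD → ∀ l : ℕ, ∃ C : ℝ, 0 ≤ C ∧ ∀ s : ℝ, 1 < s → s ≤ 2 →
  (∃ Psi' : ℝ → ℂ, (∀ η, HasDerivAt (Psi l s) (Psi' η) η) ∧ Integrable (Psi l s) ∧
    Integrable Psi' ∧ ∫ η, ‖Psi' η‖ ≤ C) ∧
  ∀ η : ℝ, Integrable (fun ξ : ℝ => phi l s (ξ + η * Complex.I)) ∧
    ∃ px : ℝ → ℂ, (∀ ξ, HasDerivAt (fun t : ℝ => phi l s (t + η * Complex.I)) (px ξ) ξ) ∧
      Integrable px ∧ ∫ ξ, ‖px ξ‖ ≤ C * (1 + η ^ 2) ^ (-(3 / 4 : ℝ))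

/-- The conclusion of PSI. -/
def R_PSI : Prop := ∀ l : ℕ, ∃ C : ℝ, 0 ≤ C ∧ ∀ s : ℝ, 1 < s → s ≤ 2 →
  (∃ Psi' : ℝ → ℂ, (∀ η, HasDerivAt (Psi l s) (Psi' η) η) ∧ Integrable (Psi l s) ∧
    Integrable Psi' ∧ ∫ η, ‖Psi' η‖ ≤ C) ∧
  ∀ η : ℝ, Integrable (fun ξ : ℝ => phi l s (ξ + η * Complex.I)) ∧
    ∃ px : ℝ → ℂ, (∀ ξ, HasDerivAt (fun t : ℝ => phi l s (t + η * Complex.I)) (px ξ) ξ) ∧
      Integrable px ∧ ∫ ξ, ‖px ξ‖ ≤ C * (1 + η ^ 2) ^ (-(3 / 4 : ℝ))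

/-- **ROT.** Proof. `∫ Psi = ∫∫ phi = ∫ over ℂ of phi` (Fubini, `Complex.volume_preserving_equiv_real_prod`; integrable by
PB: `(1+ξ²)^(-s/2) (1+η²)^(-s/2)`, `s > 1`); multiplication by `u = exp(iπ/l)`, `u^l = -1`, preserves the measure
(`LinearIsometryEquiv.measurePreserving` of `rotation`), so the integral is `-` itself (PB, `phi (u v) = u^l phi v`). -/
def S_ROT : Prop := S_PB → ∀ (l : ℕ) (s : ℝ), l ≠ 0 → 1 < s → s ≤ 2 → ∫ η, Psi l s η = 0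

/-- **SM.** Absolute convergence. Proof. By PB `‖phi l s v‖ ≤ (1 + ‖v‖²)^(-s) ≤ ‖v‖^(-2s)` for `v ≠ 0`;
`‖c z + d‖ ≥ r(z) * max(|c|, |d|)` with `r(z) > 0` (`EisensteinSeries.r`, `EisensteinSeries.r_mul_max_le`), and
`∑ ‖x‖^(-2s)` over `x : Fin 2 → ℤ` converges for `2 s > 2` (`EisensteinSeries.summable_one_div_norm_rpow`). -/
def S_SM : Prop := S_PB → ∀ (l : ℕ) (s : ℝ), 1 < s → s ≤ 2 → ∀ z : ℍ,
  Summable (fun v : ℤ × ℤ => ‖phi l s (vz z v.1 v.2)‖)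

/-- **LSI.** One row of the lattice. Proof. `y = im z ≥ √3/2` (`three_le_four_mul_im_sq_of_mem_fd`), `x = re z`;
`vz z c d = (c x + d)/√y + c √y i`. EM for `g(t) = phi((c x + t)/√y + c √y i)`, step `M`, start `r`: `g' = px/√y`,
`∫ ‖g'‖ = ∫ ‖px‖ dξ ≤ C (1 + c² y)^(-3/4)`, `∫ g = √y * Psi (c √y)` (substitution `integral_comp_mul_add` or similar), and
`(1 + c² y)^(-3/4) ≤ 2 (1 + c²)^(-3/4)`. -/
def S_LSI : Prop := S_EM → R_PSI → ∀ l : ℕ, ∃ C : ℝ, 0 ≤ C ∧ ∀ s : ℝ, 1 < s → s ≤ 2 →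
  ∀ (M : ℕ) (c r : ℤ) (z : ℍ), 1 ≤ M → z ∈ 𝒟 →
    Summable (fun t : ℤ => phi l s (vz z c (r + M * t))) ∧
    ‖(M : ℂ) * ∑' t : ℤ, phi l s (vz z c (r + M * t)) -
      (Real.sqrt z.im : ℂ) * Psi l s (c * Real.sqrt z.im)‖ ≤ M * (C * (1 + (c : ℝ) ^ 2) ^ (-(3 / 4 : ℝ)))

/-- The conclusion of LSI. -/
def R_LSI : Prop := ∀ l : ℕ, ∃ C : ℝ, 0 ≤ C ∧ ∀ s : ℝ, 1 < s → s ≤ 2 →
  ∀ (M : ℕ) (c r : ℤ) (z : ℍ), 1 ≤ M → z ∈ 𝒟 →
    Summable (fun t : ℤ => phi l s (vz z c (r + M * t))) ∧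
    ‖(M : ℂ) * ∑' t : ℤ, phi l s (vz z c (r + M * t)) -
      (Real.sqrt z.im : ℂ) * Psi l s (c * Real.sqrt z.im)‖ ≤ M * (C * (1 + (c : ℝ) ^ 2) ^ (-(3 / 4 : ℝ)))

/-- The conclusion of ROT. -/
def R_ROT : Prop := ∀ (l : ℕ) (s : ℝ), l ≠ 0 → 1 < s → s ≤ 2 → ∫ η, Psi l s η = 0

/-- The conclusion of SM. -/
def R_SM : Prop := ∀ (l : ℕ) (s : ℝ), 1 < s → s ≤ 2 → ∀ z : ℍ,
  Summable (fun v : ℤ × ℤ => ‖phi l s (vz z v.1 v.2)‖)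

/-- **LS.** Lattice sums over a residue class. Proof. `y = im z ≥ √3/2`. Put `I = M^(-2) ∫ Psi` (zero if `l ≠ 0`, ROT). By SM the
sum is the iterated sum, inner sum over `t.2`. LSI for `c = r.1 + M t.1`: `M * inner = √y Psi(c √y) + e_c`,
`‖e_c‖ ≤ M C (1 + c²)^(-3/4)`. Outer sum: EM for `G(t) = Psi(t √y)`, step `M`, start `r.1`: `∫ ‖G'‖ = ∫ ‖Psi'‖ ≤ C'`,
`∫ G = y^(-1/2) ∫ Psi`. Hence `M² * sum = √y M ∑ G(c) + M ∑ e_c`, and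
`‖M² * sum - ∫ Psi‖ ≤ √y M C' + M² C ∑_{c ∈ ℤ} (1 + c²)^(-3/4)`, `1 ≤ 2 √y`. -/
def S_LS : Prop := S_EM → R_PSI → R_ROT → R_SM → R_LSI → ∀ M l : ℕ, 1 ≤ M → ∃ C : ℝ, 0 ≤ C ∧
  ∀ s : ℝ, 1 < s → s ≤ 2 → ∃ I : ℂ, (l ≠ 0 → I = 0) ∧ ∀ (r : ℤ × ℤ) (z : ℍ), z ∈ 𝒟 →
    ‖∑' t : ℤ × ℤ, phi l s (vz z (r.1 + M * t.1) (r.2 + M * t.2)) - I‖ ≤ C * Real.sqrt z.im

/-- The conclusion of LS. -/
def R_LS : Prop := ∀ M l : ℕ, 1 ≤ M → ∃ C : ℝ, 0 ≤ C ∧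
  ∀ s : ℝ, 1 < s → s ≤ 2 → ∃ I : ℂ, (l ≠ 0 → I = 0) ∧ ∀ (r : ℤ × ℤ) (z : ℍ), z ∈ 𝒟 →
    ‖∑' t : ℤ × ℤ, phi l s (vz z (r.1 + M * t.1) (r.2 + M * t.2)) - I‖ ≤ C * Real.sqrt z.im

/-- **LSP.** The lattice sum `Zs` on the translates of the fundamental domain. Proof. Let `z' = δ z`,
`j = jf δ z`. For a pair `(c, d) = (c', d') δ` (row vector times matrix) `c z + d = (c' z' + d') j` and
`im z' = im z/|j|²`, so `vz z c d = (j/|j|) vz z' c' d'` and `phi (vz z c d) = (j/|j|)^l phi (vz z' c' d')` (PB). The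
set of the `(c, d)` with `M ∣ c`, `d` prime to `M`, is the disjoint union of the residue classes of `(0, u)`, `0 ≤ u < M`,
`u` prime to `M`, modulo `M`; its image under `δ^(-1)` is the disjoint union of the residue classes of `(0, u) δ^(-1)`. So
`Zs M l s z = (j/|j|)^l ∑_u (sum of LS for the class (0, u) δ^(-1), at z')`; take `κ = φ(M) I` (`(j/|j|)^l κ = κ` also for
`l ≠ 0`, because then `I = 0`). Split the sum with SM. -/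
def S_LSP : Prop := R_LS → S_PB → R_SM → ∀ M l : ℕ, 1 ≤ M → ∃ C : ℝ, 0 ≤ C ∧
  ∀ s : ℝ, 1 < s → s ≤ 2 → ∃ κ : ℂ, (l ≠ 0 → κ = 0) ∧ ∀ (δ : SL(2, ℤ)) (z : ℍ), δ • z ∈ 𝒟 →
    ‖Zs M l s z - κ‖ ≤ C * Real.sqrt (δ • z).im

/-- The conclusion of LSP. -/
def R_LSP : Prop := ∀ M l : ℕ, 1 ≤ M → ∃ C : ℝ, 0 ≤ C ∧
  ∀ s : ℝ, 1 < s → s ≤ 2 → ∃ κ : ℂ, (l ≠ 0 → κ = 0) ∧ ∀ (δ : SL(2, ℤ)) (z : ℍ), δ • z ∈ 𝒟 →
    ‖Zs M l s z - κ‖ ≤ C * Real.sqrt (δ • z).im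

/-! ### Unfolding -/

/-- **PW.** Partition weights exist. Proof. `n(z) = #{γ ∈ SL(2, ℤ) : γ z ∈ 𝒟}` is finite (the points `γ z` in `𝒟` have
bounded imaginary part by `exists_max_im`, so they lie in a compact `truncatedFundamentalDomain`; proper
discontinuity, or `cases_of_mem_fd_smul_mem_fd`: if `γ₀ z ∈ 𝒟` then `γ γ₀^(-1)` is in a finite set for all such `γ`... or
`tendsto_normSq_coprime_pair`), at least `1` (`exists_smul_mem_fd`), invariant, and measurable (a countable sum of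
indicator functions, `𝒟` closed). Put `w₀ = 1_𝒟 / n`; the sum of `w₀ (γ z)` over `SL(2, ℤ)` is `1`. Let `R` be the image of
a finite set of representatives `δ` of the cosets `δ Γ₀(M)` (`Γ₀(M)` has finite index), `w z = ∑_{δ ∈ R} w₀ (δ z)`.
`(δ, γ) ↦ δ γ` is a bijection `R × Γ₀(M) → SL(2, ℤ)`, so `∑_γ w (γ z) = ∑_{g} w₀ (g z) = 1`; in particular `w ≤ 1`. -/
def S_PW : Prop := ∀ M : ℕ, 1 ≤ M → ∃ (R : Finset SL(2, ℤ)) (w : ℍ → ℝ), PWt M R w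

/-- **AU.** Abstract unfolding. Proof. `E x = ∑_g w (g x) E x`; `∫ ∑_g w (g x) |E x| = ∫ |E| < ∞`, so (Tonelli)
`∑_g ∫ |w (g x) E x| < ∞` and `∫ E = ∑_g ∫ w (g x) E x dμ = ∑_g ∫ w x E (g⁻¹ x) dμ` (`μ` is invariant) `= ∑_g ∫ w x E (g x) dμ`
(replace `g` by `g⁻¹`, `Equiv.inv`) `= ∫ w x ∑_g E (g x) dμ` (`integral_tsum`, `hasSum_integral_of_summable_integral_norm`).
For the integrability: the `tsum` of `w x * E (g x)`, whose norms have a finite sum of integrals. -/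
def S_AU : Prop := ∀ (G X : Type) [Group G] [Countable G] [MeasurableSpace X] [MulAction G X]
  (μ : Measure X), (∀ g : G, MeasurePreserving (fun x : X => g • x) μ μ) →
  ∀ w : X → ℝ, Measurable w → (∀ x, 0 ≤ w x) → (∀ x, HasSum (fun g : G => w (g • x)) 1) →
  ∀ E : X → ℂ, Integrable E μ →
    Integrable (fun x => (w x : ℂ) * ∑' g : G, E (g • x)) μ ∧
    ∫ x, E x ∂μ = ∫ x, (w x : ℂ) * ∑' g : G, E (g • x) ∂μ

open Classical in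
/-- **CO1.** Elements of `Γ₀(M)` and their bottom rows. Proof. Bottom row is a bijection from
`{γ ∈ Γ₀(M) : γ z ∈ strip}` to the pairs `(c, d)` of coprime integers with `M ∣ c`: surjective: `bottom_row_surj`, then multiply
by `T ^ n` on the left (`re_T_zpow_smul`; `n = -⌊re⌋`), which does not change the bottom row; injective: two matrices with the
same bottom row differ by a power `T ^ n` on the left, and `n = 0` since both real parts are in `[0, 1)`. So the two sums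
have the same nonzero terms (`tsum_eq_tsum_of_ne_zero_bij`, `Function.Injective.tsum_eq`). -/
def S_CO1 : Prop := ∀ (M : ℕ) (z : ℍ) (G : ℤ → ℤ → ℂ), 1 ≤ M →
  ∑' γ : CongruenceSubgroup.Gamma0 M, (if (γ : SL(2, ℤ)) • z ∈ strip then
    G ((γ : SL(2, ℤ)) 1 0) ((γ : SL(2, ℤ)) 1 1) else 0) =
  ∑' v : ℤ × ℤ, if (M : ℤ) ∣ v.1 ∧ IsCoprime v.1 v.2 then G v.1 v.2 else 0

open Classical in
/-- **CO2.** All pairs and coprime pairs. Proof. `(n, c, d) ↦ (n c, n d)` is a bijection from the triples with `n ≥ 1` prime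
to `M`, `(c, d)` coprime, `M ∣ c`, to the pairs `(C, D) ≠ (0, 0)` with `M ∣ C`, `D` prime to `M` (`n = gcd(C, D)`; for a coprime
pair with `M ∣ c` the number `d` is prime to `M`). The series converge absolutely. -/
def S_CO2 : Prop := ∀ (M : ℕ) (H : ℤ × ℤ → ℂ), 1 ≤ M → H (0, 0) = 0 → Summable (fun v => ‖H v‖) →
  ∑' v : ℤ × ℤ, (if (M : ℤ) ∣ v.1 ∧ IsCoprime v.1 v.2 then
    ∑' n : ℕ, (if 1 ≤ n ∧ n.Coprime M then H (n * v.1, n * v.2) else 0) else 0) =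
  ∑' v : ℤ × ℤ, if (M : ℤ) ∣ v.1 ∧ IsCoprime v.2 (M : ℤ) then H v else 0

/-- **CO.** Counting. Proof. Put `y = im z`. For `γ ∈ Γ₀(M)` with bottom row `(c, d)`, `j = c z + d`,
`v = vz z c d = j/√y`: `im (γ z) = y/|j|² = |v|^(-2)`, and by PB (last part) `(j/|j|)^l * hh l s (im (γ z)/n²) = phi l s (n v)`,
`n v = vz z (n c) (n d)`. So the term of `γ` is `F z * ∑_{n ≥ 1, (n,M)=1} phi l s (vz z (n c) (n d))` if `γ z` is in the strip,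
`0` otherwise. CO1 with `G c d` this expression, then CO2 with `H v = F z * phi l s (vz z v.1 v.2)` (SM; `phi 0 = 0`). -/
def S_CO : Prop := S_PB → R_SM → S_CO1 → S_CO2 → ∀ (M l : ℕ) (s : ℝ), 1 ≤ M → 1 < s → s ≤ 2 → ∀ F : ℍ → ℂ,
  (∀ γ ∈ CongruenceSubgroup.Gamma0 M, ∀ z : ℍ, F (γ • z) = (jf γ z / ‖jf γ z‖) ^ l * F z) →
  ∀ z : ℍ, ∑' γ : CongruenceSubgroup.Gamma0 M,
    strip.indicator (fun z => F z * (ht M l s z.im : ℂ)) ((γ : SL(2, ℤ)) • z) = F z * Zs M l s z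

/-- The conclusion of CO. -/
def R_CO : Prop := ∀ (M l : ℕ) (s : ℝ), 1 ≤ M → 1 < s → s ≤ 2 → ∀ F : ℍ → ℂ,
  (∀ γ ∈ CongruenceSubgroup.Gamma0 M, ∀ z : ℍ, F (γ • z) = (jf γ z / ‖jf γ z‖) ^ l * F z) →
  ∀ z : ℍ, ∑' γ : CongruenceSubgroup.Gamma0 M,
    strip.indicator (fun z => F z * (ht M l s z.im : ℂ)) ((γ : SL(2, ℤ)) • z) = F z * Zs M l s z

/-- **SI.** Integrals over the strip. Proof. `volume` on `ℍ` is `(volume.comap coe).withDensity (1 / im²)`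
(`UpperHalfPlane.volume_def`, `measurableEmbedding_coe`), and `ℂ = ℝ × ℝ` (`Complex.measurableEquivRealProd`,
`Complex.volume_preserving_equiv_real_prod`); Fubini. -/
def S_SI : Prop := ∀ G : ℂ → ℂ, Measurable G →
  (IntegrableOn (fun z : ℍ => G z) strip ↔
    Integrable (fun q : ℝ × ℝ => ((1 / q.2 ^ 2 : ℝ) : ℂ) * G (q.1 + q.2 * Complex.I))
      ((volume.restrict (Set.Ico (0 : ℝ) 1)).prod (volume.restrict (Set.Ioi (0 : ℝ))))) ∧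
  (IntegrableOn (fun z : ℍ => G z) strip → ∫ z in strip, G z =
    ∫ y in Set.Ioi (0 : ℝ), ((1 / y ^ 2 : ℝ) : ℂ) * ∫ x in Set.Ico (0 : ℝ) 1, G (x + y * Complex.I))

/-- **HT.** The function `ht`. Proof. For `y > 0`: `0 ≤ hh l s (y/n²) ≤ (y/n²)^s`, so the sum converges (`2 s > 1`).
Measurability: limit of the partial sums over `range n` (`measurable_of_tendsto_metrizable`); the series converges absolutely for
every real `y`, since `|(y/n²)^s| ≤ |y|^s n^(-2s)` and `1 + y/n² → 1`. Integral: substituting `y = n² t`,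
`∫_0^∞ hh(y/n²) y^(-2) dy = n^(-2) ∫_0^∞ hh(t) t^(-2) dt`, and `∫_0^∞ t^(s-2) (1+t)^(-(l+4)) dt < ∞` because `s - 2 > -1`,
`s - 2 - 4 < -1`; sum over `n` (Tonelli). The second part: SI (in the first variable the function is constant). -/
def S_HT : Prop := S_SI → ∀ (M l : ℕ) (s : ℝ), 1 ≤ M → 1 < s → s ≤ 2 →
  Measurable (ht M l s) ∧ (∀ y : ℝ, 0 < y → 0 ≤ ht M l s y ∧
    Summable (fun n : ℕ => if 1 ≤ n ∧ n.Coprime M then hh l s (y / (n : ℝ) ^ 2) else 0)) ∧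
  IntegrableOn (fun y : ℝ => ht M l s y / y ^ 2) (Set.Ioi 0) ∧
  IntegrableOn (fun z : ℍ => ht M l s z.im) strip

/-- The conclusion of HT. -/
def R_HT : Prop := ∀ (M l : ℕ) (s : ℝ), 1 ≤ M → 1 < s → s ≤ 2 →
  Measurable (ht M l s) ∧ (∀ y : ℝ, 0 < y → 0 ≤ ht M l s y ∧
    Summable (fun n : ℕ => if 1 ≤ n ∧ n.Coprime M then hh l s (y / (n : ℝ) ^ 2) else 0)) ∧
  IntegrableOn (fun y : ℝ => ht M l s y / y ^ 2) (Set.Ioi 0) ∧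
  IntegrableOn (fun z : ℍ => ht M l s z.im) strip

/-- **VOL.** Proof. `𝒟` is contained in `{|x| ≤ 1/2, y ≥ √3/2}`, and `∫ y^(1/2) y^(-2) dy` over `y ≥ √3/2` is finite.
(`volume` on `ℍ`: see SI.) The finiteness of the volume follows since `√y ≥ 1/2` on `𝒟`. -/
def S_VOL : Prop := IntegrableOn (fun z : ℍ => Real.sqrt z.im) 𝒟 ∧ volume (𝒟 : Set ℍ) < ⊤

/-- **MAIN.** Proof. `E = strip.indicator (F * ht)` is integrable (HT, `F` bounded and continuous). AU (for the group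
`Γ₀(M)` acting on `ℍ`, the measure is invariant under `GL(2, ℝ)`) and CO: `w F Zs` is integrable and
`∫_strip F ht = ∫ w F Zs`. `w F` is integrable: it is bounded and vanishes outside of the finitely many sets
`δ^(-1) 𝒟`, `δ ∈ R`, of finite volume (VOL). With `κ`, `C` from LSP:
`‖∫ w F (Zs - κ)‖ ≤ ∑_{δ ∈ R} ∫ 1_{δ z ∈ 𝒟} ‖F‖ C √(im (δ z)) ≤ #R * C_F * C * ∫_𝒟 √y`. -/
def S_MAIN : Prop := R_LSP → S_AU → R_CO → R_HT → S_VOL → ∀ (M l : ℕ) (R : Finset SL(2, ℤ))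
  (w : ℍ → ℝ) (F : ℍ → ℂ), 1 ≤ M → PWt M R w → Continuous F → (∃ C, ∀ z, ‖F z‖ ≤ C) →
  (∀ γ ∈ CongruenceSubgroup.Gamma0 M, ∀ z : ℍ, F (γ • z) = (jf γ z / ‖jf γ z‖) ^ l * F z) →
  ∃ C : ℝ, ∀ s : ℝ, 1 < s → s ≤ 2 → ∃ κ : ℂ, (l ≠ 0 → κ = 0) ∧
    ‖(∫ z in strip, F z * (ht M l s z.im : ℂ)) - κ * ∫ z, (w z : ℂ) * F z‖ ≤ C

/-- The conclusion of MAIN. -/
def R_MAIN : Prop := ∀ (M l : ℕ) (R : Finset SL(2, ℤ))
  (w : ℍ → ℝ) (F : ℍ → ℂ), 1 ≤ M → PWt M R w → Continuous F → (∃ C, ∀ z, ‖F z‖ ≤ C) →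
  (∀ γ ∈ CongruenceSubgroup.Gamma0 M, ∀ z : ℍ, F (γ • z) = (jf γ z / ‖jf γ z‖) ^ l * F z) →
  ∃ C : ℝ, ∀ s : ℝ, 1 < s → s ≤ 2 → ∃ κ : ℂ, (l ≠ 0 → κ = 0) ∧
    ‖(∫ z in strip, F z * (ht M l s z.im : ℂ)) - κ * ∫ z, (w z : ℂ) * F z‖ ≤ C

end Pool.Agent.Lib.MP_058a58_ag.MT
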