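import Pool.Agent.Lib.MP_058a58_ag.MT.Stm2
import Pool.Agent.Lib.MP_058a58_ag.MT.FDefs
import Pool.Agent.Lib.MP_058a58_ag.HK.LogPoly

set_option autoImplicit false

/-!
# Twists by modular forms: statements of the pieces on Euler products and the final theorem
-/

open Polynomial Filter Topology UpperHalfPlane
open scoped MatrixGroups
open TatePole (RR)

namespace Pool.Agent.Lib.MP_058a58_ag.MT

/-! ### Euler products -/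

/-- Chebyshev polynomials `U_r(x/2)`. -/
noncomputable def U (x : ℝ) : ℕ → ℝ
  | 0 => 1
  | 1 => x
  | (r + 2) => x * U x (r + 1) - U x r

/-- **E1.** The generating functions of the good primes. Proof. `|x| ≤ 2`: `|U x r| ≤ r + 1` (`x = 2 cos θ`,
`Polynomial.Chebyshev`, or `U_r² - x U_r U_(r-1) + U_(r-1)² = 1` and induction). The series `D = ∑ U_r(x) U_r(y) u^r`,
`0 ≤ u < 1`, satisfies `D * Q = 1 - u²`, `Q = 1 - x y u + (x² + y² - 2) u² - x y u³ + u⁴` (the products `U_r(x) U_r(y)` satisfy the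
corresponding recursion of order four); `Q = (1 - u²)² - ... ` is positive: `Q = |1 - α γ u|² |1 - α conj(γ) u|²` for
`x = α + conj α`, `y = γ + conj γ`, `|α| = |γ| = 1`, hence also `Q ≤ (1 + u)⁴`. The last part: terms `r ≥ 2`,
`∑_{r ≥ 2} (r+1)² u^r ≤ u² ∑_r (r+3)² 2^(-r) ≤ 60 u²`. -/
def S_E1 : Prop := ∀ x y u : ℝ, |x| ≤ 2 → |y| ≤ 2 → 0 ≤ u → u < 1 →
  (∀ r : ℕ, |U x r| ≤ r + 1) ∧
  Summable (fun r : ℕ => |U x r * U y r * u ^ r|) ∧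
  (1 - u ^ 2) / (1 + u) ^ 4 ≤ ∑' r : ℕ, U x r * U y r * u ^ r ∧
  (u ≤ 1 / 2 → |(∑' r : ℕ, U x r * U y r * u ^ r) - (1 + x * y * u)| ≤ 60 * u ^ 2)

/-- **E2.** The generating functions of the bad primes. Proof. `∑ U_r(y) v^r * (1 - y v + v²) = 1` for `|v| < 1`, here `v = t u`;
`|1 - y v + v²| ≤ 4`. For the second part a geometric series. -/
def S_E2 : Prop := (∀ t y u : ℝ, |t * u| < 1 → |y| ≤ 2 →
    Summable (fun r : ℕ => |t ^ r * U y r * u ^ r|) ∧ 1 / 4 ≤ |∑' r : ℕ, t ^ r * U y r * u ^ r|) ∧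
  ∀ t t' u : ℝ, |t * t' * u| < 1 →
    Summable (fun r : ℕ => |t ^ r * t' ^ r * u ^ r|) ∧ 1 / 4 ≤ |∑' r : ℕ, t ^ r * t' ^ r * u ^ r|

/-- **E3.** Normalised coefficients at prime powers. Proof. Induction over `r`; `lam k a (p^r) = a(p^r) / p^(r (k-1)/2)`, and
`p^(k-1) / (p^((k-1)/2))² = 1`. Bad primes: `|a(p)|^r = |a(p^r)| ≤ C p^(r k/2)` for all `r` gives `|a(p)| ≤ p^(k/2)`. -/
def S_E3 : Prop := ∀ (N k : ℕ) (a : ℕ → ℝ), 2 ≤ k → HeckeSeq N k a →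
  (∃ C : ℝ, ∀ n : ℕ, 1 ≤ n → |a n| ≤ C * (n : ℝ) ^ ((k : ℝ) / 2)) →
  (lam k a 0 = 0 ∧ lam k a 1 = 1 ∧ ∀ m n : ℕ, m.Coprime n → lam k a (m * n) = lam k a m * lam k a n) ∧
  ∀ p : ℕ, p.Prime → (¬ p ∣ N → |lam k a p| ≤ 2 ∧ ∀ r, lam k a (p ^ r) = U (lam k a p) r) ∧
    (p ∣ N → |lam k a p| ≤ (p : ℝ) ^ (1 / 2 : ℝ) ∧ ∀ r, lam k a (p ^ r) = lam k a p ^ r)

/-- The local factor at `p` of the Dirichlet series with the coefficients `u`. -/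
noncomputable def Dp (u : ℕ → ℝ) (s : ℝ) (p : ℕ) : ℝ := ∑' r : ℕ, u (p ^ r) * ((p : ℝ) ^ (-s)) ^ r

/-- **EPA.** Euler products. Proof. `n ↦ u(n) n^(-s)` is multiplicative and absolutely summable, so
`EulerProduct.eulerProduct_hasProd` gives `∏_p Dp = ∑ u(n) n^(-s)`. `∑_p |Dp - 1| ≤ ∑_p ∑_{r ≥ 1} |u(p^r)| p^(-r s) ≤ ∑ |u(n)| n^(-s)`
(`(p, r) ↦ p^r` is injective for `r ≥ 1`), so `∑_p |log |Dp|| < ∞` (all `Dp ≠ 0`; `|log |1+h|| ≤ 2 |h|` for `|h| ≤ 1/2`), and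
`|∏ Dp| = exp (∑ log |Dp|)` (`Real.rexp_tsum_eq_tprod`, `HasSum.rexp` or limits of finite products). -/
def S_EPA : Prop := ∀ (u : ℕ → ℝ) (s : ℝ), u 0 = 0 → u 1 = 1 →
  (∀ m n : ℕ, m.Coprime n → u (m * n) = u m * u n) →
  Summable (fun n : ℕ => |u n| * (n : ℝ) ^ (-s)) → 0 < s → (∀ p : ℕ, p.Prime → Dp u s p ≠ 0) →
  (∑' n : ℕ, u n * (n : ℝ) ^ (-s)) ≠ 0 ∧
  Summable (fun p : Nat.Primes => Real.log |Dp u s p|) ∧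
  Real.log |∑' n : ℕ, u n * (n : ℝ) ^ (-s)| = ∑' p : Nat.Primes, Real.log |Dp u s p|

/-- **EP.** From the Dirichlet series to the sum over the primes. Proof. `u(n) = lam k a n * lam k' b n` (E3: multiplicative).
EPA: `log |DD| = ∑_p log |D_p|`. Let `x = p^(-s) ≤ 1/2`. `p` not dividing `N N'` (E3, E1):
`D_p ≥ (1-x²)/(1+x)⁴ > 0`, `|D_p - 1 - u(p) x| ≤ 60 x²`, `|u(p)| ≤ 4`: for `p ≥ 100`, `log D_p ≥ u(p) x - 200 x²` (`log(1+h) ≥ h - h²` for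
`|h| ≤ 1/2`), for `p < 100`, `log D_p ≥ log((1-x²)/(1+x)⁴) ≥ -3`. `p ∣ N N'` (E3, E2, `|lam a(p) lam b(p) x| ≤ p^(1-s) < 1` etc.):
`|D_p| ≥ 1/4`. So `log |DD| ≥ ∑_{p ∤ N N'} u(p) p^(-s) - C`, with `C` independent of `s` (`∑ 200 p^(-2s) ≤ 200 ∑ p^(-2)`; finitely many
exceptions, for which `|u(p) x| ≤ 4`). `th N k a p * th N' k' b p` is `u(p)` for `p ∤ N N'` and `0` otherwise. -/
def S_EP : Prop := S_E1 → S_E2 → S_E3 → S_EPA → ∀ (N N' k k' : ℕ) (a b : ℕ → ℝ), 1 ≤ N → 1 ≤ N' → 2 ≤ k →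
  2 ≤ k' → HeckeSeq N k a → HeckeSeq N' k' b →
  (∃ C : ℝ, ∀ n : ℕ, 1 ≤ n → |a n| ≤ C * (n : ℝ) ^ ((k : ℝ) / 2)) →
  (∃ C : ℝ, ∀ n : ℕ, 1 ≤ n → |b n| ≤ C * (n : ℝ) ^ ((k' : ℝ) / 2)) →
  (∀ s : ℝ, 1 < s → s ≤ 2 → Summable (fun n : ℕ => |lam k a n * lam k' b n| * (n : ℝ) ^ (-s))) →
  ∃ C : ℝ, ∀ s : ℝ, 1 < s → s ≤ 2 → DD k k' a b s ≠ 0 ∧
    RR (fun p => th N k a p * th N' k' b p) s ≤ Real.log |DD k k' a b s| + C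

/-- **GR.** The Gram matrix. Proof. HB and DG for the hypotheses of EP. `i = j`: `log |DD| ≤ log (C/(s-1))` (`C > 0` may be
enlarged), valid for `1 < s ≤ 2`. `i ≠ j`: DBE if the weights are equal, DBL if they are different (exchange the two forms if
`k < k'`; `DD` and the Gram sum are symmetric). -/
def S_GR : Prop :=
  (∀ (N N' k : ℕ) (f g : ℍ → ℂ) (a b : ℕ → ℝ), Pair N N' k k f g a b →
    (∃ p : ℕ, p.Prime ∧ ¬ p ∣ N * N' ∧ a p ≠ b p) →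
    ∃ C : ℝ, ∀ s : ℝ, 1 < s → s ≤ 2 → |DD k k a b s| ≤ C) →
  (∀ (N N' k' l : ℕ) (f g : ℍ → ℂ) (a b : ℕ → ℝ), Pair N N' (k' + l) k' f g a b → 1 ≤ l →
    ∃ C : ℝ, ∀ s : ℝ, 1 < s → s ≤ 2 → |DD (k' + l) k' a b s| ≤ C) →
  (∀ (N N' k k' : ℕ) (f g : ℍ → ℂ) (a b : ℕ → ℝ), Pair N N' k k' f g a b →
    (∃ C : ℝ, ∀ s : ℝ, 1 < s → s ≤ 2 → |DD k k a a s| ≤ C / (s - 1)) ∧
    ∀ s : ℝ, 1 < s → s ≤ 2 → Summable (fun n : ℕ => |lam k a n * lam k' b n| * (n : ℝ) ^ (-s))) →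
  (∀ (k : ℕ) (f : ℍ → ℂ) (a : ℕ → ℝ), IsQ k f a →
    ∃ C : ℝ, ∀ n : ℕ, 1 ≤ n → |a n| ≤ C * (n : ℝ) ^ ((k : ℝ) / 2)) →
  (∀ (N N' k k' : ℕ) (a b : ℕ → ℝ), 1 ≤ N → 1 ≤ N' → 2 ≤ k → 2 ≤ k' → HeckeSeq N k a →
    HeckeSeq N' k' b → (∃ C : ℝ, ∀ n : ℕ, 1 ≤ n → |a n| ≤ C * (n : ℝ) ^ ((k : ℝ) / 2)) →
    (∃ C : ℝ, ∀ n : ℕ, 1 ≤ n → |b n| ≤ C * (n : ℝ) ^ ((k' : ℝ) / 2)) →
    (∀ s : ℝ, 1 < s → s ≤ 2 → Summable (fun n : ℕ => |lam k a n * lam k' b n| * (n : ℝ) ^ (-s))) →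
    ∃ C : ℝ, ∀ s : ℝ, 1 < s → s ≤ 2 → DD k k' a b s ≠ 0 ∧
      RR (fun p => th N k a p * th N' k' b p) s ≤ Real.log |DD k k' a b s| + C) →
  ∀ (N N' k k' : ℕ) (f g : ℍ → ℂ) (a b : ℕ → ℝ), Pair N N' k k' f g a b →
    (∃ C : ℝ, ∀ s : ℝ, 1 < s → s ≤ 2 →
      RR (fun p => th N k a p * th N k a p) s ≤ Real.log (1 / (s - 1)) + C) ∧
    ((k ≠ k' ∨ ∃ p : ℕ, p.Prime ∧ ¬ p ∣ N * N' ∧ a p ≠ b p) →
      ∃ C : ℝ, ∀ s : ℝ, 1 < s → s ≤ 2 → RR (fun p => th N k a p * th N' k' b p) s ≤ C)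

/-! ### The inequality -/

/-- **BS.** The one-sided Bessel inequality. Proof. Let `L = log (1/(x-1))` (tends to infinity), `c_i = max 0 (Y_i x) ≥ 0`,
`n² = ∑ c_i²`. `n² = ∑ c_i Y_i ≤ ∑ c_i RR(A θ_i) + C ∑ c_i = RR(A ∑ c_i θ_i) + C ∑ c_i`. Cauchy-Schwarz in the form
`|A F| ≤ (δ/2) A² + F²/(2δ)`, or for the sums: `RR(A F)² ≤ RR(A²) RR(F²)`; `RR(A²) ≤ D² (L + C')` (`RR 1 ≤ L + C'`, see `Bessel.lean`,
`Defect2.lean`), `RR(F²) = ∑_{i,j} c_i c_j RR(θ_i θ_j) ≤ ∑ c_i² (L + C'') + ∑_{i≠j} c_i c_j C'' ≤ n² (L + C''')` (here `c_i ≥ 0` is used).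
So `n² ≤ D (L + C₁) n + C₂ n`, `n ≤ D L + C₃ ≤ (D + ε) L` near `1`. -/
def S_BS : Prop := ∀ (J : Type) [Fintype J] [DecidableEq J] (A : ℕ → ℝ) (D : ℝ) (θ : J → ℕ → ℝ) (Y : J → ℝ → ℝ), 0 ≤ D →
  (∀ p : ℕ, p.Prime → |A p| ≤ D) → (∀ i, ∀ p : ℕ, p.Prime → |θ i p| ≤ 2) →
  (∀ i j, ∃ C : ℝ, ∀ x : ℝ, 1 < x → x ≤ 2 →
    RR (fun p => θ i p * θ j p) x ≤ (if i = j then Real.log (1 / (x - 1)) else 0) + C) →
  (∀ i, ∃ C : ℝ, ∀ᶠ x in 𝓝[>] (1 : ℝ), |Y i x - RR (fun p => A p * θ i p) x| ≤ C) →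
  ∀ ε : ℝ, 0 < ε → ∀ᶠ x in 𝓝[>] (1 : ℝ),
    ∑ i, (max 0 (Y i x)) ^ 2 ≤ ((D + ε) * Real.log (1 / (x - 1))) ^ 2

/-- **LG.** The logarithm of the twisted `L`-function. Proof. `P p = det(1 - T Frob_p)` has constant coefficient `1`, degree
`≤ dim W`, and all zeros of absolute value `p^(-w/2)` (see `LocalFactor.lean` for the existence of Frobenius elements). Put
`A p = Re(-coeff₁(P p)) p^(-w/2)` for `p ∉ S`, `0` for `p ∈ S`: `|A p| ≤ dim W`, as `-coeff₁` is the sum of the inverse zeros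
(`poly_factor` in `HK/LogPoly.lean`, applied to `P p (p^(-w/2) T)`). For `p ∉ S`, `p ∤ N`: `|α| = |β| = p^((k-1)/2)` (the zeros of
`X² - a_p X + p^(k-1)`, `a_p² ≤ 4 p^(k-1)`, real coefficients), so `Q~ = Q(p^(-(w+k-1)/2) T)` has constant coefficient `1`, degree
`≤ 2 dim W`, zeros of absolute value `1`, linear coefficient `coeff₁(P p) p^(-w/2) * (α+β) p^(-(k-1)/2)`, and
`(α+β) p^(-(k-1)/2) = lam k a p = th N k a p`. `LFun Q 0 (edge + t) = ZZ Q~ 1 (1 + t)` (`edge + t = (w+k-1)/2 + (1+t)`).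
Apply `TatePole.AT.log_of_poly` with the finite set `S ∪ {p ∣ N}`; changing finitely many terms of `RR` changes it by a bounded
amount (`RR_near`). -/
def S_LG : Prop := ∀ (ℓ : ℕ) [Fact ℓ.Prime] [Algebra ℚ_[ℓ] ℂ] (W : Type) [AddCommGroup W]
    [Module ℚ_[ℓ] W] [FiniteDimensional ℚ_[ℓ] W] (ρ : Representation ℚ_[ℓ] TatePole.GQ W) (w : ℤ)
    (S : Finset ℕ) (P : ℕ → ℂ[X]),
  (∀ p : ℕ, p.Prime → p ∉ S → TatePole.IsWeightFactor ρ (algebraMap ℚ_[ℓ] ℂ) w p (P p)) →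
  ∃ A : ℕ → ℝ, (∀ p : ℕ, p.Prime → |A p| ≤ Module.finrank ℚ_[ℓ] W) ∧
    ∀ (N k : ℕ) (a : ℕ → ℝ) (Q : ℕ → ℂ[X]), 1 ≤ N → 2 ≤ k → HeckeSeq N k a →
      TatePole.ModFactors w S P N k a Q →
      ∃ C : ℝ, ∀ᶠ x in 𝓝[>] (1 : ℝ),
        |TatePole.logMod w k Q (x - 1) - RR (fun p => A p * th N k a p) x| ≤ C

/-- **MF.** Mathlib's cusp forms. Proof. `cont`: holomorphic. `bdd`: `CuspFormClass.exists_bound` (`Γ₀(N)` is arithmetic).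
`sum`: `ModularFormClass.hasSum_qExpansion` with `h = 1` in the strict periods of `Γ₀(N)` (`strictPeriods_Gamma0`), `Periodic.qParam 1 z =
exp(2π i z)`. `zero`: `CuspFormClass.qExpansion_coeff_zero`. `mod`: `SlashInvariantForm.slash_action_eqn` or
`slash_action_eq`, `denom`. -/
def S_MF : Prop := ∀ (N k : ℕ) (f : CuspForm (CongruenceSubgroup.Gamma0 N : Subgroup (GL (Fin 2) ℝ)) k)
  (a : ℕ → ℝ), 1 ≤ N → TatePole.IsHeckeForm N k f a → IsForm N k f a ∧ HeckeSeq N k a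

/-- **FIN.** The final theorem. Proof. GR, LG, MF, BS with `x = 1 + t`, for `Y_i(x) = logMod (x - 1)` and `A`, and for
`-Y_i` and `-A`. -/
def S_FIN : Prop := ∀ (ℓ : ℕ) [Fact ℓ.Prime] [Algebra ℚ_[ℓ] ℂ] (W : Type) [AddCommGroup W]
    [Module ℚ_[ℓ] W] [FiniteDimensional ℚ_[ℓ] W] (ρ : Representation ℚ_[ℓ] TatePole.GQ W) (w : ℤ)
    (S : Finset ℕ) (P : ℕ → ℂ[X]),
  (∀ p : ℕ, p.Prime → p ∉ S → TatePole.IsWeightFactor ρ (algebraMap ℚ_[ℓ] ℂ) w p (P p)) →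
  ∀ (J : Type) [Fintype J] (N k : J → ℕ), (∀ i, 1 ≤ N i) → (∀ i, 2 ≤ k i) →
  ∀ (f : ∀ i, CuspForm (CongruenceSubgroup.Gamma0 (N i) : Subgroup (GL (Fin 2) ℝ)) (k i))
    (a : J → ℕ → ℝ), (∀ i, TatePole.IsHeckeForm (N i) (k i) (f i) (a i)) →
  (∀ i j, i ≠ j → k i ≠ k j ∨ ∃ p : ℕ, p.Prime ∧ ¬ p ∣ N i * N j ∧ a i p ≠ a j p) →
  ∀ Q : J → ℕ → ℂ[X], (∀ i, TatePole.ModFactors w S P (N i) (k i) (a i) (Q i)) →
  ∀ ε : ℝ, 0 < ε → ∃ δ : ℝ, 0 < δ ∧ ∀ t : ℝ, 0 < t → t < δ →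
    ∑ i, (max 0 (TatePole.logMod w (k i) (Q i) t)) ^ 2 ≤
      ((Module.finrank ℚ_[ℓ] W + ε) * Real.log (1 / t)) ^ 2 ∧
    ∑ i, (max 0 (-TatePole.logMod w (k i) (Q i) t)) ^ 2 ≤
      ((Module.finrank ℚ_[ℓ] W + ε) * Real.log (1 / t)) ^ 2

end Pool.Agent.Lib.MP_058a58_ag.MT
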