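import Pool.Agent.Lib.MP_058a58_ag.MT.Stm3
import Pool.Agent.Lib.MP_058a58_ag.MT.FDefs2

set_option autoImplicit false

/-!
# Twists by modular forms: the Rankin-Selberg form

The bound `(dim W + ε)² log(1/t)²` is replaced by `(log |L(W ⊗ W^∨, 1 + t)| + ε log(1/t)) log(1/t)`.
-/

open Polynomial Filter Topology UpperHalfPlane
open scoped MatrixGroups
open TatePole (RR)

namespace Pool.Agent.Lib.MP_058a58_ag.MT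

/-- **BS2.** The one-sided Bessel inequality, with the mean square of `A`. Proof. Let `L = log (1/(x-1))` (tends to
infinity), `c_i = max 0 (Y_i x) ≥ 0`, `n² = ∑ c_i²`, `q = RR(A²) x`. `n² = ∑ c_i Y_i ≤ ∑ c_i RR(A θ_i) + C ∑ c_i =
RR(A F) + C ∑ c_i`, `F = ∑ c_i θ_i`. `RR(A F) ≤ (u/2) RR(A²) + RR(F²)/(2u)` for every `u > 0` (pointwise
`A F ≤ (u/2) A² + F²/(2u)`), and `RR(F²) = ∑_{i,j} c_i c_j RR(θ_i θ_j) ≤ ∑ c_i² L + (∑ c_i)² C' ≤ n² (L + C'')` (here `c_i ≥ 0` is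
used; `C'' = #J * C'`). With `u = L + C''`: `n² ≤ (L + C'') q/2 + n²/2 + C √(#J) n`, so `n² ≤ (L + C'') q + 2 C √(#J) n`. Since
`0 ≤ q ≤ D² RR(1) ≤ D² (L + C₁)` (`TatePole.RR_one_le..`, see `Bessel.lean`, `Defect2.lean`), `n = O(L)`, and
`n² ≤ L q + C₃ L ≤ (q + ε L) L` near `1`. -/
def S_BS2 : Prop := ∀ (J : Type) [Fintype J] [DecidableEq J] (A : ℕ → ℝ) (D : ℝ) (θ : J → ℕ → ℝ)
  (Y : J → ℝ → ℝ), 0 ≤ D →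
  (∀ p : ℕ, p.Prime → |A p| ≤ D) → (∀ i, ∀ p : ℕ, p.Prime → |θ i p| ≤ 2) →
  (∀ i j, ∃ C : ℝ, ∀ x : ℝ, 1 < x → x ≤ 2 →
    RR (fun p => θ i p * θ j p) x ≤ (if i = j then Real.log (1 / (x - 1)) else 0) + C) →
  (∀ i, ∃ C : ℝ, ∀ᶠ x in 𝓝[>] (1 : ℝ), |Y i x - RR (fun p => A p * θ i p) x| ≤ C) →
  ∀ ε : ℝ, 0 < ε → (∀ᶠ x in 𝓝[>] (1 : ℝ),
    ∑ i, (max 0 (Y i x)) ^ 2 ≤
      (RR (fun p => A p ^ 2) x + ε * Real.log (1 / (x - 1))) * Real.log (1 / (x - 1))) ∧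
  ∀ᶠ x in 𝓝[>] (1 : ℝ), RR (fun p => A p ^ 2) x ≤ (D ^ 2 + ε) * Real.log (1 / (x - 1))

/-- The normalised real parts of the traces of Frobenius. -/
noncomputable def Aw (w : ℤ) (S : Finset ℕ) (P : ℕ → ℂ[X]) (p : ℕ) : ℝ :=
  if p ∈ S then 0 else (-(P p).coeff 1 * (p : ℂ) ^ (-(w : ℂ) / 2)).re

/-- **LGE.** LG with the explicit function `Aw`. Proof: as LG. -/
def S_LGE : Prop := ∀ (ℓ : ℕ) [Fact ℓ.Prime] [Algebra ℚ_[ℓ] ℂ] (W : Type) [AddCommGroup W]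
    [Module ℚ_[ℓ] W] [FiniteDimensional ℚ_[ℓ] W] (ρ : Representation ℚ_[ℓ] TatePole.GQ W) (w : ℤ)
    (S : Finset ℕ) (P : ℕ → ℂ[X]),
  (∀ p : ℕ, p.Prime → p ∉ S → TatePole.IsWeightFactor ρ (algebraMap ℚ_[ℓ] ℂ) w p (P p)) →
  (∀ p : ℕ, p.Prime → |Aw w S P p| ≤ Module.finrank ℚ_[ℓ] W) ∧
    ∀ (N k : ℕ) (a : ℕ → ℝ) (Q : ℕ → ℂ[X]), 1 ≤ N → 2 ≤ k → HeckeSeq N k a →
      TatePole.ModFactors w S P N k a Q →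
      ∃ C : ℝ, ∀ᶠ x in 𝓝[>] (1 : ℝ),
        |TatePole.logMod w k Q (x - 1) - RR (fun p => Aw w S P p * th N k a p) x| ≤ C

/-- **LGN.** The logarithm of the `L`-function of `W ⊗ W^∨`. Proof. As `rs_log` in `AT/RSLog.lean`. Let `p ∉ S ∪ S'` be a prime
and `σ` a Frobenius element at `p` (they exist, see `LocalFactor.lean`, `FrobSys`). The eigenvalues of `ρ(σ⁻¹)` (under `ι`) have absolute value
`p^(w/2)` (the inverse zeros of `P p`; the eigenvalue `0` does not occur, as `ρ(σ⁻¹)` is invertible), so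
`ι tr ρ(σ) = p^(-w) conj (ι tr ρ(σ⁻¹))` (for `M = p^(-w/2) ρ(σ⁻¹)`: `trace_inv_conj`). `tr (ad ρ)(σ⁻¹) = tr ρ(σ⁻¹) tr ρ(σ)`
(`Representation.char_tensor`, `char_dual`; compare `trace_selfRep`), so the linear coefficient of `N p` is
`-|tr ρ(σ⁻¹)|² p^(-w) = -|T_p|²`, `T_p = -coeff₁(P p) p^(-w/2)`, `|T_p| ≤ dim W`. As in `rs_log`, `log |LFun N 0 x| = RR(|T_p|²) + O(1)` (`log_ZZ_split` or
`log_of_poly`; at the primes outside `S'` the zeros of `N p` have absolute value `1 ≠ 1/p`), and `Aw(p)² = (Re T_p)² ≤ |T_p|²`. -/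
def S_LGN : Prop := ∀ (ℓ : ℕ) [Fact ℓ.Prime] [Algebra ℚ_[ℓ] ℂ] (W : Type) [AddCommGroup W]
    [Module ℚ_[ℓ] W] [FiniteDimensional ℚ_[ℓ] W] (ρ : Representation ℚ_[ℓ] TatePole.GQ W) (w : ℤ)
    (S : Finset ℕ) (P : ℕ → ℂ[X]),
  (∀ p : ℕ, p.Prime → p ∉ S → TatePole.IsWeightFactor ρ (algebraMap ℚ_[ℓ] ℂ) w p (P p)) →
  ∀ (S' : Finset ℕ) (N : ℕ → ℂ[X]), TatePole.AdFactors ρ (algebraMap ℚ_[ℓ] ℂ) S' N →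
  (∃ C : ℝ, ∀ᶠ x in 𝓝[>] (1 : ℝ),
    RR (fun p => Aw w S P p ^ 2) x ≤ Real.log ‖TatePole.LFun N 0 (x : ℝ)‖ + C) ∧
  ∃ C : ℝ, ∀ᶠ x in 𝓝[>] (1 : ℝ),
    Real.log ‖TatePole.LFun N 0 (x : ℝ)‖ ≤ (Module.finrank ℚ_[ℓ] W : ℝ) ^ 2 * Real.log (1 / (x - 1)) + C

/-- **FIN2.** The final theorem. -/
def S_FIN2 : Prop := ∀ (ℓ : ℕ) [Fact ℓ.Prime] [Algebra ℚ_[ℓ] ℂ] (W : Type) [AddCommGroup W]
    [Module ℚ_[ℓ] W] [FiniteDimensional ℚ_[ℓ] W] (ρ : Representation ℚ_[ℓ] TatePole.GQ W) (w : ℤ)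
    (S : Finset ℕ) (P : ℕ → ℂ[X]),
  (∀ p : ℕ, p.Prime → p ∉ S → TatePole.IsWeightFactor ρ (algebraMap ℚ_[ℓ] ℂ) w p (P p)) →
  ∀ (S' : Finset ℕ) (N : ℕ → ℂ[X]), TatePole.AdFactors ρ (algebraMap ℚ_[ℓ] ℂ) S' N →
  ∀ (J : Type) [Fintype J] (M k : J → ℕ), (∀ i, 1 ≤ M i) → (∀ i, 2 ≤ k i) →
  ∀ (f : ∀ i, CuspForm (CongruenceSubgroup.Gamma0 (M i) : Subgroup (GL (Fin 2) ℝ)) (k i))
    (a : J → ℕ → ℝ), (∀ i, TatePole.IsHeckeForm (M i) (k i) (f i) (a i)) →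
  (∀ i j, i ≠ j → k i ≠ k j ∨ ∃ p : ℕ, p.Prime ∧ ¬ p ∣ M i * M j ∧ a i p ≠ a j p) →
  ∀ Q : J → ℕ → ℂ[X], (∀ i, TatePole.ModFactors w S P (M i) (k i) (a i) (Q i)) →
  ∀ ε : ℝ, 0 < ε → ∃ δ : ℝ, 0 < δ ∧ ∀ t : ℝ, 0 < t → t < δ →
    ∑ i, (max 0 (TatePole.logMod w (k i) (Q i) t)) ^ 2 ≤
      (Real.log ‖TatePole.LFun N 0 ((1 + t : ℝ) : ℂ)‖ + ε * Real.log (1 / t)) * Real.log (1 / t) ∧
    ∑ i, (max 0 (-TatePole.logMod w (k i) (Q i) t)) ^ 2 ≤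
      (Real.log ‖TatePole.LFun N 0 ((1 + t : ℝ) : ℂ)‖ + ε * Real.log (1 / t)) * Real.log (1 / t) ∧
    Real.log ‖TatePole.LFun N 0 ((1 + t : ℝ) : ℂ)‖ ≤
      ((Module.finrank ℚ_[ℓ] W : ℝ) ^ 2 + ε) * Real.log (1 / t)

end Pool.Agent.Lib.MP_058a58_ag.MT
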