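import Pool.Agent.Lib.MP_058a58_ag.MT.Stm4

set_option autoImplicit false

/-!
# Twists by modular forms without the Ramanujan-Petersson bound

The eigenvalues `x = lam k a p` are real. If `|x| ≤ 2` the Satake parameter `α` (`α + α⁻¹ = x`) has absolute
value `1`; otherwise it is real, and the trivial bound `|α| ≤ √p` is enough: the local factors at `p` of
`∑ λ_f(n) λ_g(n) n^(-s)` satisfy `log D_p ≥ x y p^(-s) - (8 (x² + y²) + 20) p^(-2s)`, because `-log (1 - v) ≥ v` for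
all real `v < 1`, and `∑ λ_f(p)² p^(-2) < ∞`.
-/

open Polynomial Filter Topology UpperHalfPlane
open scoped MatrixGroups
open TatePole (RR)

namespace Pool.Agent.Lib.MP_058a58_ag.MT

/-- `α` is a Satake parameter: `α + α⁻¹ = x`, `1 ≤ ‖α‖ ≤ B`, and `α` is real or of absolute value `1`. -/
structure Sat (x B : ℝ) (α : ℂ) : Prop where
  add : α + α⁻¹ = x
  one_le : 1 ≤ ‖α‖
  le : ‖α‖ ≤ B
  alt : ‖α‖ = 1 ∨ α.im = 0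

/-- **F1.** Good primes. Proof. `|U x r| ≤ (r+1) ‖α‖^r ≤ (r+1) B^r` (`U x r = ∑_j α^(r-2j)`), so the series converges absolutely
(`B² u < 1`). `D * Q = 1 - u²`, `Q = 1 - x y u + (x² + y² - 2) u² - x y u³ + u⁴ = ∏ (1 - v)` over the four numbers
`v = α^(±1) γ^(±1) u`, `‖v‖ ≤ B² u < 1`. Case 1, both `α`, `γ` real: all `v` are real and less than `1`, `-log (1 - v) ≥ v`, the sum of
the `v` is `x y u`: `log D ≥ log (1 - u²) + x y u`. Case 2, one of them, say `γ`, has absolute value `1` (`γ⁻¹ = conj γ`): the factors come in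
pairs of complex conjugates (if `α` is real: `1 - α γ u`, `1 - α γ⁻¹ u`; if `‖α‖ = 1`: `α γ`, `α⁻¹ γ⁻¹`), so `Q = ∏ ‖1 - v‖ > 0`, `‖v‖ ≤ ‖α‖ u ≤ B u ≤ 3/4`,
`-log ‖1 - v‖ ≥ Re v - ‖v‖² / (2 (1 - ‖v‖)) ≥ Re v - 2 ‖v‖²` (`Complex.norm_log_one_add_sub_self_le`), the sum of the four `Re v` is
`x y u`, and `‖v‖² ≤ ‖α‖² u² ≤ (x² + 2) u²` (if `α` is real, `α² ≤ x² - 2`). `log (1 - u²) ≥ -2 u²` as `u² ≤ 1/4`. -/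
def S_F1 : Prop := ∀ (x y u B : ℝ) (α γ : ℂ), Sat x B α → Sat y B γ → 0 < u → u ≤ 1 / 2 →
  B ^ 2 * u < 1 → B * u ≤ 3 / 4 →
  Summable (fun r : ℕ => |U x r * U y r * u ^ r|) ∧
  0 < ∑' r : ℕ, U x r * U y r * u ^ r ∧
  x * y * u - (8 * (x ^ 2 + y ^ 2) + 20) * u ^ 2 ≤ Real.log (∑' r : ℕ, U x r * U y r * u ^ r)

/-- **F2.** Bad primes. Proof. `∑ U_r(y) v^r * (1 - y v + v²) = 1`, `1 - y v + v² = (1 - γ v) (1 - γ⁻¹ v)`, here `v = t u`, and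
`‖γ v‖ ≤ B² u < 1`, so the series converges absolutely and `|1 - y v + v²| ≤ 4`. For the second part a geometric series. -/
def S_F2 : Prop := (∀ (t y u B : ℝ) (γ : ℂ), Sat y B γ → |t| ≤ B → 0 < u → B ^ 2 * u < 1 →
    Summable (fun r : ℕ => |t ^ r * U y r * u ^ r|) ∧ 1 / 4 ≤ |∑' r : ℕ, t ^ r * U y r * u ^ r|) ∧
  ∀ t t' u : ℝ, |t * t' * u| < 1 →
    Summable (fun r : ℕ => |t ^ r * t' ^ r * u ^ r|) ∧ 1 / 4 ≤ |∑' r : ℕ, t ^ r * t' ^ r * u ^ r|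

/-- **F3.** Normalised coefficients at prime powers. Proof. Induction over `r`; `lam k a (p^r) = a(p^r) / p^(r (k-1)/2)`, and
`p^(k-1) / (p^((k-1)/2))² = 1`. The bound gives `|lam k a (p^r)| ≤ C p^(r/2)`. Bad primes: `|lam k a p|^r ≤ C p^(r/2)` for all `r`
gives `|lam k a p| ≤ √p`. Good primes: if `|x| ≤ 2` take `α = (x + i √(4 - x²))/2`. If `|x| > 2` take the real root `α` of
`α² - x α + 1` with `|α| > 1`; `U x r = ∑_j α^(r-2j)` is a sum of numbers of the same sign, so `|α|^r ≤ |U x r| ≤ C p^(r/2)` for all `r`, hence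
`|α| ≤ √p`. -/
def S_F3 : Prop := ∀ (N k : ℕ) (a : ℕ → ℝ), 2 ≤ k → HeckeSeq N k a →
  (∃ C : ℝ, ∀ n : ℕ, 1 ≤ n → |a n| ≤ C * (n : ℝ) ^ ((k : ℝ) / 2)) →
  (lam k a 0 = 0 ∧ lam k a 1 = 1 ∧ ∀ m n : ℕ, m.Coprime n → lam k a (m * n) = lam k a m * lam k a n) ∧
  ∀ p : ℕ, p.Prime → (¬ p ∣ N → (∃ α : ℂ, Sat (lam k a p) (Real.sqrt p) α) ∧
      ∀ r, lam k a (p ^ r) = U (lam k a p) r) ∧
    (p ∣ N → |lam k a p| ≤ Real.sqrt p ∧ ∀ r, lam k a (p ^ r) = lam k a p ^ r)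

/-- **EPF.** From the Dirichlet series to the sum over the primes. Proof. `u(n) = lam k a n * lam k' b n` (F3: multiplicative).
EPA: `log |DD| = ∑_p log |D_p|`. Let `x = p^(-s) ≤ 1/2`, `B = √p`: `B² x = p^(1-s) < 1`, `B x ≤ 2^(-1/2) ≤ 3/4`. `p` not dividing `N N'`:
F3, F1: `log D_p ≥ u(p) x - (8 (lam a(p)² + lam b(p)²) + 20) x²`. `p ∣ N N'`: F3, F2: `|D_p| ≥ 1/4`. So
`log |DD| ≥ ∑_{p ∤ N N'} u(p) p^(-s) - C`, `C = ∑_p (8 (lam a(p)² + lam b(p)²) + 20) p^(-2) + (number of p ∣ N N') * log 4`. `th N k a p * th N' k' b p` is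
`u(p)` for `p ∤ N N'` and `0` otherwise. -/
def S_EPF : Prop := S_F1 → S_F2 → S_F3 → S_EPA → ∀ (N N' k k' : ℕ) (a b : ℕ → ℝ), 1 ≤ N → 1 ≤ N' → 2 ≤ k →
  2 ≤ k' → HeckeSeq N k a → HeckeSeq N' k' b →
  (∃ C : ℝ, ∀ n : ℕ, 1 ≤ n → |a n| ≤ C * (n : ℝ) ^ ((k : ℝ) / 2)) →
  (∃ C : ℝ, ∀ n : ℕ, 1 ≤ n → |b n| ≤ C * (n : ℝ) ^ ((k' : ℝ) / 2)) →
  (∀ s : ℝ, 1 < s → s ≤ 2 → Summable (fun n : ℕ => |lam k a n * lam k' b n| * (n : ℝ) ^ (-s))) →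
  (∀ s : ℝ, 1 < s → s ≤ 2 → Summable (fun n : ℕ => lam k a n ^ 2 * (n : ℝ) ^ (-s))) →
  (∀ s : ℝ, 1 < s → s ≤ 2 → Summable (fun n : ℕ => lam k' b n ^ 2 * (n : ℝ) ^ (-s))) →
  ∃ C : ℝ, ∀ s : ℝ, 1 < s → s ≤ 2 → DD k k' a b s ≠ 0 ∧
    RR (fun p => th N k a p * th N' k' b p) s ≤ Real.log |DD k k' a b s| + C

/-- The conclusion of EPF. -/
def R_EPF : Prop := ∀ (N N' k k' : ℕ) (a b : ℕ → ℝ), 1 ≤ N → 1 ≤ N' → 2 ≤ k →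
  2 ≤ k' → HeckeSeq N k a → HeckeSeq N' k' b →
  (∃ C : ℝ, ∀ n : ℕ, 1 ≤ n → |a n| ≤ C * (n : ℝ) ^ ((k : ℝ) / 2)) →
  (∃ C : ℝ, ∀ n : ℕ, 1 ≤ n → |b n| ≤ C * (n : ℝ) ^ ((k' : ℝ) / 2)) →
  (∀ s : ℝ, 1 < s → s ≤ 2 → Summable (fun n : ℕ => |lam k a n * lam k' b n| * (n : ℝ) ^ (-s))) →
  (∀ s : ℝ, 1 < s → s ≤ 2 → Summable (fun n : ℕ => lam k a n ^ 2 * (n : ℝ) ^ (-s))) →
  (∀ s : ℝ, 1 < s → s ≤ 2 → Summable (fun n : ℕ => lam k' b n ^ 2 * (n : ℝ) ^ (-s))) →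
  ∃ C : ℝ, ∀ s : ℝ, 1 < s → s ≤ 2 → DD k k' a b s ≠ 0 ∧
    RR (fun p => th N k a p * th N' k' b p) s ≤ Real.log |DD k k' a b s| + C

/-- The conclusions of DBE, DBL, DG, HB. -/
def R_DBE : Prop := ∀ (N N' k : ℕ) (f g : ℍ → ℂ) (a b : ℕ → ℝ), Pair N N' k k f g a b →
    (∃ p : ℕ, p.Prime ∧ ¬ p ∣ N * N' ∧ a p ≠ b p) →
    ∃ C : ℝ, ∀ s : ℝ, 1 < s → s ≤ 2 → |DD k k a b s| ≤ C

def R_DBL : Prop := ∀ (N N' k' l : ℕ) (f g : ℍ → ℂ) (a b : ℕ → ℝ),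
    Pair N N' (k' + l) k' f g a b → 1 ≤ l →
    ∃ C : ℝ, ∀ s : ℝ, 1 < s → s ≤ 2 → |DD (k' + l) k' a b s| ≤ C

def R_DG : Prop := ∀ (N N' k k' : ℕ) (f g : ℍ → ℂ) (a b : ℕ → ℝ), Pair N N' k k' f g a b →
    (∃ C : ℝ, ∀ s : ℝ, 1 < s → s ≤ 2 → |DD k k a a s| ≤ C / (s - 1)) ∧
    ∀ s : ℝ, 1 < s → s ≤ 2 → Summable (fun n : ℕ => |lam k a n * lam k' b n| * (n : ℝ) ^ (-s))

def R_HB : Prop := ∀ (k : ℕ) (f : ℍ → ℂ) (a : ℕ → ℝ), IsQ k f a →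
    ∃ C : ℝ, ∀ n : ℕ, 1 ≤ n → |a n| ≤ C * (n : ℝ) ^ ((k : ℝ) / 2)

/-- **GRF.** The Gram matrix. Proof. As GR (`P/GR.lean`), with EPF instead of EP; the summability of `lam k a n ^ 2 * n^(-s)` is DG for
the pair `(a, a)`. -/
def S_GRF : Prop := R_DBE → R_DBL → R_DG → R_HB → R_EPF →
  ∀ (N N' k k' : ℕ) (f g : ℍ → ℂ) (a b : ℕ → ℝ), Pair N N' k k' f g a b →
    (∃ C : ℝ, ∀ s : ℝ, 1 < s → s ≤ 2 →
      RR (fun p => th N k a p * th N k a p) s ≤ Real.log (1 / (s - 1)) + C) ∧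
    ((k ≠ k' ∨ ∃ p : ℕ, p.Prime ∧ ¬ p ∣ N * N' ∧ a p ≠ b p) →
      ∃ C : ℝ, ∀ s : ℝ, 1 < s → s ≤ 2 → RR (fun p => th N k a p * th N' k' b p) s ≤ C)

/-- **BS3.** The one-sided Bessel inequality for square summable functions. Proof. As BS2 (`P/BS2.lean`). All the sums `RR` converge for
`1 < x ≤ 2`, as `2 |A θ_i| ≤ A² + θ_i²`, `2 |θ_i θ_j| ≤ θ_i² + θ_j²`, `F² ≤ #J ∑ c_i² θ_i²`. -/
def S_BS3 : Prop := ∀ (J : Type) [Fintype J] [DecidableEq J] (A : ℕ → ℝ) (D : ℝ) (θ : J → ℕ → ℝ)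
  (Y : J → ℝ → ℝ), 0 ≤ D → (∀ p : ℕ, p.Prime → |A p| ≤ D) →
  (∀ i, ∀ x : ℝ, 1 < x → x ≤ 2 → Summable (fun p : Nat.Primes => θ i p ^ 2 * (p : ℝ) ^ (-x))) →
  (∀ i j, ∃ C : ℝ, ∀ x : ℝ, 1 < x → x ≤ 2 →
    RR (fun p => θ i p * θ j p) x ≤ (if i = j then Real.log (1 / (x - 1)) else 0) + C) →
  (∀ i, ∃ C : ℝ, ∀ᶠ x in 𝓝[>] (1 : ℝ), |Y i x - RR (fun p => A p * θ i p) x| ≤ C) →
  ∀ ε : ℝ, 0 < ε → (∀ᶠ x in 𝓝[>] (1 : ℝ),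
    ∑ i, (max 0 (Y i x)) ^ 2 ≤
      (RR (fun p => A p ^ 2) x + ε * Real.log (1 / (x - 1))) * Real.log (1 / (x - 1))) ∧
  ∀ᶠ x in 𝓝[>] (1 : ℝ), RR (fun p => A p ^ 2) x ≤ (D ^ 2 + ε) * Real.log (1 / (x - 1))

/-- **LGF.** The logarithm of the twisted `L`-function. Proof. `n = dim W`. `P p = det(1 - T Frob_p)` has constant coefficient `1`, degree
`≤ n`, and all zeros of absolute value `p^(-w/2)` (see `LocalFactor.lean` for the existence of Frobenius elements); so for `p ∉ S`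
`P p (p^(-w/2) T) = ∏_j (1 - b_j T)`, `‖b_j‖ ≤ 1` (`poly_factor` in `HK/LogPoly.lean`), `∑ b_j = -coeff₁(P p) p^(-w/2)`, hence
`|Aw p| ≤ n`. For `p ∉ S`, `p ∤ N`, let `α` be as in `Sat`: the two numbers in `IsModTwist` are `p^((k-1)/2) α^(±1)` (both are the roots of
`X² - a_p X + p^(k-1)`). With `X = p^(-x)`, `x = 1 + t`: `Q p (p^(-edge-t)) = ∏_j (1 - b_j α X) (1 - b_j α⁻¹ X)`, and for `v = b_j α^(±1) X`: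
`‖v‖ ≤ √p p^(-x) ≤ 2^(-1/2) ≤ 3/4`, `|log ‖1 - v‖ + Re v| ≤ 2 ‖v‖²` (`Complex.norm_log_one_add_sub_self_le`), `‖v‖² ≤ (θ² + 2) p^(-2)`,
`θ = lam k a p` (if `α` is real, `α² ≤ θ² - 2`). So `|-log ‖Q p (..)‖ - Aw p * θ * p^(-x)| ≤ 4 n (θ² + 2) p^(-2)`, a convergent sum over `p`.
The product converges: `‖z_p - 1‖ ≤ K_n ‖α‖ p^(-x) ≤ K_n (θ² + 3) p^(-x)` for `z_p = (Q p (..))⁻¹`, summable for every `x` in `(1, 2]`; then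
`log ‖∏' z_p‖ = ∑' log ‖z_p‖` (`Multipliable.norm_tprod`, `Real.rexp_tsum_eq_tprod`). The finitely many primes `p ∈ S` or `p ∣ N`: `log ‖Q p‖` tends to a
finite limit, as `Q p` does not vanish at `p^(-edge)`, and `Aw p * th N k a p = 0`. -/
def S_LGF : Prop := ∀ (ℓ : ℕ) [Fact ℓ.Prime] [Algebra ℚ_[ℓ] ℂ] (W : Type) [AddCommGroup W]
    [Module ℚ_[ℓ] W] [FiniteDimensional ℚ_[ℓ] W] (ρ : Representation ℚ_[ℓ] TatePole.GQ W) (w : ℤ)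
    (S : Finset ℕ) (P : ℕ → ℂ[X]),
  (∀ p : ℕ, p.Prime → p ∉ S → TatePole.IsWeightFactor ρ (algebraMap ℚ_[ℓ] ℂ) w p (P p)) →
  (∀ p : ℕ, p.Prime → |Aw w S P p| ≤ Module.finrank ℚ_[ℓ] W) ∧
    ∀ (N k : ℕ) (a : ℕ → ℝ) (Q : ℕ → ℂ[X]), 1 ≤ N → 2 ≤ k →
      (∀ p : ℕ, p.Prime → ¬ p ∣ N → ∃ α : ℂ, Sat (lam k a p) (Real.sqrt p) α) →
      (∀ x : ℝ, 1 < x → x ≤ 2 → Summable (fun n : ℕ => lam k a n ^ 2 * (n : ℝ) ^ (-x))) →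
      TatePole.ModFactors w S P N k a Q →
      ∃ C : ℝ, ∀ᶠ x in 𝓝[>] (1 : ℝ),
        |TatePole.logMod w k Q (x - 1) - RR (fun p => Aw w S P p * th N k a p) x| ≤ C

end Pool.Agent.Lib.MP_058a58_ag.MT
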